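import Pool.Agent.Lib.MP_ce212d_co.SvQ

/-!
Positivity of the main term in dimension one.
-/

open Finset

namespace Pool.Agent.Lib.MP_ce212d_co

private lemma r1_inner {c D L t G0 T0 M0 G T M : ℝ} (hc : 0 ≤ c) (hD : 0 ≤ D) (hL : 0 ≤ L)
    (ht : 0 ≤ t) (htL : t ≤ L) (h0 : G0 ≤ 2 * c * L + D * c) (h1 : T0 ≤ c * L ^ 2 + D * c * L)
    (h2 : M0 ≤ 2 * c * L ^ 3 / 3 + D * c * L ^ 2) (g0 : 2 * c * (L - t) - D * c ≤ G)
    (g1 : c * (L - t) ^ 2 - D * c * L ≤ T) (g2 : 2 * c * (L - t) ^ 3 / 3 - D * c * L ^ 2 ≤ M) :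
    (3 / 8 * L) ^ 2 * G0 + 2 * (3 / 8 * L) * T0 + M0 -
      (((3 / 8 * L) ^ 2 + 2 * (3 / 8 * L) * t) * G + 2 * (3 / 8 * L + t) * T + M) ≤
      c * (t * (9 / 32 * L ^ 2 + 11 / 4 * L * t - 4 / 3 * t ^ 2)) + 7 * (D * c * L ^ 2) := by
  have e0 := mul_le_mul_of_nonneg_left h0 (sq_nonneg (3 / 8 * L))
  have e1 := mul_le_mul_of_nonneg_left h1 (show 0 ≤ 2 * (3 / 8 * L) by positivity)
  have e2 := mul_le_mul_of_nonneg_left g0
    (show 0 ≤ (3 / 8 * L) ^ 2 + 2 * (3 / 8 * L) * t by positivity)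
  have e3 := mul_le_mul_of_nonneg_left g1 (show 0 ≤ 2 * (3 / 8 * L + t) by positivity)
  have k : D * c * L * t ≤ D * c * L * L := mul_le_mul_of_nonneg_left htL (by positivity)
  have k2 : 0 ≤ D * c * L * L := by positivity
  nlinarith

private lemma r1_tail {g L t : ℝ} (hg : 0 ≤ g) (h1 : L ≤ t) (h2 : t ≤ 13 / 10 * L) :
    13 / 10 * L ^ 2 * g ≤ 23 / 10 * L * (g * t) - g * t * t := by
  have := mul_nonneg hg (mul_nonneg (sub_nonneg.2 h1) (sub_nonneg.2 h2))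
  nlinarith

private lemma r1_final {c C D L r I S W : ℝ} (hC : 1 ≤ C) (hD : 1 ≤ D) (hr : 1000 * (C * D) ≤ r)
    (hL : L = r ^ 2) (hc : 1 ≤ c * L) (hI : 163 / 96 * (c * L ^ 3) - 2 * (D * c * L ^ 2) ≤ I)
    (hS : S ≤ c * (349 / 288 * L ^ 3 + 9 * (C * L ^ 2)) + 7 * (D * c * L ^ 2) * (C * r))
    (hW : L * W ≤ 69 / 260 * L + 8 * C) : 1 ≤ I - (S + W * I) := by
  have hCD : 1 ≤ C * D := one_le_mul_of_one_le_of_one_le hC hD
  have hr1 : 1000 ≤ r := by linarith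
  have hCle : C ≤ C * D := le_mul_of_one_le_right (by linarith) hD
  have hDle : D ≤ C * D := le_mul_of_one_le_left (by linarith) hC
  have hrL : 1000 * r ≤ L := by rw [hL]; nlinarith
  have hL0 : 0 < L := by linarith
  have hc0 : 0 < c := by
    by_contra h
    have := mul_nonpos_of_nonpos_of_nonneg (not_lt.1 h) hL0.le
    linarith
  have hW' : W ≤ 69 / 260 + 1 / 1000 := by
    have : L * W ≤ L * (69 / 260 + 1 / 1000) := by linarith
    exact le_of_mul_le_mul_left this hL0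
  set x := c * L ^ 2 with hx
  have hx1 : 1 ≤ x := by
    have : x = c * L * L := by rw [hx]; ring
    rw [this]
    exact one_le_mul_of_one_le_of_one_le hc (by linarith)
  have hx0 : 0 ≤ x := by linarith
  have e1 : c * L ^ 3 = x * L := by rw [hx]; ring
  have e2 : D * c * L ^ 2 = x * D := by rw [hx]; ring
  have hI' : x * (163 / 96 * L - 2 * D) ≤ I := by rw [e1, e2] at hI; linarith
  have hCDr : 1000 * (C * D * r) ≤ L := by rw [hL]; nlinarith
  have hS' : S ≤ x * (349 / 288 * L + 9 * C + 7 / 1000 * L) := by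
    have e3 : c * (349 / 288 * L ^ 3 + 9 * (C * L ^ 2)) + 7 * (D * c * L ^ 2) * (C * r) =
        x * (349 / 288 * L + 9 * C + 7 * (C * D * r)) := by rw [hx]; ring
    rw [e3] at hS
    exact hS.trans (mul_le_mul_of_nonneg_left (by linarith) hx0)
  have hI0 : 0 ≤ I := le_trans (mul_nonneg hx0 (by linarith)) hI'
  have hWI : W * I ≤ (69 / 260 + 1 / 1000) * I := mul_le_mul_of_nonneg_right hW' hI0
  have hfin : 1 ≤ x * ((1 - (69 / 260 + 1 / 1000)) * (163 / 96 * L - 2 * D) -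
      (349 / 288 * L + 9 * C + 7 / 1000 * L)) :=
    one_le_mul_of_one_le_of_one_le hx1 (by linarith)
  nlinarith

theorem main_one : ∃ L₀ : ℝ, ∀ (N : ℕ) (L : ℝ), L₀ ≤ L → 13 / 10 * L ≤ lg N →
    1 ≤ mainT 1 N.primesLE (N.primesLE.filter fun p => lg p ≤ 13 / 10 * L)
      (yy (3 / 8) L) := by
  obtain ⟨C, hC, hps⟩ := prime_sums (κ := 1) le_rfl (by norm_num)
  obtain ⟨D, hD, hma⟩ := mom_asymp (κ := 1) le_rfl (by norm_num) C hC
  refine ⟨(1000 * (C * D)) ^ 2, fun N L hL hN => ?_⟩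
  obtain ⟨ph, pg, ph2, pg2⟩ := hps N
  have hCD : 1 ≤ C * D := one_le_mul_of_one_le_of_one_le hC hD
  have hCle : C ≤ C * D := le_mul_of_one_le_right (by linarith) hD
  have hLbig : 1000 * (C * D) ≤ L := by nlinarith
  have hL0 : 0 < L := by linarith
  have hr : 1000 * (C * D) ≤ √L := Real.le_sqrt_of_sq_le hL
  set P := N.primesLE with hPdef
  have hP : ∀ p ∈ P, p.Prime := fun p hp => Nat.prime_of_mem_primesLE hp
  have hlg : ∀ p ∈ P, 0 < lg p := fun p hp =>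
    Real.log_pos (by exact_mod_cast (hP p hp).one_lt)
  obtain ⟨c, hc, hm⟩ := hma P (hh 1) lg L (fun p hp => hh_nonneg 1 (hP p hp)) hlg (by linarith)
    (fun u h0 h1 => ph u h0 (by linarith)) ph2
  simp only [pow_one, Nat.cast_one, Nat.sub_self, pow_zero, mul_one] at hc hm
  have hc0 : 0 ≤ c := by
    by_contra h
    have := mul_nonpos_of_nonpos_of_nonneg (not_le.1 h).le hL0.le
    linarith
  obtain ⟨m0, m1, m2⟩ := hm L hL0.le le_rfl
  rw [abs_le] at m0 m1 m2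
  norm_num at m0 m1 m2
  have hab : ∀ u, 0 ≤ u → u ≤ lg N → ∀ j : ℕ,
      |∑ p ∈ P with lg p ≤ u, gg 1 p * lg p * lg p ^ j - u ^ (j + 1) / (j + 1)| ≤
        2 * C * u ^ j := by
    intro u h0 h1 j
    have := abel_pow P (fun p => gg 1 p * lg p) lg
      (fun p hp => mul_nonneg (gg_nonneg 1 p) (hlg p hp).le) (fun p hp => (hlg p hp).le)
      (κ := ((1 : ℕ) : ℝ)) (C := C) h0 (fun v hv0 hv1 => pg v hv0 (hv1.trans h1)) j
    simpa using this
  unfold mainT
  set I := ∑ T ∈ P.powerset, yy (3 / 8) L T ^ 2 * ∏ p ∈ T, hh 1 p with hIdef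
  set inn : ℕ → ℝ := fun q => ∑ T ∈ (P.erase q).powerset,
    (yy (3 / 8) L T - yy (3 / 8) L (insert q T)) ^ 2 * ∏ p ∈ T, hh 1 p with hinn
  set Q := P.filter fun p => lg p ≤ 13 / 10 * L with hQ
  have hIeq := diag_eq 1 P (3 / 8) L
  rw [← hIdef] at hIeq
  have hQ1 : Q.filter (fun p => lg p ≤ L) = P.filter fun p => lg p ≤ L := by
    rw [hQ, filter_filter]
    refine filter_congr fun p _ => ⟨fun h => h.2, fun h => ⟨by linarith, h⟩⟩
  have hsplit : ∀ f : ℕ → ℝ, ∑ q ∈ Q, f q =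
      ∑ q ∈ P with lg q ≤ L, f q + ∑ q ∈ Q with ¬ lg q ≤ L, f q := by
    intro f
    rw [← hQ1, sum_filter_add_sum_filter_not]
  have hI : 163 / 96 * (c * L ^ 3) - 2 * (D * c * L ^ 2) ≤ I := by
    have e0 := mul_le_mul_of_nonneg_left m0.1 (sq_nonneg (3 / 8 * L))
    have e1 := mul_le_mul_of_nonneg_left m1.1 (show 0 ≤ 2 * (3 / 8 * L) by positivity)
    have e2 := m2.1
    have k : 0 ≤ D * c * L ^ 2 := by positivity
    rw [hIeq]
    nlinarith
  have hS : ∑ q ∈ P with lg q ≤ L, gg 1 q * inn q ≤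
      c * (349 / 288 * L ^ 3 + 9 * (C * L ^ 2)) + 7 * (D * c * L ^ 2) * (C * √L) := by
    have h1 : ∑ q ∈ P with lg q ≤ L, gg 1 q * inn q ≤ ∑ q ∈ P with lg q ≤ L,
        (c * (9 / 32 * L ^ 2 * (gg 1 q * lg q * lg q ^ 0) +
          11 / 4 * L * (gg 1 q * lg q * lg q ^ 1) - 4 / 3 * (gg 1 q * lg q * lg q ^ 2)) +
          7 * (D * c * L ^ 2) * gg 1 q) := by
      refine sum_le_sum fun q hq => ?_
      obtain ⟨hqP, hqL⟩ := mem_filter.1 hq
      have ht := (hlg q hqP).le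
      obtain ⟨n0, n1, n2⟩ := hm (L - lg q) (by linarith) (by linarith)
      rw [abs_le] at n0 n1 n2
      norm_num at n0 n1 n2
      have hi := inner_le (κ := 1) (a := 3 / 8) (L := L) hP hqP
      rw [← hIdef, hIeq] at hi
      have hb := r1_inner (G0 := mom P (hh 1) lg 0 L) (T0 := mom P (hh 1) lg 1 L)
        (M0 := mom P (hh 1) lg 2 L) (G := mom P (hh 1) lg 0 (L - lg q))
        (T := mom P (hh 1) lg 1 (L - lg q)) (M := mom P (hh 1) lg 2 (L - lg q)) hc0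
        (show 0 ≤ D by linarith) hL0.le ht hqL (by linarith [m0.2]) (by linarith [m1.2])
        (by linarith [m2.2]) (by linarith [n0.1]) (by linarith [n1.1]) (by linarith [n2.1])
      have := mul_le_mul_of_nonneg_left (hi.trans hb) (gg_nonneg 1 q)
      refine this.trans (le_of_eq ?_)
      ring
    rw [sum_add_distrib, ← mul_sum, ← mul_sum, sum_sub_distrib, sum_add_distrib, ← mul_sum,
      ← mul_sum, ← mul_sum] at h1
    have a0 := (abs_le.1 (hab L hL0.le (by linarith) 0)).2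
    have a1 := (abs_le.1 (hab L hL0.le (by linarith) 1)).2
    have a2 := (abs_le.1 (hab L hL0.le (by linarith) 2)).1
    have a3 := pg2 L (by linarith)
    refine h1.trans (add_le_add (mul_le_mul_of_nonneg_left ?_ hc0)
      (mul_le_mul_of_nonneg_left a3 (by positivity)))
    have b0 := mul_le_mul_of_nonneg_left a0 (show 0 ≤ 9 / 32 * L ^ 2 by positivity)
    have b1 := mul_le_mul_of_nonneg_left a1 (show 0 ≤ 11 / 4 * L by positivity)
    have k : 0 ≤ C * L ^ 2 := by positivity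
    norm_num at b0 b1 a2 ⊢
    nlinarith
  have hW : L * ∑ q ∈ Q with ¬ lg q ≤ L, gg 1 q ≤ 69 / 260 * L + 8 * C := by
    have h1 : 13 / 10 * L ^ 2 * ∑ q ∈ Q with ¬ lg q ≤ L, gg 1 q ≤
        23 / 10 * L * ∑ q ∈ Q with ¬ lg q ≤ L, gg 1 q * lg q -
          ∑ q ∈ Q with ¬ lg q ≤ L, gg 1 q * lg q * lg q ^ 1 := by
      rw [mul_sum, mul_sum, ← sum_sub_distrib]
      refine sum_le_sum fun q hq => ?_
      obtain ⟨hqQ, hqL⟩ := mem_filter.1 hq
      rw [pow_one]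
      exact r1_tail (gg_nonneg 1 q) (not_le.1 hqL).le (mem_filter.1 hqQ).2
    have s0 := hsplit fun q => gg 1 q * lg q
    have s1 := hsplit fun q => gg 1 q * lg q * lg q ^ 1
    have a0 := (abs_le.1 (pg L hL0.le (by linarith))).1
    have a1 := (abs_le.1 (pg (13 / 10 * L) (by positivity) hN)).2
    have a2 := (abs_le.1 (hab L hL0.le (by linarith) 1)).2
    have a3 := (abs_le.1 (hab (13 / 10 * L) (by positivity) hN 1)).1
    rw [← hQ] at a1 a3
    have b0 : ∑ q ∈ Q with ¬ lg q ≤ L, gg 1 q * lg q ≤ 3 / 10 * L + 2 * C := by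
      push_cast at a0 a1
      linarith
    have b1 := mul_le_mul_of_nonneg_left b0 (show 0 ≤ 23 / 10 * L by positivity)
    have k : 0 ≤ C * L := by positivity
    have h2 : L * (L * ∑ q ∈ Q with ¬ lg q ≤ L, gg 1 q) ≤ L * (69 / 260 * L + 8 * C) := by
      push_cast at a2 a3
      nlinarith
    exact le_of_mul_le_mul_left h2 hL0
  have hT : ∑ q ∈ Q with ¬ lg q ≤ L, gg 1 q * inn q ≤ (∑ q ∈ Q with ¬ lg q ≤ L, gg 1 q) * I := by
    rw [sum_mul]
    refine sum_le_sum fun q hq => mul_le_mul_of_nonneg_left ?_ (gg_nonneg 1 q)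
    obtain ⟨hqQ, hqL⟩ := mem_filter.1 hq
    have hneg : L - lg q < 0 := by linarith [not_le.1 hqL]
    have hi := inner_le (κ := 1) (a := 3 / 8) (L := L) hP (mem_filter.1 hqQ).1
    rw [← hIdef, mom_of_neg hP 0 hneg, mom_of_neg hP 1 hneg, mom_of_neg hP 2 hneg] at hi
    simpa using hi
  have hfin := r1_final hC hD hr (Real.sq_sqrt hL0.le).symm hc hI hS hW
  have hs := hsplit fun q => gg 1 q * inn q
  change 1 ≤ I - ∑ q ∈ Q, gg 1 q * inn q
  linarith

end Pool.Agent.Lib.MP_ce212d_co
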