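import Pool.Agent.Lib.MP_ce212d_co.SvQ

/-!
Positivity of the main term in dimension two.
-/

open Finset

namespace Pool.Agent.Lib.MP_ce212d_co

/-- The bound for one inner sum in dimension two. -/
private theorem svr2_inner {c C' L t I M1 M2 X : ℝ} (hc : 0 ≤ c) (hC' : 0 ≤ C') (hL : 0 ≤ L)
    (ht : 0 ≤ t) (htL : t ≤ 9 / 20 * L) (hI : I ≤ c * L ^ 4 / 2 + C' * c * L ^ 3)
    (h1 : c * (L - t) ^ 3 - C' * c * L ^ 2 ≤ M1)
    (h2 : c * (L - t) ^ 4 / 2 - C' * c * L ^ 3 ≤ M2)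
    (hX : X ≤ I - (2 * t * M1 + M2)) :
    X ≤ c * (3 * L ^ 2 * (t * t) - 133 / 40 * L * (t * t ^ 2)) + 4 * (C' * c * L ^ 3) := by
  have e1 : 2 * t * (c * (L - t) ^ 3 - C' * c * L ^ 2) ≤ 2 * t * M1 :=
    mul_le_mul_of_nonneg_left h1 (by positivity)
  have e2 : t * (C' * c * L ^ 2) ≤ L * (C' * c * L ^ 2) :=
    mul_le_mul_of_nonneg_right (by linarith) (by positivity)
  have e3 : t * (c * t ^ 3) ≤ 9 / 20 * L * (c * t ^ 3) :=
    mul_le_mul_of_nonneg_right htL (by positivity)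
  linarith [e1, e2, e3]

/-- The final numerical inequality in dimension two. -/
private theorem svr2_num {c C C' L s I S1 S2 G J : ℝ} (hC : 1 ≤ C) (hC' : 1 ≤ C')
    (hs : 200 * C * C' ≤ s) (hsL : s * s = L) (hc : 1 ≤ c * L ^ 2)
    (hI : c * L ^ 4 / 2 - C' * c * L ^ 3 ≤ I)
    (h1 : S1 ≤ (9 / 20 * L) ^ 2 + 2 * C * (9 / 20 * L))
    (h2 : 2 * (9 / 20 * L) ^ 3 / 3 - 2 * C * (9 / 20 * L) ^ 2 ≤ S2)
    (hG : G ≤ C * s)
    (hJ : J ≤ c * (3 * L ^ 2 * S1 - 133 / 40 * L * S2) + 4 * (C' * c * L ^ 3) * G) :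
    1 ≤ I - J := by
  have hCC : 1 ≤ C * C' := by nlinarith
  have hs1 : 200 ≤ s := by nlinarith
  have hL : 200 * s ≤ L := by nlinarith
  have hL0 : 0 < L := by linarith
  have hc0 : 0 < c := by
    by_contra h
    have : c * L ^ 2 ≤ 0 := mul_nonpos_of_nonpos_of_nonneg (not_lt.mp h) (by positivity)
    linarith
  have hCs : C ≤ s / 200 := by nlinarith
  have hC's : C' ≤ s / 200 := by nlinarith
  have hCL : C ≤ L / 40000 := by linarith
  have hC'L : C' ≤ L / 40000 := by linarith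
  have hGs : C' * G ≤ L / 200 := by
    have : C' * G ≤ C' * (C * s) := mul_le_mul_of_nonneg_left hG (by linarith)
    have h3 : C * C' * s ≤ s / 200 * s :=
      mul_le_mul_of_nonneg_right (by linarith) (by linarith)
    linarith
  have a1 : 3 * L ^ 2 * S1 ≤ 3 * L ^ 2 * ((9 / 20 * L) ^ 2 + 2 * (L / 40000) * (9 / 20 * L)) := by
    refine mul_le_mul_of_nonneg_left (h1.trans ?_) (by positivity)
    have : C * (9 / 20 * L) ≤ L / 40000 * (9 / 20 * L) :=
      mul_le_mul_of_nonneg_right hCL (by positivity)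
    linarith
  have a2 : 133 / 40 * L * (2 * (9 / 20 * L) ^ 3 / 3 - 2 * (L / 40000) * (9 / 20 * L) ^ 2) ≤
      133 / 40 * L * S2 := by
    refine mul_le_mul_of_nonneg_left (le_trans ?_ h2) (by positivity)
    have : C * (9 / 20 * L) ^ 2 ≤ L / 40000 * (9 / 20 * L) ^ 2 :=
      mul_le_mul_of_nonneg_right hCL (by positivity)
    linarith
  have a3 : 3 * L ^ 2 * S1 - 133 / 40 * L * S2 ≤ 41 / 100 * L ^ 4 := by
    have : 0 ≤ L ^ 4 := by positivity
    linarith
  have a4 : c * (3 * L ^ 2 * S1 - 133 / 40 * L * S2) ≤ c * (41 / 100 * L ^ 4) :=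
    mul_le_mul_of_nonneg_left a3 hc0.le
  have a5 : c * L ^ 3 * (C' * G) ≤ c * L ^ 3 * (L / 200) :=
    mul_le_mul_of_nonneg_left hGs (by positivity)
  have a6 : c * L ^ 3 * C' ≤ c * L ^ 3 * (L / 40000) :=
    mul_le_mul_of_nonneg_left hC'L (by positivity)
  have a7 : 100 ≤ L ^ 2 := by nlinarith
  have a8 : 1 * 100 ≤ c * L ^ 2 * L ^ 2 :=
    mul_le_mul hc a7 (by norm_num) (by positivity)
  linarith

theorem main_two : ∃ L₀ : ℝ, ∀ (N : ℕ) (L : ℝ), L₀ ≤ L → L ≤ lg N →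
    1 ≤ mainT 2 N.primesLE (N.primesLE.filter fun p => lg p ≤ 9 / 20 * L) (yy 0 L) := by
  obtain ⟨C, hC, hPS⟩ := prime_sums (κ := 2) (by norm_num) le_rfl
  obtain ⟨C', hC', hMA⟩ := mom_asymp (κ := 2) (by norm_num) le_rfl C hC
  refine ⟨(200 * C * C') ^ 2, fun N L hL0 hLN => ?_⟩
  obtain ⟨hh1, hg1, hh2, hg2⟩ := hPS N
  have hP : ∀ p ∈ N.primesLE, p.Prime := fun p hp => (Nat.mem_primesLE.mp hp).2
  have hlg : ∀ p ∈ N.primesLE, 0 < lg p := fun p hp =>
    Real.log_pos (by exact_mod_cast (hP p hp).one_lt)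
  have hCC : 1 ≤ C * C' := by nlinarith
  have hLpos : 0 ≤ L := le_trans (by positivity) hL0
  have hs : 200 * C * C' ≤ √L := Real.le_sqrt_of_sq_le hL0
  have hsL : √L * √L = L := Real.mul_self_sqrt hLpos
  have hs1 : 200 ≤ √L := by nlinarith
  have hLs : 200 * √L ≤ L := by nlinarith
  have hC4 : 4 * C ≤ L := by nlinarith
  obtain ⟨c, hc, hm⟩ := hMA N.primesLE (hh 2) lg L (fun p hp => hh_nonneg 2 (hP p hp)) hlg hC4
    (fun u hu huL => hh1 u hu (huL.trans hLN)) hh2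
  have hc0 : 0 ≤ c := by
    by_contra h
    have : c * L ^ 2 ≤ 0 := mul_nonpos_of_nonpos_of_nonneg (not_le.mp h).le (by positivity)
    linarith
  have hI := abs_le.mp (hm L hLpos le_rfl).2.2
  have hdiag : ∑ T ∈ N.primesLE.powerset, yy 0 L T ^ 2 * ∏ p ∈ T, hh 2 p =
      mom N.primesLE (hh 2) lg 2 L := by
    rw [diag_eq]; ring
  have hab := fun j => abs_le.mp (abel_pow N.primesLE (fun p => gg 2 p * lg p) lg
    (fun p hp => mul_nonneg (gg_nonneg 2 p) (hlg p hp).le) (fun p hp => (hlg p hp).le)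
    (κ := ((2 : ℕ) : ℝ)) (C := C) (u := 9 / 20 * L) (by positivity)
    (fun v hv hvL => hg1 v hv (by linarith)) j)
  have hG := hg2 (9 / 20 * L) (by linarith)
  have hG' : ∑ p ∈ N.primesLE with lg p ≤ 9 / 20 * L, gg 2 p ≤ C * √L :=
    hG.trans (mul_le_mul_of_nonneg_left (Real.sqrt_le_sqrt (by linarith)) (by linarith))
  unfold mainT
  refine svr2_num (c := c)
    (S1 := ∑ p ∈ N.primesLE with lg p ≤ 9 / 20 * L, gg 2 p * lg p * lg p ^ 1)
    (S2 := ∑ p ∈ N.primesLE with lg p ≤ 9 / 20 * L, gg 2 p * lg p * lg p ^ 2)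
    hC hC' hs hsL hc ?_ ?_ ?_ hG' ?_
  · rw [hdiag]
    have := hI.1
    norm_num at this ⊢
    linarith
  · have := (hab 1).2
    norm_num at this ⊢
    linarith
  · have := (hab 2).1
    norm_num at this ⊢
    linarith
  · rw [mul_sum, mul_sum, mul_sum, ← sum_sub_distrib, mul_sum, ← sum_add_distrib]
    refine sum_le_sum fun q hq => ?_
    obtain ⟨hqP, hqL⟩ := mem_filter.mp hq
    have ht := (hlg q hqP).le
    have hm' := hm (L - lg q) (by linarith) (by linarith)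
    have hm1 := (abs_le.mp hm'.2.1).1
    have hm2 := (abs_le.mp hm'.2.2).1
    have hin := inner_le (κ := 2) (a := 0) (L := L) hP hqP
    rw [hdiag] at hin
    have key := svr2_inner (c := c) (C' := C') (L := L) (t := lg q)
      (I := mom N.primesLE (hh 2) lg 2 L) (M1 := mom N.primesLE (hh 2) lg 1 (L - lg q))
      (M2 := mom N.primesLE (hh 2) lg 2 (L - lg q)) hc0 (by linarith) hLpos ht hqL
      (by have := hI.2; norm_num at this ⊢; linarith)
      (by norm_num at hm1 ⊢; linarith) (by norm_num at hm2 ⊢; linarith)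
      (hin.trans (le_of_eq (by ring)))
    have := mul_le_mul_of_nonneg_left key (gg_nonneg 2 q)
    refine this.trans (le_of_eq (by ring))

end Pool.Agent.Lib.MP_ce212d_co
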