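import Pool.Agent.Lib.MP_ce212d_co.SvA
import Pool.Agent.Lib.MP_ce212d_co.SvR1
import Pool.Agent.Lib.MP_ce212d_co.SvR2

/-!
The lower bound sieve in dimensions one and two.
-/

open Finset

namespace Pool.Agent.Lib.MP_ce212d_co

private theorem svf_pad {κ z : ℕ} (Ω : ℕ → Finset ℕ)
    (hΩ : ∀ p, p.Prime → p ≤ z → Ω p ⊆ range p ∧ (Ω p).card ≤ min κ (p - 1)) :
    ∃ Ω' : ℕ → Finset ℕ, ∀ p, (Ω' p ⊆ range p ∧ (Ω' p).card = rho κ p) ∧
      (p.Prime → p ≤ z → Ω p ⊆ Ω' p) := by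
  have key : ∀ p : ℕ, ∃ u : Finset ℕ, (u ⊆ range p ∧ u.card = rho κ p) ∧
      (p.Prime → p ≤ z → Ω p ⊆ u) := by
    intro p
    have hr : rho κ p ≤ p := (min_le_right _ _).trans (Nat.sub_le _ _)
    by_cases hp : p.Prime ∧ p ≤ z
    · obtain ⟨h1, h2⟩ := hΩ p hp.1 hp.2
      obtain ⟨u, hu1, hu2, hu3⟩ :=
        exists_subsuperset_card_eq (n := rho κ p) h1 h2 (by rwa [card_range])
      exact ⟨u, ⟨hu2, hu3⟩, fun _ _ => hu1⟩
    · exact ⟨range (rho κ p), ⟨range_subset_range.2 hr, card_range _⟩,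
        fun h1 h2 => absurd ⟨h1, h2⟩ hp⟩
  choose f hf using key
  exact ⟨f, hf⟩

private theorem svf_grow (K : ℝ) (hK : 0 ≤ K) {ε : ℝ} (hε : 0 < ε) :
    ∃ L₁ : ℝ, ∀ L, L₁ ≤ L → K * L ^ 18 < Real.exp (ε * L) := by
  have h := (isLittleO_pow_exp_pos_mul_atTop 18 hε).bound (c := 1 / (K + 1)) (by positivity)
  obtain ⟨L₁, hL₁⟩ := Filter.eventually_atTop.1 h
  refine ⟨L₁, fun L hL => ?_⟩
  have h1 := hL₁ L hL
  rw [Real.norm_eq_abs, Real.norm_eq_abs, abs_of_pos (Real.exp_pos _)] at h1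
  have h2 : L ^ 18 ≤ 1 / (K + 1) * Real.exp (ε * L) := (le_abs_self _).trans h1
  have h3 : K * (1 / (K + 1)) < 1 := by
    rw [mul_one_div, div_lt_one (by positivity)]
    linarith
  calc K * L ^ 18 ≤ K * (1 / (K + 1) * Real.exp (ε * L)) := by gcongr
    _ = K * (1 / (K + 1)) * Real.exp (ε * L) := by ring
    _ < 1 * Real.exp (ε * L) := by gcongr
    _ = _ := one_mul _

theorem sieve_of_main {κ : ℕ} (hκ : κ ≤ 2) {a θ θ' β : ℝ} (ha : 0 ≤ a) (ha1 : a ≤ 1) (hθ : 0 < θ)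
    (hθ' : θ ≤ θ') (hβ : 1 + 2 / θ < β)
    (h : ∃ L₀ : ℝ, ∀ (N : ℕ) (L : ℝ), L₀ ≤ L → θ' * L ≤ lg N →
      1 ≤ mainT κ N.primesLE (N.primesLE.filter fun p => lg p ≤ θ * L) (yy a L)) :
    SieveOK κ β := by
  obtain ⟨L₀, hL₀⟩ := h
  obtain ⟨C, hC⟩ := weight_le
  have hθ0 : 0 < θ' := hθ.trans_le hθ'
  have hε : 0 < β * θ - θ - 2 := by
    have h1 : (1 + 2 / θ) * θ < β * θ := by gcongr
    have h2 : (1 + 2 / θ) * θ = θ + 2 := by field_simp
    linarith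
  obtain ⟨L₁, hL₁⟩ := svf_grow (3 * C ^ 2 * (2 + θ') ^ 16) (by positivity) hε
  refine ⟨⌈Real.exp (θ * max (max L₀ L₁) 1)⌉₊, fun z hz Ω hΩ X H hH => ?_⟩
  have hz1 : Real.exp (θ * max (max L₀ L₁) 1) ≤ z := Nat.ceil_le.1 hz
  have hz0 : (0 : ℝ) < z := (Real.exp_pos _).trans_le hz1
  obtain ⟨L, hL⟩ : ∃ L : ℝ, θ * L = Real.log z := ⟨Real.log z / θ, by field_simp⟩
  have hLM : max (max L₀ L₁) 1 ≤ L := by
    have h1 := (Real.le_log_iff_exp_le hz0).2 hz1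
    rw [← hL] at h1
    exact le_of_mul_le_mul_left h1 hθ
  have hL0 : L₀ ≤ L := ((le_max_left _ _).trans (le_max_left _ _)).trans hLM
  have hL1 : L₁ ≤ L := ((le_max_right _ _).trans (le_max_left _ _)).trans hLM
  have hL2 : 1 ≤ L := (le_max_right _ _).trans hLM
  have hzE : (z : ℝ) = Real.exp (θ * L) := by rw [hL, Real.exp_log hz0]
  have hz2 : (1 : ℝ) < z := by
    rw [hzE]
    exact Real.one_lt_exp_iff.2 (by positivity)
  obtain ⟨N, hN⟩ : ∃ N : ℕ, N = ⌈Real.exp (θ' * L)⌉₊ := ⟨_, rfl⟩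
  have hN1 : Real.exp (θ' * L) ≤ N := hN ▸ Nat.le_ceil _
  have hzN : z ≤ N := by
    have : (z : ℝ) ≤ N := by
      rw [hzE]
      exact (Real.exp_le_exp.2 (by gcongr)).trans hN1
    exact_mod_cast this
  have hN2 : 2 ≤ N := by
    have : 1 < z := by exact_mod_cast hz2
    omega
  have hN0 : (0 : ℝ) < N := (Real.exp_pos _).trans_le hN1
  have hlN : θ' * L ≤ lg N := (Real.le_log_iff_exp_le hN0).2 hN1
  have hlN' : lg N ≤ θ' * L + 1 := by
    have h1 : (N : ℝ) < Real.exp (θ' * L) + 1 := hN ▸ Nat.ceil_lt_add_one (Real.exp_pos _).le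
    have h2 : 1 ≤ Real.exp (θ' * L) := Real.one_le_exp (by positivity)
    have h3 : (1 : ℝ) + 1 ≤ Real.exp 1 := Real.add_one_le_exp 1
    refine (Real.log_le_iff_le_exp hN0).2 ?_
    rw [Real.exp_add]
    nlinarith
  have hlN0 : 0 ≤ lg N := le_trans (by positivity) hlN
  obtain ⟨Ω', hΩ'⟩ := svf_pad Ω hΩ
  have hQ : ∀ p, p ∈ N.primesLE.filter (fun p => lg p ≤ θ * L) ↔ p.Prime ∧ p ≤ z := by
    intro p
    rw [mem_filter, Nat.mem_primesLE, hL]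
    constructor
    · rintro ⟨⟨-, hp⟩, h1⟩
      have hp0 : (0 : ℝ) < p := by exact_mod_cast hp.pos
      exact ⟨hp, by exact_mod_cast (Real.log_le_log_iff hp0 hz0).1 h1⟩
    · rintro ⟨hp, h1⟩
      have hp0 : (0 : ℝ) < p := by exact_mod_cast hp.pos
      exact ⟨⟨h1.trans hzN, hp⟩, Real.log_le_log hp0 (by exact_mod_cast h1)⟩
  have hcard : ((N.primesLE.filter (fun p => lg p ≤ θ * L)).card : ℝ) ≤ z := by
    have h1 : N.primesLE.filter (fun p => lg p ≤ θ * L) ⊆ Icc 1 z := fun p hp =>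
      mem_Icc.2 ⟨((hQ p).1 hp).1.pos, ((hQ p).1 hp).2⟩
    have h2 := card_le_card h1
    rw [Nat.card_Icc, Nat.add_sub_cancel] at h2
    exact_mod_cast h2
  have hm := hL₀ N L hL0 hlN
  have hw := hC N a L hN2 ha ha1 (by linarith)
  have hw0 : 0 ≤ ∑ T ∈ N.primesLE.powerset, |yy a L T| * 8 ^ T.card :=
    sum_nonneg fun _ _ => by positivity
  have hw2 : (∑ T ∈ N.primesLE.powerset, |yy a L T| * 8 ^ T.card) ^ 2 ≤
      C ^ 2 * L ^ 2 * Real.exp L ^ 2 * ((2 + θ') * L) ^ 16 := by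
    have h1 : 1 + lg N ≤ (2 + θ') * L := by nlinarith
    calc _ ≤ (C * L * Real.exp L * (1 + lg N) ^ 8) ^ 2 := by gcongr
      _ = C ^ 2 * L ^ 2 * Real.exp L ^ 2 * (1 + lg N) ^ 16 := by ring
      _ ≤ _ := by gcongr
  have hzb : (z : ℝ) ^ β = Real.exp ((β * θ - θ - 2) * L) * (z * Real.exp L ^ 2) := by
    rw [Real.rpow_def_of_pos hz0, ← hL, hzE, sq, ← Real.exp_add, ← Real.exp_add, ← Real.exp_add]
    congr 1
    ring
  obtain ⟨n, hn1, hn2, hn3⟩ := criterion hκ N.primesLE _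
    (fun p hp => (Nat.mem_primesLE.1 hp).2) (filter_subset _ _) Ω' (fun p _ => (hΩ' p).1)
    (yy a L) X H (by
      calc _ ≤ (3 * z) * (C ^ 2 * L ^ 2 * Real.exp L ^ 2 * ((2 + θ') * L) ^ 16) := by
            gcongr
            linarith
        _ = (3 * C ^ 2 * (2 + θ') ^ 16 * L ^ 18) * (z * Real.exp L ^ 2) := by ring
        _ < Real.exp ((β * θ - θ - 2) * L) * (z * Real.exp L ^ 2) := by
            gcongr
            exact hL₁ L hL1
        _ ≤ H * 1 := by rw [← hzb, mul_one]; exact hH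
        _ ≤ _ := by gcongr)
  exact ⟨n, hn1, hn2, fun p hp hpz hmem =>
    hn3 p ((hQ p).2 ⟨hp, hpz⟩) ((hΩ' p).2 hp hpz hmem)⟩

theorem sieve_one : SieveOK 1 (51 / 20) :=
  sieve_of_main (by norm_num) (by norm_num) (by norm_num) (by norm_num) le_rfl (by norm_num)
    main_one

theorem sieve_two : SieveOK 2 (11 / 2) :=
  sieve_of_main (θ := 9 / 20) (θ' := 1) (by norm_num) le_rfl (by norm_num) (by norm_num)
    (by norm_num) (by norm_num) (by simpa using main_two)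

end Pool.Agent.Lib.MP_ce212d_co
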