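import Pool.Agent.Lib.MP_ce212d_co.Gad

/-!
Adding one symbol.
-/

open Finset

namespace Pool.Agent.Lib.MP_ce212d_co

section AddAux

variable {K F : Type} [Field K] [Fintype K] [Field F] [Algebra K F] {k : ℕ}

theorem add_line (d : K) (hd : d ≠ 0) (s w : F) (f : F → ℤ) :
    ∑ e : K, f ((s + w * algebraMap K F e) * algebraMap K F d - w) =
      ∑ e : K, f ((s + w * algebraMap K F e) * algebraMap K F d) := by
  refine Fintype.sum_equiv (Equiv.subRight d⁻¹) _ _ fun e => ?_
  have h : algebraMap K F d * (algebraMap K F d)⁻¹ = 1 :=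
    mul_inv_cancel₀ (by simpa using hd)
  rw [Equiv.subRight_apply, map_sub, map_inv₀]
  congr 1
  linear_combination w * h

theorem add_fam {B : Type} [Fintype B] {c : Fin k → K} (hc : Function.Injective c) (i : Fin k)
    (s w : B → F) :
    Fam (fun (t : F) m => t * algebraMap K F (c m)) i
      (fun j : B × K => s j.1 + w j.1 * algebraMap K F j.2) (fun j => w j.1) := by
  intro m hm f
  rw [Fintype.sum_prod_type, Fintype.sum_prod_type]
  refine sum_congr rfl fun b _ => ?_
  have h := add_line (c m - c i) (sub_ne_zero.2 fun e => hm (hc e)) (s b) (w b) f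
  simp only [map_sub, mul_sub] at h
  exact h

theorem add_choose [Fintype F] [DecidableEq F] (h2 : (2 : F) = 0)
    (hF : Fintype.card F = Fintype.card K ^ 4) (hk : 16 * k ≤ Fintype.card K)
    (h16 : 16 ≤ Fintype.card K) (U : Finset F)
    (hU : U.card ≤ k + k ^ 2 * (3 * Fintype.card K + 2)) (a b u ψ δ : F) (ha : a ∉ U)
    (hb : b ∉ U) :
    ∃ σ : F, (∀ x y : K, σ ≠ algebraMap K F x + algebraMap K F y * a) ∧ ∀ e : K,
      σ + δ * (σ + a) * algebraMap K F e ∉ U ∧
      σ + u + δ * (σ + u + b) * algebraMap K F e ∉ U ∧ σ + ψ * algebraMap K F e ∉ U := by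
  set A := algebraMap K F
  let B₀ : Finset F := (univ : Finset (K × K)).image fun x => A x.1 + A x.2 * a
  let B₁ : Finset F := (U ×ˢ (univ : Finset K)).image
    fun x => (x.1 - δ * a * A x.2) / (1 + δ * A x.2)
  let B₂ : Finset F := (U ×ˢ (univ : Finset K)).image
    fun x => (x.1 - δ * b * A x.2) / (1 + δ * A x.2) - u
  let B₃ : Finset F := (U ×ˢ (univ : Finset K)).image fun x => x.1 - ψ * A x.2
  have c0 : B₀.card ≤ Fintype.card K * Fintype.card K :=
    card_image_le.trans (by rw [card_univ, Fintype.card_prod])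
  have cU : (U ×ˢ (univ : Finset K)).card = U.card * Fintype.card K := by
    rw [card_product, card_univ]
  have c1 : B₁.card ≤ U.card * Fintype.card K := card_image_le.trans cU.le
  have c2 : B₂.card ≤ U.card * Fintype.card K := card_image_le.trans cU.le
  have c3 : B₃.card ≤ U.card * Fintype.card K := card_image_le.trans cU.le
  have hlt : (B₀ ∪ B₁ ∪ B₂ ∪ B₃).card < (univ : Finset F).card := by
    have d1 := card_union_le (B₀ ∪ B₁ ∪ B₂) B₃
    have d2 := card_union_le (B₀ ∪ B₁) B₂
    have d3 := card_union_le B₀ B₁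
    rw [card_univ, hF]
    generalize Fintype.card K = p at *
    have e1 : 256 * k ^ 2 ≤ p ^ 2 := by nlinarith
    have e2 : 256 * U.card ≤ 16 * p + p ^ 2 * (3 * p + 2) := by
      have := Nat.mul_le_mul_right (3 * p + 2) e1
      nlinarith
    have e3 := Nat.mul_le_mul_right p e2
    have e4 : 16 * p ^ 3 ≤ p ^ 4 := by
      rw [pow_succ' p 3]
      exact Nat.mul_le_mul_right _ h16
    have e5 : 16 * p ^ 2 ≤ p ^ 3 := by
      rw [pow_succ' p 2]
      exact Nat.mul_le_mul_right _ h16
    have e6 : 0 < p ^ 2 := by positivity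
    nlinarith
  obtain ⟨σ, -, hσ⟩ := exists_mem_notMem_of_card_lt_card hlt
  simp only [mem_union, not_or] at hσ
  obtain ⟨⟨⟨h0, h1⟩, h2'⟩, h3⟩ := hσ
  refine ⟨σ, fun x y e => h0 (mem_image.2 ⟨(x, y), mem_univ _, e.symm⟩), fun e => ⟨?_, ?_, ?_⟩⟩
  · intro hz
    by_cases h : 1 + δ * A e = 0
    · refine ha ?_
      have : σ + δ * (σ + a) * A e = a := by linear_combination (σ + a) * h - a * h2
      rwa [this] at hz
    · refine h1 (mem_image.2 ⟨(_, e), mem_product.2 ⟨hz, mem_univ _⟩, ?_⟩)
      rw [div_eq_iff h]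
      ring
  · intro hz
    by_cases h : 1 + δ * A e = 0
    · refine hb ?_
      have : σ + u + δ * (σ + u + b) * A e = b := by linear_combination (σ + u + b) * h - b * h2
      rwa [this] at hz
    · refine h2' (mem_image.2 ⟨(_, e), mem_product.2 ⟨hz, mem_univ _⟩, ?_⟩)
      rw [sub_eq_iff_eq_add, div_eq_iff h]
      ring
  · intro hz
    refine h3 (mem_image.2 ⟨(_, e), mem_product.2 ⟨hz, mem_univ _⟩, ?_⟩)
    ring

theorem add_gad [Fintype F] [DecidableEq F] (h2 : (2 : F) = 0) {c : Fin k → K}
    (hc : Function.Injective c) {i l : Fin k} (hil : i < l) (a σ δ : F)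
    (hδ : δ = algebraMap K F (c l - c i))
    (hind : ∀ x y w : K, algebraMap K F x + algebraMap K F y * a + algebraMap K F w * σ = 0 →
      x = 0 ∧ y = 0 ∧ w = 0) :
    ∃ N : Finset F, (∀ t ∈ N, ∃ e : K, t = σ + δ * (σ + a) * algebraMap K F e ∨
        t = σ + (algebraMap K F (c i) + a) +
          δ * (σ + (algebraMap K F (c i) + a) + (a + δ)) * algebraMap K F e ∨
        t = σ + δ * (algebraMap K F (c i) + a) * algebraMap K F e) ∧
      N.card ≤ 3 * Fintype.card K ∧
      Gad (fun (t : F) m => t * algebraMap K F (c m)) i l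
        (fun f => f (algebraMap K F (c i) * δ) + f (algebraMap K F (c l) * δ) -
          f (δ * a) - f (δ * (a + δ))) N := by
  set A := algebraMap K F with hA
  have hd : c l - c i ≠ 0 := sub_ne_zero.2 fun e => hil.ne' (hc e)
  have hδ0 : δ ≠ 0 := hδ ▸ (map_ne_zero A).2 hd
  have hδ' : δ = A (c l) - A (c i) := by rw [hδ, map_sub]
  let s : Bool → F := fun b => if b then σ + (A (c i) + a) else σ
  let w : Bool → F := fun b =>
    if b then δ * (σ + (A (c i) + a) + (a + δ)) else δ * (σ + a)
  let ψ : F := δ * (A (c i) + a)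
  have hw : ∀ b, w b ≠ 0 := by
    intro b
    cases b
    · refine mul_ne_zero hδ0 fun e => one_ne_zero (hind 0 1 1 ?_).2.1
      rw [map_zero, map_one]
      linear_combination e
    · refine mul_ne_zero hδ0 fun e => one_ne_zero (hind (c l) 0 1 ?_).2.2
      rw [map_zero, map_one]
      linear_combination e - hδ' - a * h2
  have hψ : ψ ≠ 0 := by
    refine mul_ne_zero hδ0 fun e => one_ne_zero (hind (c i) 1 0 ?_).2.1
    rw [map_zero, map_one]
    linear_combination e
  have cross : ∀ e e' : K, s false + w false * A e ≠ s true + w true * A e' := by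
    intro e e' h
    change σ + δ * (σ + a) * A e =
      σ + (A (c i) + a) + δ * (σ + (A (c i) + a) + (a + δ)) * A e' at h
    obtain ⟨x1, x2, x3⟩ := hind (-(c i + (c l - c i) * c l * e')) ((c l - c i) * e - 1)
      ((c l - c i) * (e - e')) (by
        rw [map_neg, map_add, map_mul, map_mul, map_sub A (_ * e), map_mul, map_mul, ← hδ, map_one,
          map_sub A e]
        linear_combination h + δ * A e' * hδ' + δ * A e' * a * h2)
    have x4 : e = e' := sub_eq_zero.1 ((mul_eq_zero.1 x3).resolve_left hd)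
    subst x4
    have x5 : c i + c l = 0 := by linear_combination (-1 : K) * x1 - c l * x2
    refine hδ0 ?_
    have x6 := congrArg A x5
    rw [map_add, map_zero] at x6
    linear_combination hδ' + x6 - A (c i) * h2
  have hτ : Function.Injective fun j : Bool × K => s j.1 + w j.1 * A j.2 := by
    rintro ⟨b, e⟩ ⟨b', e'⟩ h
    have hb : b = b' := by
      cases b <;> cases b'
      · rfl
      · exact absurd h (cross _ _)
      · exact absurd h.symm (cross _ _)
      · rfl
    subst hb
    exact Prod.ext rfl (A.injective (mul_left_cancel₀ (hw b) (add_left_cancel h)))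
  have hτ₀ : Function.Injective fun j : Unit × K => σ + ψ * A j.2 := by
    rintro ⟨b, e⟩ ⟨b', e'⟩ h
    exact Prod.ext rfl (A.injective (mul_left_cancel₀ hψ (add_left_cancel h)))
  have hinv : δ * A (c l - c i)⁻¹ = 1 := by
    rw [map_inv₀, ← hδ, mul_inv_cancel₀ hδ0]
  have G := gad_of_fam (r := fun (t : F) m => t * A (c m)) hil hτ hτ₀ (add_fam hc i s w)
    (add_fam hc l (fun _ : Unit => σ) fun _ => ψ) (j₁ := (false, 0)) (j₂ := (true, 0))
    (n₁ := ((), 0)) (n₂ := ((), (c l - c i)⁻¹)) (A' := δ * a) (B' := δ * (a + δ)) (ψ := ψ)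
    (by simp [s]) ?_ (by simp) ?_ rfl ?_ ?_ ?_ ?_
  · have q1 : δ * a + ψ = A (c i) * δ := by
      change δ * a + δ * (A (c i) + a) = _
      linear_combination δ * a * h2
    have q2 : δ * (a + δ) - ψ = A (c l) * δ := by
      change δ * (a + δ) - δ * (A (c i) + a) = _
      linear_combination δ * hδ' - δ * A (c i) * h2
    rw [q1, q2] at G
    refine ⟨_, fun t ht => ?_, ?_, G⟩
    · rcases mem_union.1 ht with h | h
      · obtain ⟨⟨b, e⟩, -, rfl⟩ := mem_image.1 h
        cases b
        · exact ⟨e, Or.inl rfl⟩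
        · exact ⟨e, Or.inr (Or.inl rfl)⟩
      · obtain ⟨⟨b, e⟩, -, rfl⟩ := mem_image.1 h
        exact ⟨e, Or.inr (Or.inr rfl)⟩
    · refine (card_union_le _ _).trans ((add_le_add card_image_le card_image_le).trans ?_)
      simp only [card_univ, Fintype.card_prod, Fintype.card_bool, Fintype.card_unit]
      omega
  · change σ + (A (c i) + a) + w true * A 0 = σ + δ * (A (c i) + a) * A (c l - c i)⁻¹
    rw [map_zero]
    linear_combination (-(A (c i) + a)) * hinv
  · rintro ⟨b, e⟩ ⟨u, n⟩ h
    have he : e = 0 := by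
      refine (mul_eq_zero.1 ?_).resolve_left hd
      cases b
      · change σ + δ * (σ + a) * A e = σ + δ * (A (c i) + a) * A n at h
        refine (hind (-((c l - c i) * c i * n)) ((c l - c i) * (e - n)) ((c l - c i) * e) ?_).2.2
        rw [map_neg, map_mul, map_mul, map_mul, map_mul, ← hδ, map_sub]
        linear_combination h
      · change σ + (A (c i) + a) + δ * (σ + (A (c i) + a) + (a + δ)) * A e =
          σ + δ * (A (c i) + a) * A n at h
        refine (hind (c i + (c l - c i) * (c l * e - c i * n)) (1 - (c l - c i) * n)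
          ((c l - c i) * e) ?_).2.2
        rw [map_add, map_mul, map_sub A 1, map_mul, map_mul, ← hδ, map_one, map_sub, map_mul,
          map_mul]
        linear_combination h - δ * A e * hδ' - δ * A e * a * h2
    subst he
    cases b
    · exact Or.inl rfl
    · exact Or.inr rfl
  · linear_combination ψ * h2
  · change (σ + (A (c i) + a) + w true * A 0) * A (c l) -
        (σ + (A (c i) + a) + w true * A 0) * A (c i) =
      (σ + w false * A 0) * A (c l) - (σ + w false * A 0) * A (c i) + δ * (A (c i) + a)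
    rw [map_zero]
    linear_combination (-(A (c i) + a)) * hδ'
  · change (σ + w false * A 0) * A (c l) - (σ + w false * A 0) * A (c i) - δ * (σ + a) = δ * a
    rw [map_zero]
    linear_combination (-σ) * hδ' - δ * a * h2
  · change (σ + (A (c i) + a) + w true * A 0) * A (c l) -
      (σ + (A (c i) + a) + w true * A 0) * A (c i) - δ * (σ + (A (c i) + a) + (a + δ)) =
        δ * (a + δ)
    rw [map_zero]
    linear_combination (-(σ + (A (c i) + a))) * hδ' - δ * (a + δ) * h2

/-- The first reserved point of a pair of columns. -/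
def addPt (κ : F) (x y : K) : F :=
  algebraMap K F (y - x) * κ + algebraMap K F (x ^ 2 + x * y + y ^ 2) * κ ^ 2

omit [Fintype K] in
theorem add_pt {κ : F} (hκ : Gen K κ) {x y x' y' u : K}
    (h : addPt κ x y = addPt κ x' y' + algebraMap K F u) :
    y - x = y' - x' ∧ x ^ 2 + x * y + y ^ 2 = x' ^ 2 + x' * y' + y' ^ 2 := by
  obtain ⟨-, h1, h2⟩ := hκ (-u) ((y - x) - (y' - x'))
    ((x ^ 2 + x * y + y ^ 2) - (x' ^ 2 + x' * y' + y' ^ 2)) (by
      unfold addPt at h
      rw [map_neg, map_sub _ (y - x), map_sub _ (x ^ 2 + x * y + y ^ 2)]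
      linear_combination h)
  exact ⟨sub_eq_zero.1 h1, sub_eq_zero.1 h2⟩

omit [Fintype K] in
theorem add_mem [DecidableEq F] {κ t : F} {x y : K}
    (h : t ∈ ({addPt κ x y, addPt κ x y + algebraMap K F (y - x)} : Finset F)) :
    ∃ u : K, t = addPt κ x y + algebraMap K F u := by
  rcases mem_insert.1 h with h | h
  · exact ⟨0, by rw [h, map_zero, add_zero]⟩
  · exact ⟨_, mem_singleton.1 h⟩

end AddAux

theorem good_add {K F : Type} [Field K] [Fintype K] [Field F] [Fintype F] [Algebra K F] [CharP F 2]
    (hF : Fintype.card F = Fintype.card K ^ 4) {κ : F} (hκ : Gen K κ) {k : ℕ}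
    (hk : 16 * k ≤ Fintype.card K) (h16 : 16 ≤ Fintype.card K) : Good k (Fintype.card F + 1) := by
  classical
  have h2 : (2 : F) = 0 := by simpa using CharP.cast_eq_zero F 2
  obtain ⟨c⟩ : Nonempty (Fin k ↪ K) :=
    Function.Embedding.nonempty_of_card_le (by rw [Fintype.card_fin]; omega)
  have hc : Function.Injective c := c.injective
  set A := algebraMap K F with hA
  have hK : (2 : K) = 0 := A.injective (by rw [map_zero, ← h2]; exact map_ofNat A 2)
  have hinj : Function.Injective fun m => A (c m) := A.injective.comp hc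
  have hd : ∀ i l : Fin k, i < l → c l - c i ≠ 0 :=
    fun i l h => sub_ne_zero.2 fun e => h.ne' (hc e)
  have main := absorb (fun (t : F) m => t * A (c m))
    (fun i l f => f (A (c i) * A (c l - c i)) + f (A (c l) * A (c l - c i)) -
      f (A (c l - c i) * addPt κ (c i) (c l)) -
      f (A (c l - c i) * (addPt κ (c i) (c l) + A (c l - c i))))
    (univ.image fun m => A (c m))
    (fun i l => {addPt κ (c i) (c l), addPt κ (c i) (c l) + A (c l - c i)})
    (3 * Fintype.card K) (fun i l _ => card_le_two) ?_ ?_ ?_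
  · obtain ⟨r', hr⟩ := main
    let y : Fin k → F := fun m => κ * A (c m) ^ 2 + κ ^ 2 * A (c m) ^ 3
    refine good_of_qdm (J := ((univ.image fun m => A (c m))ᶜ : Finset F) ⊕ Bool)
      (Sum.elim (fun t => r' t) fun b m => if b then y m + A (c m) ^ 2 else y m)
      (fun m n => A (c m) * A (c n)) fun a b hab f => ?_
    have hδ : A (c b - c a) ≠ 0 := (map_ne_zero A).2 (hd a b hab)
    have t1 : ∑ t : F, f (t * A (c b - c a)) = ∑ x, f x :=
      Fintype.sum_equiv (Equiv.mulRight₀ _ hδ) _ _ fun _ => rfl
    have t2 : ∑ t ∈ univ.image fun m => A (c m), f (t * A (c b - c a)) =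
        ∑ m, f (A (c m) * A (c b - c a)) := sum_image fun _ _ _ _ e => hinj e
    have t3 := sum_add_sum_compl (univ.image fun m => A (c m)) fun t => f (t * A (c b - c a))
    have t4 := add_sum_erase univ (fun m => f (A (c m) * A (c b - c a))) (mem_univ a)
    have t5 := add_sum_erase (univ.erase a) (fun m => f (A (c m) * A (c b - c a)))
      (mem_erase.2 ⟨hab.ne', mem_univ b⟩)
    have t6 := hr a b hab f
    have y1 : y b - y a = A (c b - c a) * addPt κ (c a) (c b) := by
      unfold addPt
      simp only [y, ← hA, map_sub, map_add, map_mul, map_pow]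
      linear_combination κ * A (c a) * (A (c b) - A (c a)) * h2
    have y2 : y b + A (c b) ^ 2 - (y a + A (c a) ^ 2) =
        A (c b - c a) * (addPt κ (c a) (c b) + A (c b - c a)) := by
      rw [mul_add, ← y1, map_sub]
      linear_combination A (c a) * (A (c b) - A (c a)) * h2
    rw [Fintype.sum_sum_type, Fintype.sum_bool]
    simp only [Sum.elim_inl, Sum.elim_inr, if_true, Bool.false_eq_true, if_false]
    rw [sum_coe_sort _ fun t => f (r' t b - r' t a), y1, y2]
    simp only [← mul_sub, ← map_sub] at t6 ⊢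
    linarith
  · intro i l hil
    refine disjoint_left.2 fun t ht ht' => ?_
    obtain ⟨m, -, rfl⟩ := mem_image.1 ht
    obtain ⟨u, hu⟩ := add_mem ht'
    have := (add_pt hκ (x := c i) (y := c l) (x' := 0) (y' := 0) (u := c m - u) (by
      rw [map_sub, hu]
      simp [addPt])).1
    exact hd i l hil (by simpa using this)
  · intro i l i' l' hil hil' hne
    refine disjoint_left.2 fun t ht ht' => hne ?_
    obtain ⟨u, hu⟩ := add_mem ht
    obtain ⟨u', hu'⟩ := add_mem ht'
    obtain ⟨e1, e2⟩ := add_pt hκ (x := c i) (y := c l) (x' := c i') (y' := c l') (u := u' - u) (by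
      rw [map_sub]
      linear_combination hu' - hu)
    have e3 : c i + c l = c i' + c l' := by linear_combination e1 + (c i - c i') * hK
    have e4 : (c i - c i') * (c i - c l') = 0 := by
      linear_combination (c i - (c i + c l + c i' + c l')) * e3 + e2
    rcases mul_eq_zero.1 e4 with e | e
    · have e5 : i = i' := hc (sub_eq_zero.1 e)
      have e6 : l = l' := hc (by linear_combination e3 - e)
      rw [e5, e6]
    · have e5 : i = l' := hc (sub_eq_zero.1 e)
      have e6 : l = i' := hc (by linear_combination e3 - e)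
      omega
  · intro i l hil U hU hcard hdis
    have hU' : U.card ≤ k + k ^ 2 * (3 * Fintype.card K + 2) := by
      refine hcard.trans (Nat.add_le_add_right (card_image_le.trans ?_) _)
      rw [card_univ, Fintype.card_fin]
    obtain ⟨σ, h1, h3⟩ := add_choose h2 hF hk h16 U hU' (addPt κ (c i) (c l))
      (addPt κ (c i) (c l) + A (c l - c i)) (A (c i) + addPt κ (c i) (c l))
      (A (c l - c i) * (A (c i) + addPt κ (c i) (c l))) (A (c l - c i))
      (fun h => disjoint_left.1 hdis h (mem_insert_self _ _))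
      (fun h => disjoint_left.1 hdis h (mem_insert_of_mem (mem_singleton_self _)))
    obtain ⟨N, n1, n2, n3⟩ := add_gad h2 hc hil (addPt κ (c i) (c l)) σ _ rfl fun x y w h => by
      have hw : w = 0 := by
        by_contra hw
        have hw' : A w * (A w)⁻¹ = 1 := mul_inv_cancel₀ (by simpa using hw)
        refine h1 (-x * w⁻¹) (-y * w⁻¹) ?_
        rw [map_mul, map_mul, map_neg, map_neg, map_inv₀]
        linear_combination (A w)⁻¹ * h - σ * hw'
      subst hw
      obtain ⟨g1, g2, -⟩ := hκ x (y * (c l - c i)) (y * (c i ^ 2 + c i * c l + c l ^ 2)) (by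
        unfold addPt at h
        rw [map_zero] at h
        rw [map_mul, map_mul]
        linear_combination h)
      exact ⟨g1, (mul_eq_zero.1 g2).resolve_right (hd i l hil), rfl⟩
    refine ⟨N, disjoint_left.2 fun t ht htU => ?_, n2, n3⟩
    obtain ⟨e, rfl | rfl | rfl⟩ := n1 t ht
    · exact (h3 e).1 htU
    · exact (h3 e).2.1 htU
    · exact (h3 e).2.2 htU

end Pool.Agent.Lib.MP_ce212d_co
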