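import Pool.Agent.Lib.MP_ce212d_co.Defs

/-!
Elementary constructions of orthogonal arrays.
-/

open Finset

namespace Pool.Agent.Lib.MP_ce212d_co

private theorem bas_comp {ρ ι ι' α α' : Type} {x : ρ → ι → α} (h : IsOA x) (f : ι' ↪ ι)
    (e : α ≃ α') : IsOA fun r i => e (x r (f i)) := by
  intro i l hil
  have h1 := h (f i) (f l) (fun hh => hil (f.injective hh))
  exact (Equiv.prodCongr e e).bijective.comp h1

theorem good_of_isOA {ρ ι α : Type} [Fintype ι] [Fintype α] {x : ρ → ι → α} (h : IsOA x) {k n : ℕ}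
    (hk : k ≤ Fintype.card ι) (hn : Fintype.card α = n) : Good k n := by
  obtain ⟨f⟩ : Nonempty (Fin k ↪ ι) :=
    Function.Embedding.nonempty_of_card_le (by simpa using hk)
  exact ⟨ρ, _, bas_comp h f (Fintype.equivFinOfCardEq hn)⟩

theorem Good.exists_isOA {k n : ℕ} (h : Good k n) (ι α : Type) [Fintype ι] [Fintype α]
    (hk : Fintype.card ι ≤ k) (hn : Fintype.card α = n) :
    ∃ (ρ : Type) (x : ρ → ι → α), IsOA x := by
  obtain ⟨ρ, x, hx⟩ := h
  obtain ⟨f⟩ : Nonempty (ι ↪ Fin k) :=
    Function.Embedding.nonempty_of_card_le (by simpa using hk)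
  exact ⟨ρ, _, bas_comp hx f (Fintype.equivFinOfCardEq hn).symm⟩

theorem isOA_of_lt {ρ α : Type} {k : ℕ} {x : ρ → Fin k → α}
    (h : ∀ i l, i < l → Function.Bijective fun r => (x r i, x r l)) : IsOA x := by
  intro i l hil
  rcases lt_or_gt_of_ne hil with h1 | h1
  · exact h i l h1
  · exact (Equiv.prodComm α α).bijective.comp (h l i h1)

theorem Good.mono {k k' n : ℕ} (h : Good k n) (hk : k' ≤ k) : Good k' n := by
  obtain ⟨ρ, x, hx⟩ := h
  exact good_of_isOA hx (by simpa using hk) (by simp)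

theorem Good.mul {k m n : ℕ} (h : Good k m) (h' : Good k n) : Good k (m * n) := by
  obtain ⟨ρ, x, hx⟩ := h
  obtain ⟨ρ', x', hx'⟩ := h'
  have : IsOA fun (r : ρ × ρ') (i : Fin k) => (x r.1 i, x' r.2 i) := by
    intro i l hil
    exact (Equiv.prodProdProdComm _ _ _ _).bijective.comp ((hx i l hil).prodMap (hx' i l hil))
  exact good_of_isOA this (by simp) (by simp)

theorem good_ring {R ι : Type} [CommRing R] [Fintype R] [Fintype ι] (c : ι → R)
    (hc : ∀ i l, i ≠ l → IsUnit (c i - c l)) : Good (Fintype.card ι) (Fintype.card R) := by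
  have : IsOA fun (r : R × R) (i : ι) => r.1 + c i * r.2 := by
    intro i l hil
    refine Finite.injective_iff_bijective.1 ?_
    rintro ⟨a, b⟩ ⟨a', b'⟩ hab
    simp only [Prod.mk.injEq] at hab
    obtain ⟨h1, h2⟩ := hab
    have h3 : (c i - c l) * b = (c i - c l) * b' := by linear_combination h1 - h2
    have h4 : b = b' := (hc i l hil).mul_left_cancel h3
    subst h4
    have h5 : a = a' := add_right_cancel h1
    rw [h5]
  exact good_of_isOA this le_rfl rfl

theorem good_field (K : Type) [Field K] [Fintype K] {k : ℕ} (hk : k ≤ Fintype.card K) :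
    Good k (Fintype.card K) :=
  (good_ring (R := K) (ι := K) id fun _ _ hil => (sub_ne_zero.2 hil).isUnit).mono hk

private theorem bas_unit {k n a b : ℕ} (h : ∀ p, p.Prime → p ∣ n → k ≤ p) (hab : a < b)
    (hb : b < k) : IsUnit ((b : ZMod n) - a) := by
  have h1 : ((b : ZMod n) - a) = ((b - a : ℕ) : ZMod n) := by
    rw [Nat.cast_sub hab.le]
  rw [h1, ZMod.isUnit_iff_coprime]
  refine Nat.coprime_of_dvd fun p hp hd hn => ?_
  have h2 := h p hp hn
  have h3 := Nat.le_of_dvd (by omega) hd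
  omega

theorem good_rough {k n : ℕ} (hn : n ≠ 0) (h : ∀ p, p.Prime → p ∣ n → k ≤ p) : Good k n := by
  have : NeZero n := ⟨hn⟩
  have := good_ring (R := ZMod n) (ι := Fin k) (fun i => ((i : ℕ) : ZMod n)) (by
    intro i l hil
    rcases lt_or_gt_of_ne hil with h1 | h1
    · have := (bas_unit h (show (i : ℕ) < l from h1) l.2).neg
      rwa [neg_sub] at this
    · exact bas_unit h (show (l : ℕ) < i from h1) i.2)
  simpa using this

theorem Good.mols {r n : ℕ} (h : Good (r + 2) n) : ∃ L : Fin r → Fin n → Fin n → Fin n,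
    (∀ a i, Function.Bijective (L a i)) ∧ (∀ a j, Function.Bijective fun i => L a i j) ∧
      ∀ a b, a ≠ b → Function.Injective fun x : Fin n × Fin n => (L a x.1 x.2, L b x.1 x.2) := by
  obtain ⟨ρ, x, hx⟩ := h
  have h01 : (0 : Fin (r + 2)) ≠ 1 := by
    intro hh
    have := congrArg Fin.val hh
    simp at this
  have h0 : ∀ a : Fin r, (0 : Fin (r + 2)) ≠ a.succ.succ := fun a => (Fin.succ_ne_zero _).symm
  have h1 : ∀ a : Fin r, (1 : Fin (r + 2)) ≠ a.succ.succ := by
    intro a hh
    have := congrArg Fin.val hh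
    simp at this
  let e : ρ ≃ Fin n × Fin n := Equiv.ofBijective _ (hx 0 1 h01)
  have he : ∀ y : Fin n × Fin n, (x (e.symm y) 0, x (e.symm y) 1) = y := fun y =>
    e.apply_symm_apply y
  have he0 : ∀ i j : Fin n, x (e.symm (i, j)) 0 = i := fun i j => congrArg Prod.fst (he (i, j))
  have he1 : ∀ i j : Fin n, x (e.symm (i, j)) 1 = j := fun i j => congrArg Prod.snd (he (i, j))
  refine ⟨fun a i j => x (e.symm (i, j)) a.succ.succ, fun a i => ?_, fun a j => ?_,
    fun a b hab => ?_⟩
  · refine Finite.injective_iff_bijective.1 fun j j' hj => ?_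
    have h2 : e.symm (i, j) = e.symm (i, j') :=
      (hx 0 _ (h0 a)).1 (Prod.ext ((he0 i j).trans (he0 i j').symm) hj)
    exact congrArg Prod.snd (e.symm.injective h2)
  · refine Finite.injective_iff_bijective.1 fun i i' hi => ?_
    have h2 : e.symm (i, j) = e.symm (i', j) :=
      (hx 1 _ (h1 a)).1 (Prod.ext ((he1 i j).trans (he1 i' j).symm) hi)
    exact congrArg Prod.fst (e.symm.injective h2)
  · intro y y' hy
    have h3 : a.succ.succ ≠ b.succ.succ := fun hh =>
      hab (Fin.succ_injective _ (Fin.succ_injective _ hh))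
    exact e.symm.injective ((hx _ _ h3).1 hy)

end Pool.Agent.Lib.MP_ce212d_co
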