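import Mathlib

/-!
Orthogonal arrays of strength two, shift families of difference matrices, sieve data.
-/

open Finset

namespace Pool.Agent.Lib.MP_ce212d_co

/-- An orthogonal array of strength two and index one: rows `ρ`, columns `ι`, symbols `α`. -/
def IsOA {ρ ι α : Type} (x : ρ → ι → α) : Prop :=
  ∀ i l, i ≠ l → Function.Bijective fun r => (x r i, x r l)

/-- There is an orthogonal array with `k` columns on `n` symbols. -/
def Good (k n : ℕ) : Prop := ∃ (ρ : Type) (x : ρ → Fin k → Fin n), IsOA x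

/-- Adding `φ j` to the entry in column `i` of the rows `τ j` does not change the differences. -/
def Fam {T J H : Type} {k : ℕ} [Fintype J] [AddCommGroup H] (r : T → Fin k → H) (i : Fin k)
    (τ : J → T) (φ : J → H) : Prop :=
  ∀ m, m ≠ i → ∀ f : H → ℤ,
    ∑ j, f (r (τ j) m - r (τ j) i - φ j) = ∑ j, f (r (τ j) m - r (τ j) i)

/-- A change of the rows in `N` that alters only the differences between the columns `i` and `l`,
by the amount `D`. -/
def Gad {T H : Type} {k : ℕ} [Fintype T] [AddCommGroup H] (r : T → Fin k → H) (i l : Fin k)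
    (D : (H → ℤ) → ℤ) (N : Finset T) : Prop :=
  ∃ r' : T → Fin k → H, (∀ t, t ∉ N → r' t = r t) ∧ ∀ a b, a < b → ∀ f : H → ℤ,
    ∑ t, (f (r' t b - r' t a) - f (r t b - r t a)) = if a = i ∧ b = l then D f else 0

/-- The element `x` satisfies no quadratic equation over `K`. -/
def Gen (K : Type) {F : Type} [Field K] [Field F] [Algebra K F] (x : F) : Prop :=
  ∀ a b c : K, algebraMap K F a + algebraMap K F b * x + algebraMap K F c * x ^ 2 = 0 →
    a = 0 ∧ b = 0 ∧ c = 0

/-- Every interval of length `z ^ β` survives a sieve of dimension `κ` by the primes up to `z`. -/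
def SieveOK (κ : ℕ) (β : ℝ) : Prop :=
  ∃ z₀ : ℕ, ∀ z : ℕ, z₀ ≤ z → ∀ Ω : ℕ → Finset ℕ,
    (∀ p, p.Prime → p ≤ z → Ω p ⊆ range p ∧ (Ω p).card ≤ min κ (p - 1)) →
    ∀ X H : ℕ, (z : ℝ) ^ β ≤ H → ∃ n, X ≤ n ∧ n < X + H ∧ ∀ p, p.Prime → p ≤ z → n % p ∉ Ω p

/-- The number of sifted classes. -/
def rho (κ p : ℕ) : ℕ := min κ (p - 1)

/-- The density of the sifted classes. -/
noncomputable def gg (κ p : ℕ) : ℝ := (rho κ p : ℝ) / p

/-- The weight of a prime in the diagonal form. -/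
noncomputable def hh (κ p : ℕ) : ℝ := (rho κ p : ℝ) / (p - rho κ p)

/-- The truncated moments of the weighted subsets of `P`. -/
noncomputable def mom {ι : Type} (P : Finset ι) (h t : ι → ℝ) (j : ℕ) (u : ℝ) : ℝ :=
  ∑ T ∈ P.powerset with ∑ p ∈ T, t p ≤ u, (∏ p ∈ T, h p) * (u - ∑ p ∈ T, t p) ^ j

/-- The logarithm of a natural number. -/
noncomputable def lg (p : ℕ) : ℝ := Real.log p

/-- The sieve weights. -/
noncomputable def yy (a L : ℝ) (T : Finset ℕ) : ℝ :=
  if ∑ p ∈ T, lg p ≤ L then a * L + L - ∑ p ∈ T, lg p else 0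

/-- The main term of the lower bound sieve. -/
noncomputable def mainT (κ : ℕ) (P Q : Finset ℕ) (y : Finset ℕ → ℝ) : ℝ :=
  ∑ T ∈ P.powerset, y T ^ 2 * ∏ p ∈ T, hh κ p -
    ∑ q ∈ Q, gg κ q * ∑ T ∈ (P.erase q).powerset, (y T - y (insert q T)) ^ 2 * ∏ p ∈ T, hh κ p

end Pool.Agent.Lib.MP_ce212d_co
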