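import Pool.Agent.Lib.MP_ce212d_co.DelB

/-!
Deleting one symbol.
-/

open Finset

namespace Pool.Agent.Lib.MP_ce212d_co

private lemma del_log (F : Type) [Field F] [Fintype F] [DecidableEq F] : ∃ ℓ : F → Additive Fˣ,
    (∀ x y, x ≠ 0 → y ≠ 0 → ℓ (x / y) = ℓ x - ℓ y) ∧
      ∀ f : Additive Fˣ → ℤ, ∑ x, f (ℓ x) = f (ℓ 0) + ∑ x, f x := by
  refine ⟨fun x => if h : x = 0 then 0 else Additive.ofMul (Units.mk0 x h), fun x y hx hy => ?_,
    fun f => ?_⟩
  · simp only [hx, hy, div_ne_zero hx hy, dite_false]
    rw [← ofMul_div]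
    exact congrArg _ (Units.ext (by simp))
  · rw [Fintype.sum_eq_add_sum_subtype_ne _ 0]
    congr 1
    refine Fintype.sum_equiv (unitsEquivNeZero.symm.trans Additive.ofMul) _ _ fun x => ?_
    simp only [dif_neg x.2]
    rfl

private lemma del_card {k p u : ℕ} (hk : 16 * k ≤ p) (h16 : 16 ≤ p)
    (hu : u ≤ k + 1 + k ^ 2 * (6 * p + 2)) : 2 * (6 * p * (6 * p + (u + 1))) + 1 < p ^ 4 := by
  have h1 : 256 * k ^ 2 ≤ p ^ 2 := by nlinarith
  have h2 : 256 * u ≤ 16 * p + 256 + p ^ 2 * (6 * p + 2) := by nlinarith
  have h3 : 16 * p ≤ p ^ 2 := by nlinarith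
  have h4 : 16 * p ^ 2 ≤ p ^ 3 := by nlinarith
  have h5 : 16 * p ^ 3 ≤ p ^ 4 := by nlinarith
  nlinarith

theorem good_del {K F : Type} [Field K] [Fintype K] [Field F] [Fintype F] [Algebra K F] [CharP F 2]
    (hF : Fintype.card F = Fintype.card K ^ 4) {κ : F} (hκ : Gen K κ) {k : ℕ}
    (hk : 16 * k ≤ Fintype.card K) (h16 : 16 ≤ Fintype.card K) : Good k (Fintype.card F - 1) := by
  classical
  obtain ⟨ℓ, hℓ, hsum⟩ := del_log F
  obtain ⟨c'⟩ : Nonempty (Option (Fin k) ↪ K) :=
    Function.Embedding.nonempty_of_card_le (by simp; omega)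
  have hinj := (algebraMap K F).injective
  let C : Option (Fin k) → F := fun o => algebraMap K F (c' o)
  have hC : Function.Injective C := hinj.comp c'.injective
  have hne : ∀ o o', o ≠ o' → C o + C o' ≠ 0 := fun o o' h h' =>
    h (hC (CharTwo.add_eq_zero.1 h'))
  have hκ0 : κ ≠ 0 := (hκ.facts one_ne_zero).2.1
  have hg : ∀ m, C none + C (some m) ≠ 0 := fun m => hne _ _ (by simp)
  have hq : ∀ {a b c : K}, algebraMap K F a + algebraMap K F b * κ + algebraMap K F c * κ ^ 2 = 0 →
      algebraMap K F a = 0 ∧ algebraMap K F b = 0 ∧ algebraMap K F c = 0 := fun h => by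
    simpa using hκ _ _ _ h
  let ν : Fin k → Fin k → F := fun l i => C l + (C l + C i) * (κ * (C none + C l)) /
    (κ * (C none + C l) + (C l + C i))
  have hd : ∀ l i : Fin k, κ * (C none + C l) + (C l + C i) ≠ 0 := fun l i h =>
    hg l (by simpa [C] using (hq (a := c' l + c' i) (b := c' none + c' l) (c := 0) (by
      simp only [map_add, map_zero, C] at h ⊢; grind)).2.1)
  have hν : ∀ l i z, z = ν l i ↔ κ * (C none + C l) * (z + C i) + (C l + C i) * (z + C l) = 0 := by
    intro l i z
    have := hd l i
    simp only [ν]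
    rw [add_comm (C l), ← CharTwo.add_eq_iff_eq_add, eq_div_iff this]
    grind
  have hνK : ∀ l i o, l ≠ i → C o ≠ ν l i := fun l i o hli h => by
    have h1 := hne (some l) (some i) (by simpa using hli)
    have h2 := hg l
    have h3 := hq (a := (c' l + c' i) * (c' o + c' l)) (b := (c' none + c' l) * (c' o + c' i))
      (c := 0) (by
        rw [hν] at h
        simp only [map_add, map_zero, map_mul, C] at h ⊢; grind)
    simp only [map_add, map_mul, C] at h1 h2 h3
    grind
  have hνν : ∀ l i l' i', l ≠ i → l' ≠ i' → ν l i = ν l' i' → l = l' ∧ i = i' := by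
    intro l i l' i' h1 h2 h
    have e1 := (hν l i _).1 rfl
    have e2 := (hν l' i' _).1 h
    have h3 := hne (some l) (some i) (by simpa using h1)
    have h4 := hne (some l') (some i') (by simpa using h2)
    have h5 := hg l
    have h6 := hq (a := (c' l + c' i) * (c' l' + c' i') * (c' l + c' l'))
      (b := (c' none + c' l) * (c' l' + c' i') * (c' i + c' l') +
        (c' none + c' l') * (c' l + c' i) * (c' l + c' i'))
      (c := (c' none + c' l) * (c' none + c' l') * (c' i + c' i')) (by
        generalize ν l i = z at e1 e2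
        simp only [map_add, map_mul, C] at e1 e2 ⊢
        linear_combination (exp := 1) (κ * (algebraMap K F (c' none) + algebraMap K F (c' l')) +
          (algebraMap K F (c' l') + algebraMap K F (c' i'))) * e1 +
          (κ * (algebraMap K F (c' none) + algebraMap K F (c' l)) +
          (algebraMap K F (c' l) + algebraMap K F (c' i))) * e2 - z * (κ * (algebraMap K F (c' none)
          + algebraMap K F (c' l')) + (algebraMap K F (c' l') + algebraMap K F (c' i'))) *
          (κ * (algebraMap K F (c' none) + algebraMap K F (c' l)) + (algebraMap K F (c' l) +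
          algebraMap K F (c' i))) * (CharTwo.two_eq_zero (R := F)))
    have h7 := hg l'
    simp only [map_add, map_mul, C] at h3 h4 h5 h6 h7
    exact ⟨Option.some.inj (hC (by simp only [C]; grind)),
      Option.some.inj (hC (by simp only [C]; grind))⟩
  let w : Fin k → Fin k → F := fun i l => (C i + C l) / (κ * (C none + C i))
  let A : Fin k → Fin k → K := fun i l => (c' none + c' l) / (c' none + c' i)
  have hA : ∀ i l, algebraMap K F (A i l) = (C none + C l) / (C none + C i) := fun i l => by
    simp [A, C]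
  obtain ⟨r', hr⟩ := absorb (fun t (m : Fin k) => ℓ (t + C m)) (fun i l f =>
      f (ℓ (algebraMap K F (A i l) / w i l) + ℓ (w i l)) + f (ℓ (w i l) - ℓ (w i l)) -
        f (ℓ (algebraMap K F (A i l) / w i l)) - f (ℓ (w i l))) (univ.image C)
    (fun i l => {ν l i, ν i l}) (6 * Fintype.card K) (fun _ _ _ => card_le_two)
    (fun i l h => by
      simp only [disjoint_left, mem_image, mem_univ, true_and, mem_insert, mem_singleton, not_or]
      rintro _ ⟨o, rfl⟩
      exact ⟨hνK _ _ _ h.ne', hνK _ _ _ h.ne⟩)
    (fun i l i' l' h h' hn => by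
      simp only [disjoint_left, mem_insert, mem_singleton, not_or]
      simp only [Ne, Prod.mk.injEq] at hn
      rintro _ (rfl | rfl) <;> constructor <;> intro e <;>
        have := hνν _ _ _ _ (by omega) (by omega) e <;> omega)
    (fun i l h U hU hc hR => by
      have h1 := hne (some i) (some l) (by simpa using h.ne)
      have h2 := hg i
      have h3 := hg l
      simp only [disjoint_insert_right, disjoint_singleton_right] at hR
      refine del_gad hℓ (c := fun m => c' (some m)) (c'.injective.comp (Option.some_injective _))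
        h (fun a b e he => ?_) (fun e => ?_) (fun e => ?_) U
        (fun m => hU (mem_image_of_mem _ (mem_univ (some m)))) (fun z hz => ⟨fun e => ?_, fun e => ?_⟩)
        (hF ▸ del_card hk h16 (hc.trans (by gcongr; simpa using card_image_le (s := univ) (f := C))))
      · have h4 := hq (a := e * (c' i + c' l) ^ 2) (b := b * (c' i + c' l) * (c' none + c' i))
          (c := a * (c' none + c' i) ^ 2) (by
            simp only [w] at he
            field_simp at he
            simp only [map_add, map_mul, map_pow, C] at he ⊢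
            linear_combination he)
        simp only [map_mul, map_pow, map_add, mul_eq_zero, map_eq_zero] at h4
        simp only [C] at h1 h2
        simpa [h1, h2, and_comm, and_assoc, and_left_comm] using h4
      · exact div_ne_zero h3 h2 (by rw [← hA, e, map_zero])
      · have h4 := hA i l
        rw [e, map_one, eq_div_iff h2] at h4
        grind
      · refine hR.1 ((hν l i z).2 ?_ ▸ hz)
        simp only [hA, w] at e
        field_simp at e
        simp only [C] at e ⊢
        grind
      · refine hR.2 ((hν i l z).2 ?_ ▸ hz)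
        simp only [w] at e
        field_simp at e
        simp only [C] at e ⊢
        grind)
  rw [← Fintype.card_units, ← Fintype.card_congr (Additive.toMul (α := Fˣ))]
  refine good_of_dm (J := ↥(univ.image C)ᶜ ⊕ Fin k) (Sum.elim (fun t => r' t) fun m a =>
    if a = m then ℓ (κ * (C none + C m)) else ℓ (C m + C a)) fun a b hab f => ?_
  have h1 := hne (some a) (some b) (by simpa using hab.ne)
  have h2 := hg a
  have h3 := hg b
  have hw0 : w a b ≠ 0 := div_ne_zero h1 (mul_ne_zero hκ0 h2)
  have e0 : ∀ t, t + C a ≠ 0 → t + C b ≠ 0 → f (ℓ (t + C b) - ℓ (t + C a)) =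
      f (ℓ (1 + (C a + C b) / (t + C a))) := fun t t1 t2 => by
    rw [← hℓ _ _ t2 t1]
    congr 2
    field_simp
    grind
  have e1 : ∑ t, f (ℓ (1 + (C a + C b) / (t + C a))) = ∑ x, f (ℓ x) :=
    Fintype.sum_bijective _ (Finite.injective_iff_bijective.1 fun t t' h => by
      simpa [div_eq_mul_inv, h1] using h) _ _ fun _ => rfl
  have e2 : ∀ g : Fin k → ℤ, ∑ m, g m = g a + (g b + ∑ m ∈ (univ.erase a).erase b, g m) := fun g => by
    rw [add_sum_erase _ _ (by simpa using hab.ne'), add_sum_erase _ _ (mem_univ a)]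
  rw [hsum, ← sum_compl_add_sum (univ.image C), sum_image hC.injOn, Fintype.sum_option, e2,
    ← e0 _ h2 h3, ← sum_congr rfl fun t ht => e0 t
      (fun h => by simp [CharTwo.add_eq_zero.1 h] at ht)
      (fun h => by simp [CharTwo.add_eq_zero.1 h] at ht), ← sum_congr rfl fun m hm => e0 (C (some m))
      (hne _ _ (by simp at hm; simp [hm.2])) (hne _ _ (by simp at hm; simp [hm.1]))] at e1
  have e3 : ℓ 1 = 0 := by simpa using hℓ 1 1 one_ne_zero one_ne_zero
  rw [CharTwo.add_self_eq_zero, div_zero, add_zero, e3, add_comm (C b), div_self h1,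
    CharTwo.add_self_eq_zero] at e1
  have e4 : ℓ (algebraMap K F (A a b) / w a b) + ℓ (w a b) = ℓ (C none + C b) - ℓ (C none + C a) := by
    rw [hA, hℓ _ _ (div_ne_zero h3 h2) hw0, hℓ _ _ h3 h2, sub_add_cancel]
  have e5 : ℓ (κ * (C none + C b)) - ℓ (C b + C a) = ℓ (algebraMap K F (A a b) / w a b) := by
    rw [add_comm (C b), ← hℓ _ _ (mul_ne_zero hκ0 h3) h1, hA]
    congr 1
    simp only [w]
    field_simp
  rw [Fintype.sum_sum_type, e2]
  simp only [Sum.elim_inl, Sum.elim_inr, if_true, hab.ne, hab.ne', if_false]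
  rw [sum_coe_sort _ fun t => f (r' t b - r' t a), hr a b hab, e4, e5, sub_self,
    ← hℓ _ _ h1 (mul_ne_zero hκ0 h2), sum_congr (s₁ := (univ.erase a).erase b) rfl fun m hm => by
      rw [if_neg (ne_of_mem_erase hm).symm, if_neg (ne_of_mem_erase (mem_of_mem_erase hm)).symm]]
  simp only [w]
  linear_combination e1

end Pool.Agent.Lib.MP_ce212d_co
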