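import Pool.Agent.Lib.MP_ce212d_co.Gad

/-!
Deleting one symbol: generic parameters and shift families.
-/

open Finset

namespace Pool.Agent.Lib.MP_ce212d_co

theorem exists_generic {F E : Type} [Field F] [Fintype F] [Fintype E] (a b c : E → F)
    (h : 2 * Fintype.card E + 1 < Fintype.card F) : ∃ x : F, x ≠ 0 ∧
      ∀ e, a e * x ^ 2 + b e * x + c e = 0 → a e = 0 ∧ b e = 0 ∧ c e = 0 := by
  classical
  let P : E → Polynomial F := fun e =>
    Polynomial.C (a e) * Polynomial.X ^ 2 + Polynomial.C (b e) * Polynomial.X + Polynomial.C (c e)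
  have h1 : (insert 0 (univ.biUnion fun e => (P e).roots.toFinset)).card <
      (univ : Finset F).card := by
    refine (card_insert_le _ _).trans_lt (lt_of_le_of_lt (Nat.succ_le_succ ?_) h)
    refine card_biUnion_le.trans ?_
    rw [mul_comm, ← card_univ, ← smul_eq_mul]
    exact sum_le_card_nsmul _ _ _ fun e _ => (Multiset.toFinset_card_le _).trans
      ((Polynomial.card_roots' _).trans Polynomial.natDegree_quadratic_le)
  obtain ⟨x, -, hx⟩ := exists_mem_notMem_of_card_lt_card h1
  simp only [mem_insert, mem_biUnion, mem_univ, true_and, not_or, not_exists,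
    Multiset.mem_toFinset, Polynomial.mem_roots', not_and] at hx
  refine ⟨x, hx.1, fun e he => ?_⟩
  have h0 : P e = 0 := by
    by_contra h0
    exact hx.2 e h0 (by simp [P, he])
  refine ⟨?_, ?_, ?_⟩
  · simpa [P, Polynomial.coeff_X, Polynomial.coeff_C] using congrArg (·.coeff 2) h0
  · simpa [P, Polynomial.coeff_X, Polynomial.coeff_C] using congrArg (·.coeff 1) h0
  · simpa [P, Polynomial.coeff_X, Polynomial.coeff_C] using congrArg (·.coeff 0) h0

theorem Fam.sum {T J J' H : Type} {k : ℕ} [Fintype J] [Fintype J'] [AddCommGroup H]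
    {r : T → Fin k → H} {i : Fin k} {τ : J → T} {φ : J → H} {τ' : J' → T} {φ' : J' → H}
    (h : Fam r i τ φ) (h' : Fam r i τ' φ') : Fam r i (Sum.elim τ τ') (Sum.elim φ φ') := by
  intro m hm f
  simp only [Fintype.sum_sum_type, Sum.elim_inl, Sum.elim_inr, h m hm f, h' m hm f]

variable {K F H : Type} [Field K] [Fintype K] [Field F] [Algebra K F] [CharP F 2] [AddCommGroup H]
  {k : ℕ}

/-- The pair of lines through two points of one column. -/
theorem fam_mul {ℓ : F → H} (hℓ : ∀ x y, x ≠ 0 → y ≠ 0 → ℓ (x / y) = ℓ x - ℓ y) {c : Fin k → K}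
    (hc : Function.Injective c) (i : Fin k) {δ : K} (hδ : δ ≠ 0) {n₀ : F} {d : Bool → F}
    (hd : ∀ b, d b ≠ 0) {τ : Bool × K → F}
    (hn : ∀ b e, n₀ + (d false + d true) * algebraMap K F e + d b ≠ 0)
    (hτ : ∀ b e, τ (b, e) = algebraMap K F (c i) +
      algebraMap K F δ * d b / (n₀ + (d false + d true) * algebraMap K F e + d b))
    (h0 : ∀ j m, τ j + algebraMap K F (c m) ≠ 0) :
    Fam (fun t m => ℓ (t + algebraMap K F (c m))) i τ fun j => ℓ (d (!j.1) / d j.1) := by
  intro m hm f
  have hinj := (algebraMap K F).injective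
  have hδ' : algebraMap K F (c i) + algebraMap K F (c m) ≠ 0 := by
    rw [Ne, CharTwo.add_eq_zero, hinj.eq_iff, hc.eq_iff]
    exact hm.symm
  have hδ2 : algebraMap K F δ ≠ 0 := (map_ne_zero _).2 hδ
  let σ : Bool × K → Bool × K := fun j => (!j.1, j.2 + (δ / (c i + c m) + 1))
  have hσ : Function.Bijective σ := Finite.injective_iff_bijective.1 fun x y h => by
    simp only [σ, Prod.mk.injEq, Bool.not_inj_iff, add_left_inj] at h
    exact Prod.ext h.1 h.2
  refine Fintype.sum_bijective σ hσ _ _ fun j => congrArg f ?_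
  obtain ⟨b, e⟩ := j
  rw [← hℓ _ _ (h0 _ _) (h0 _ _), ← hℓ _ _ (h0 _ _) (h0 _ _),
    ← hℓ _ _ (div_ne_zero (h0 _ _) (h0 _ _)) (div_ne_zero (hd _) (hd _))]
  congr 1
  have key : ∀ b e, (τ (b, e) + algebraMap K F (c m)) / (τ (b, e) + algebraMap K F (c i)) =
      1 + (algebraMap K F (c i) + algebraMap K F (c m)) *
        (n₀ + (d false + d true) * algebraMap K F e + d b) / (algebraMap K F δ * d b) := by
    intro b e
    have h3 := hn b e
    have h4 := hd b
    rw [div_eq_iff (h0 _ _), hτ]
    generalize n₀ + (d false + d true) * algebraMap K F e + d b = N at h3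
    field_simp
    grind
  have h3 := hd false
  have h4 := hd true
  simp only [σ, key, map_add, map_div₀, map_one]
  cases b
  · simp only [Bool.not_false]
    field_simp
    grind
  · simp only [Bool.not_true]
    field_simp
    grind

end Pool.Agent.Lib.MP_ce212d_co
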