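import Pool.Agent.Lib.MP_ce212d_co.DelA

/-!
Deleting one symbol: the local change.
-/

open Finset

namespace Pool.Agent.Lib.MP_ce212d_co

variable {K F H : Type} [Field K] [Field F] [Algebra K F] [CharP F 2]

/-- The coefficients of numerator and denominator of the rows that are changed. -/
def co (A : K) (w : F) : ((Bool × K) ⊕ (Bool × K)) ⊕ (Bool × K) → Fin 4 → F
  | .inl (.inl (false, e)) => ![algebraMap K F A + algebraMap K F e * w,
      algebraMap K F e * algebraMap K F A, 0, algebraMap K F A]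
  | .inl (.inl (true, e)) => ![algebraMap K F A + algebraMap K F e * w,
      algebraMap K F e * algebraMap K F A, w, 0]
  | .inl (.inr (false, e)) => ![w + algebraMap K F e, algebraMap K F e, 0, 1]
  | .inl (.inr (true, e)) => ![w + algebraMap K F e, algebraMap K F e, 1, 0]
  | .inr (false, e) => ![1, 0, (w + 1) * algebraMap K F e, 1]
  | .inr (true, e) => ![w, 0, (w + 1) * algebraMap K F e, 1]

/-- Two fractions of degree one agree identically. -/
def Same (u v : Fin 4 → F) : Prop :=
  u 0 * v 2 + v 0 * u 2 = 0 ∧ u 0 * v 3 + u 1 * v 2 + v 0 * u 3 + v 1 * u 2 = 0 ∧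
    u 1 * v 3 + v 1 * u 3 = 0

variable {A : K} {w : F}

omit [CharP F 2] in
lemma Gen.lin (hw : Gen K w) {a b : K} (h : algebraMap K F a + algebraMap K F b * w = 0) :
    a = 0 ∧ b = 0 := by
  have := hw a b 0 (by simpa using h)
  exact ⟨this.1, this.2.1⟩

omit [CharP F 2] in
lemma Gen.facts (hw : Gen K w) (hA : A ≠ 0) : algebraMap K F A ≠ 0 ∧ w ≠ 0 ∧ w + 1 ≠ 0 ∧
    (∀ e, algebraMap K F A + algebraMap K F e * w ≠ 0) ∧ ∀ e, w + algebraMap K F e ≠ 0 :=
  ⟨(map_ne_zero _).2 hA, fun h => one_ne_zero (hw.lin (a := 0) (b := 1) (by simp [h])).2,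
    fun h => one_ne_zero (hw.lin (a := 1) (b := 1) (by simpa [add_comm] using h)).2,
    fun _ h => hA (hw.lin h).1,
    fun e h => one_ne_zero (hw.lin (a := e) (b := 1) (by simpa [add_comm] using h)).2⟩

lemma co_const (hw : Gen K w) (hA : A ≠ 0) {x y : F}
    (h1 : algebraMap K F A * y + w * x ≠ 0) (h2 : w * y + x ≠ 0) (j) :
    ¬Same (co A w j) ![0, x, 0, y] := by
  obtain ⟨f1, f2, f3, f4, f5⟩ := hw.facts hA
  rintro ⟨-, e1, e2⟩
  rcases j with ((⟨_ | _, e⟩ | ⟨_ | _, e⟩) | ⟨_ | _, e⟩) <;>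
    simp only [co, Matrix.cons_val] at e1 e2 <;> have g4 := f4 e <;> have g5 := f5 e <;> grind

lemma same_ll (hw : Gen K w) (hA : A ≠ 0) (hA1 : A ≠ 1) {j j'}
    (h : Same (co A w (.inl j)) (co A w (.inl j'))) : j = j' := by
  obtain ⟨f1, f2, f3, f4, f5⟩ := hw.facts hA
  have hinj := (algebraMap K F).injective
  have f6 : ∀ e e' : K, algebraMap K F e * algebraMap K F A + algebraMap K F e' * algebraMap K F A
      = 0 → (algebraMap K F A + algebraMap K F e * w) + (w + algebraMap K F e') *
        algebraMap K F A ≠ 0 := fun e e' h h' => by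
    have h3 := hw.lin (a := A + e' * A) (b := e + A) (by simp only [map_add, map_mul]; grind)
    have h4 := congrArg (algebraMap K F) h3.1
    have h5 := congrArg (algebraMap K F) h3.2
    simp only [map_add, map_mul, map_zero] at h4 h5
    exact hA1 (hinj (by rw [map_one]; grind))
  have f7 : ∀ e e' : K, (algebraMap K F A + algebraMap K F e * w) + (w + algebraMap K F e') * w
      ≠ 0 := fun e e' h =>
    hA (hw A (e + e') 1 (by simp only [map_add, map_one]; grind)).1
  obtain ⟨e1, e2, e3⟩ := h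
  rcases j with (⟨_ | _, e⟩ | ⟨_ | _, e⟩) <;> rcases j' with (⟨_ | _, e'⟩ | ⟨_ | _, e'⟩) <;>
    simp only [co, Matrix.cons_val] at e1 e2 e3 <;> have g4 := f4 e <;> have g5 := f5 e <;>
    have g4' := f4 e' <;> have g5' := f5 e' <;> have g6 := f6 e e' <;> have g6' := f6 e' e <;>
    have g7 := f7 e e' <;> have g7' := f7 e' e <;>
    first
    | (obtain rfl : e = e' := hinj (by grind); rfl)
    | (exfalso; grind)

lemma same_rr (hw : Gen K w) (hA : A ≠ 0) {j j'}
    (h : Same (co A w (.inr j)) (co A w (.inr j'))) : j = j' := by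
  obtain ⟨f1, f2, f3, f4, f5⟩ := hw.facts hA
  have hinj := (algebraMap K F).injective
  obtain ⟨e1, e2, e3⟩ := h
  rcases j with ⟨_ | _, e⟩ <;> rcases j' with ⟨_ | _, e'⟩ <;>
    simp only [co, Matrix.cons_val] at e1 e2 e3 <;>
    first
    | (obtain rfl : e = e' := hinj (by grind); rfl)
    | (exfalso; grind)

lemma same_lr (hw : Gen K w) (hA : A ≠ 0) {j n}
    (h : Same (co A w (.inl j)) (co A w (.inr n))) :
    j = .inl (false, 0) ∨ j = .inr (false, 0) := by
  obtain ⟨f1, f2, f3, f4, f5⟩ := hw.facts hA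
  have hinj := (algebraMap K F).injective
  obtain ⟨e1, e2, e3⟩ := h
  rcases j with (⟨_ | _, e⟩ | ⟨_ | _, e⟩) <;> rcases n with ⟨_ | _, e'⟩ <;>
    simp only [co, Matrix.cons_val] at e1 e2 e3 <;> have g4 := f4 e <;> have g5 := f5 e <;>
    first
    | (obtain rfl : e = 0 := hinj (by rw [map_zero]; grind); simp; done)
    | (exfalso; grind)

theorem del_gad [Fintype K] [Fintype F] [DecidableEq F] [AddCommGroup H] {k : ℕ} {ℓ : F → H}
    (hℓ : ∀ x y, x ≠ 0 → y ≠ 0 → ℓ (x / y) = ℓ x - ℓ y) {c : Fin k → K}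
    (hc : Function.Injective c) {i l : Fin k} (hil : i < l) (hw : Gen K w) (hA : A ≠ 0)
    (hA1 : A ≠ 1) (U : Finset F) (hU0 : ∀ m, algebraMap K F (c m) ∈ U)
    (hU : ∀ z ∈ U, algebraMap K F A * (z + algebraMap K F (c i)) +
      w * (z + algebraMap K F (c l)) ≠ 0 ∧
      w * (z + algebraMap K F (c i)) + (z + algebraMap K F (c l)) ≠ 0)
    (hcard : 2 * (6 * Fintype.card K * (6 * Fintype.card K + (U.card + 1))) + 1 < Fintype.card F) :
    ∃ N, Disjoint N U ∧ N.card ≤ 6 * Fintype.card K ∧
      Gad (fun t m => ℓ (t + algebraMap K F (c m))) i l (fun f =>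
        f (ℓ (algebraMap K F A / w) + ℓ w) + f (ℓ w - ℓ w) - f (ℓ (algebraMap K F A / w)) -
          f (ℓ w)) N := by
  obtain ⟨f1, f2, f3, f4, f5⟩ := hw.facts hA
  have hinj := (algebraMap K F).injective
  have hδ' : algebraMap K F (c i) + algebraMap K F (c l) ≠ 0 := by
    rw [Ne, CharTwo.add_eq_zero, hinj.eq_iff, hc.eq_iff]
    exact hil.ne
  have hδ : c i + c l ≠ 0 := fun h => hδ' (by rw [← map_add, h, map_zero])
  let v : (((Bool × K) ⊕ (Bool × K)) ⊕ (Bool × K)) ⊕ Option U → Fin 4 → F := Sum.elim (co A w)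
    fun z => z.elim ![0, 1, 0, 1] fun z =>
      ![0, z + algebraMap K F (c l), 0, z + algebraMap K F (c i)]
  obtain ⟨x, hx, hg⟩ := exists_generic (E := _ × _)
    (fun e => co A w e.1 0 * v e.2 2 + v e.2 0 * co A w e.1 2)
    (fun e => co A w e.1 0 * v e.2 3 + co A w e.1 1 * v e.2 2 + v e.2 0 * co A w e.1 3 +
      v e.2 1 * co A w e.1 2)
    (fun e => co A w e.1 1 * v e.2 3 + v e.2 1 * co A w e.1 3) (by
      simp only [Fintype.card_prod, Fintype.card_sum, Fintype.card_bool, Fintype.card_option,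
        Fintype.card_coe]
      convert hcard using 4 <;> ring)
  let n := fun j => co A w j 0 * x + co A w j 1
  let d := fun j => co A w j 2 * x + co A w j 3
  have key : ∀ j y, n j * (v y 2 * x + v y 3) + (v y 0 * x + v y 1) * d j = 0 →
      Same (co A w j) (v y) := fun j y h => hg (j, y) (by
    simp only [n, d] at h ⊢
    linear_combination h)
  have hs : ∀ j, n j + d j ≠ 0 := fun j h =>
    co_const hw hA (x := 1) (y := 1) (by simpa [add_comm] using f5 A) (by simpa using f3) j
      (key j (.inr none) (by simpa [v] using h))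
  let θ := fun j => algebraMap K F (c i) + algebraMap K F (c i + c l) * d j / (n j + d j)
  have hθi : ∀ j, θ j + algebraMap K F (c i) = algebraMap K F (c i + c l) * d j / (n j + d j) :=
    fun j => by simp only [θ]; grind
  have hθl : ∀ j, θ j + algebraMap K F (c l) = algebraMap K F (c i + c l) * n j / (n j + d j) :=
    fun j => by
      have := hs j
      simp only [θ, map_add]
      field_simp
      grind
  have hθU : ∀ j, θ j ∉ U := fun j h =>
    co_const hw hA (hU _ h).1 (hU _ h).2 j (key j (.inr (some ⟨_, h⟩)) (by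
      simp only [v, Sum.elim_inr, Option.elim_some, Matrix.cons_val, hθi, hθl]
      grind))
  have h0 : ∀ j m, θ j + algebraMap K F (c m) ≠ 0 := fun j m h =>
    hθU j (CharTwo.add_eq_zero.1 h ▸ hU0 m)
  have hθθ : ∀ j j', θ j = θ j' → Same (co A w j) (co A w j') := fun j j' h =>
    key j (.inl j') (by
      have h1 := hs j
      have h2 := hs j'
      simp only [θ, add_right_inj, map_add] at h
      field_simp at h
      show n j * d j' + n j' * d j = 0
      grind)
  have hr : ∀ j, ℓ (θ j + algebraMap K F (c l)) - ℓ (θ j + algebraMap K F (c i)) =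
      ℓ (n j / d j) := fun j => by
    have h1 := hs j
    have h2 := h0 j i
    rw [← hℓ _ _ (h0 _ _) h2]
    rw [hθi] at h2
    have h3 : d j ≠ 0 := fun h => h2 (by simp [h])
    rw [hθi, hθl, map_add]
    congr 1
    field_simp
  have hwx := mul_ne_zero f2 hx
  have F1 := fam_mul hℓ hc i hδ (n₀ := algebraMap K F A * x)
    (d := fun b => cond b (w * x) (algebraMap K F A)) (τ := fun j => θ (.inl (.inl j)))
    (by rintro (_ | _) <;> simp [*])
    (fun b e => by convert hs (.inl (.inl (b, e))) using 1; cases b <;> simp [n, d, co] <;> ring)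
    (fun b e => by cases b <;> simp only [θ, n, d, co, Matrix.cons_val, cond] <;> congr 2 <;> ring)
    fun _ _ => h0 _ _
  have F2 := fam_mul hℓ hc i hδ (n₀ := w * x)
    (d := fun b => cond b x 1) (τ := fun j => θ (.inl (.inr j)))
    (by rintro (_ | _) <;> simp [*])
    (fun b e => by convert hs (.inl (.inr (b, e))) using 1; cases b <;> simp [n, d, co] <;> ring)
    (fun b e => by cases b <;> simp only [θ, n, d, co, Matrix.cons_val, cond] <;> congr 2 <;> ring)
    fun _ _ => h0 _ _
  have F0 := fam_mul hℓ hc l hδ (n₀ := 1)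
    (d := fun b => cond b (w * x) x) (τ := fun j => θ (.inr j))
    (by rintro (_ | _) <;> simp [*])
    (fun b e => by convert hs (.inr (b, e)) using 1; cases b <;> simp [n, d, co] <;> ring)
    (fun b e => by
      rw [CharTwo.add_eq_iff_eq_add.1 (hθl _), add_comm]
      cases b <;> simp only [n, d, co, Matrix.cons_val, cond] <;> congr 2 <;> ring)
    fun _ _ => h0 _ _
  have hτ : Sum.elim (fun j => θ (.inl (.inl j))) (fun j => θ (.inl (.inr j))) =
      fun j => θ (.inl j) := by
    ext (j | j) <;> rfl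
  have F3 := F1.sum F2
  rw [hτ] at F3
  have e1 : ℓ (w * x) = ℓ x + ℓ w := by
    rw [← sub_eq_iff_eq_add', ← hℓ _ _ hwx hx, mul_div_cancel_right₀ _ hx]
  refine ⟨_, ?_, ?_, gad_of_fam hil (fun j j' h => same_ll hw hA hA1 (hθθ _ _ h))
    (fun j j' h => same_rr hw hA (hθθ _ _ h)) F3 F0 (j₁ := .inl (false, 0))
    (j₂ := .inr (false, 0)) (n₁ := (false, 0)) (n₂ := (true, 0)) ?_ ?_ (by simp)
    (fun j n h => same_lr hw hA (hθθ _ _ h)) ?_ ?_ ?_ ?_ ?_⟩
  · simp only [disjoint_left, mem_union, mem_image, mem_univ, true_and]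
    rintro _ (⟨j, rfl⟩ | ⟨j, rfl⟩) <;> exact hθU _
  · refine (card_union_le _ _).trans ((add_le_add card_image_le card_image_le).trans_eq ?_)
    simp only [card_univ, Fintype.card_prod, Fintype.card_sum, Fintype.card_bool]
    ring
  · simp only [θ, n, d, co, Matrix.cons_val, map_zero, zero_mul, mul_zero, add_zero, zero_add,
      one_mul, mul_one]
    rw [← mul_add_one, mul_comm _ (algebraMap K F A), mul_div_mul_left _ _ f1]
  · simp [θ, n, d, co]
  · simp [mul_div_cancel_right₀ _ hx]
  · simp [hℓ _ _ hx hwx, e1]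
  · rw [hr, hr]
    simp [n, d, co, mul_div_cancel_left₀ _ f1, e1]
  · rw [hr]
    simp only [n, d, co, Matrix.cons_val, map_zero, Sum.elim_inl, Bool.not_false, cond]
    rw [← hℓ _ _ (by simp [*]) (by simp [*])]
    congr 1
    simp only [zero_mul, add_zero, zero_add]
    field_simp
  · rw [hr]
    simp [n, d, co, e1]

end Pool.Agent.Lib.MP_ce212d_co
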