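import Pool.Agent.Lib.MP_ce212d_co.Basic

/-!
Local changes of difference matrices.
-/

open Finset

namespace Pool.Agent.Lib.MP_ce212d_co

variable {T H : Type} {k : ℕ} [Fintype T] [DecidableEq T] [AddCommGroup H]

private lemma gad_shift {J : Type} [Fintype J] {τ : J → T} (hτ : Function.Injective τ)
    (φ : J → H) : ∃ α : T → H, (∀ j, α (τ j) = φ j) ∧ (∀ t, (∀ j, τ j ≠ t) → α t = 0) ∧
      ∀ g : T → H → ℤ, (∀ t, g t 0 = 0) → ∑ t, g t (α t) = ∑ j, g (τ j) (φ j) := by
  have h1 : ∀ j, Function.extend τ φ 0 (τ j) = φ j := fun j => hτ.extend_apply _ _ j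
  have h2 : ∀ t, (∀ j, τ j ≠ t) → Function.extend τ φ 0 t = 0 := fun t ht =>
    Function.extend_apply' _ _ _ fun ⟨j, hj⟩ => ht j hj
  refine ⟨Function.extend τ φ 0, h1, h2, fun g hg => ?_⟩
  rw [← sum_subset (subset_univ (univ.image τ)), sum_image fun a _ b _ h => hτ h]
  · exact sum_congr rfl fun j _ => by rw [h1]
  · intro t _ ht
    rw [h2 t fun j hj => ht (mem_image.2 ⟨j, mem_univ _, hj⟩), hg]

private lemma gad_fam_sum {J : Type} [Fintype J] {r : T → Fin k → H} {i : Fin k} {τ : J → T}
    {φ : J → H} (hF : Fam r i τ φ) {α : T → H}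
    (hα : ∀ g : T → H → ℤ, (∀ t, g t 0 = 0) → ∑ t, g t (α t) = ∑ j, g (τ j) (φ j))
    {m : Fin k} (hm : m ≠ i) (f : H → ℤ) :
    ∑ t, (f (r t m - r t i - α t) - f (r t m - r t i)) = 0 ∧
      ∑ t, (f (r t i - r t m + α t) - f (r t i - r t m)) = 0 := by
  have key : ∀ f : H → ℤ, ∑ t, (f (r t m - r t i - α t) - f (r t m - r t i)) = 0 := fun f => by
    rw [hα (fun t x => f (r t m - r t i - x) - f (r t m - r t i)) (by simp), sum_sub_distrib,
      hF m hm f, sub_self]
  refine ⟨key f, ?_⟩
  rw [← key fun x => f (-x)]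
  refine sum_congr rfl fun t _ => ?_
  congr 2 <;> abel

/-- Two shift families in different columns that meet in two rows. -/
theorem gad_of_fam {J J₀ : Type} [Fintype J] [Fintype J₀] {r : T → Fin k → H} {i l : Fin k}
    (hil : i < l) {τ : J → T} {φ : J → H} {τ₀ : J₀ → T} {φ₀ : J₀ → H}
    (hτ : Function.Injective τ) (hτ₀ : Function.Injective τ₀) (hF : Fam r i τ φ)
    (hF₀ : Fam r l τ₀ φ₀) {j₁ j₂ : J} {n₁ n₂ : J₀} (e₁ : τ j₁ = τ₀ n₁) (e₂ : τ j₂ = τ₀ n₂)
    (hj : j₁ ≠ j₂) (hx : ∀ j n, τ j = τ₀ n → j = j₁ ∨ j = j₂) {A' B' ψ : H} (h₁ : φ₀ n₁ = ψ)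
    (h₂ : φ₀ n₂ = -ψ) (h₃ : r (τ j₂) l - r (τ j₂) i = r (τ j₁) l - r (τ j₁) i + ψ)
    (hA : r (τ j₁) l - r (τ j₁) i - φ j₁ = A') (hB : r (τ j₂) l - r (τ j₂) i - φ j₂ = B') :
    Gad r i l (fun f => f (A' + ψ) + f (B' - ψ) - f A' - f B')
      (univ.image τ ∪ univ.image τ₀) := by
  obtain ⟨α, hα1, hα2, hα3⟩ := gad_shift hτ φ
  obtain ⟨γ, hγ1, hγ2, hγ3⟩ := gad_shift hτ₀ φ₀
  have hne : i ≠ l := hil.ne
  refine ⟨fun t m => r t m + (if m = i then α t else 0) + (if m = l then γ t else 0),
    fun t ht => ?_, fun a b hab f => ?_⟩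
  · simp only [mem_union, mem_image, mem_univ, true_and, not_or, not_exists] at ht
    funext m
    simp [hα2 t ht.1, hγ2 t ht.2]
  by_cases hai : a = i
  · subst hai
    by_cases hbl : b = l
    · subst hbl
      rw [if_pos ⟨rfl, rfl⟩]
      have s1 := (gad_fam_sum hF hα3 hne.symm f).1
      have s2 := (gad_fam_sum hF₀ hγ3 hne f).2
      have s3 : ∑ t, (f (r t b - r t a - α t + γ t) - f (r t b - r t a - α t) -
          f (r t b - r t a + γ t) + f (r t b - r t a)) =
          f (A' + ψ) + f (B' - ψ) - f A' - f B' := by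
        rw [← sum_subset (subset_univ {τ j₁, τ j₂}), sum_pair fun h => hj (hτ h)]
        · have g1 : γ (τ j₁) = ψ := by rw [e₁, hγ1, h₁]
          have g2 : γ (τ j₂) = -ψ := by rw [e₂, hγ1, h₂]
          rw [hα1, hα1, g1, g2, hA, hB, h₃, add_neg_cancel_right, ← sub_eq_add_neg B']
          ring
        · intro t _ ht
          by_cases h1 : ∃ j, τ j = t
          · by_cases h2 : ∃ n, τ₀ n = t
            · obtain ⟨j, rfl⟩ := h1
              obtain ⟨n, hn⟩ := h2
              rcases hx j n hn.symm with rfl | rfl <;> simp at ht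
            · rw [hγ2 t fun n hn => h2 ⟨n, hn⟩]
              simp
          · rw [hα2 t fun n hn => h1 ⟨n, hn⟩]
            simp
      refine Eq.trans ?_ ((congrArg₂ (· + ·) s3 (congrArg₂ (· + ·) s1 s2)).trans (by simp))
      rw [← sum_add_distrib, ← sum_add_distrib]
      refine sum_congr rfl fun t _ => ?_
      simp only [if_true, if_neg hne, if_neg hne.symm, add_zero]
      rw [show r t b + γ t - (r t a + α t) = r t b - r t a - α t + γ t by abel]
      ring
    · rw [if_neg fun h => hbl h.2, ← (gad_fam_sum hF hα3 hab.ne' f).1]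
      refine sum_congr rfl fun t _ => ?_
      simp only [if_true, if_neg hne, if_neg hab.ne', if_neg hbl, add_zero]
      congr 2
      abel
  rw [if_neg fun h => hai h.1]
  by_cases hal : a = l
  · subst hal
    rw [← (gad_fam_sum hF₀ hγ3 hab.ne' f).1]
    refine sum_congr rfl fun t _ => ?_
    simp only [if_true, if_neg hai, if_neg hab.ne', if_neg (hil.trans hab).ne', add_zero]
    congr 2
    abel
  by_cases hbi : b = i
  · subst hbi
    rw [← (gad_fam_sum hF hα3 hai f).2]
    refine sum_congr rfl fun t _ => ?_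
    simp only [if_true, if_neg hai, if_neg hal, if_neg hne, add_zero]
    congr 2
    abel
  by_cases hbl : b = l
  · subst hbl
    rw [← (gad_fam_sum hF₀ hγ3 hal f).2]
    refine sum_congr rfl fun t _ => ?_
    simp only [if_true, if_neg hai, if_neg hal, if_neg hbi, add_zero]
    congr 2
    abel
  simp [hai, hal, hbi, hbl]

/-- Greedy choice of disjoint local changes, one for each pair of columns. -/
theorem absorb (r : T → Fin k → H) (D : Fin k → Fin k → (H → ℤ) → ℤ) (U₀ : Finset T)
    (R : Fin k → Fin k → Finset T) (S : ℕ) (hR : ∀ i l, i < l → (R i l).card ≤ 2)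
    (hR₀ : ∀ i l, i < l → Disjoint U₀ (R i l))
    (hRR : ∀ i l i' l', i < l → i' < l' → (i, l) ≠ (i', l') → Disjoint (R i l) (R i' l'))
    (hG : ∀ i l, i < l → ∀ U : Finset T, U₀ ⊆ U → U.card ≤ U₀.card + k ^ 2 * (S + 2) →
      Disjoint U (R i l) → ∃ N, Disjoint N U ∧ N.card ≤ S ∧ Gad r i l (D i l) N) :
    ∃ r' : T → Fin k → H, ∀ a b, a < b → ∀ f : H → ℤ,
      ∑ t ∈ U₀ᶜ, f (r' t b - r' t a) = ∑ t ∈ U₀ᶜ, f (r t b - r t a) + D a b f := by
  set P : Finset (Fin k × Fin k) := univ.filter fun q => q.1 < q.2 with hP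
  have hPc : P.card ≤ k ^ 2 := (card_filter_le _ _).trans (by simp [sq])
  have hmem : ∀ q, q ∈ P ↔ q.1 < q.2 := fun q => by simp [hP]
  have key : ∀ Q : Finset (Fin k × Fin k), Q ⊆ P → ∃ (M : Finset T) (r' : T → Fin k → H),
      M.card ≤ Q.card * S ∧ Disjoint M U₀ ∧ (∀ q ∈ P, q ∉ Q → Disjoint M (R q.1 q.2)) ∧
      (∀ t, t ∉ M → r' t = r t) ∧ ∀ a b, a < b → ∀ f : H → ℤ,
        ∑ t, (f (r' t b - r' t a) - f (r t b - r t a)) = if (a, b) ∈ Q then D a b f else 0 := by
    intro Q
    induction Q using Finset.induction_on with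
    | empty => exact fun _ => ⟨∅, r, by simp, by simp, by simp, by simp, by simp⟩
    | insert q Q hq ih =>
      intro hQ
      obtain ⟨M, r', hM, hM0, hMR, hr', hs⟩ := ih ((subset_insert _ _).trans hQ)
      have hqP := hQ (mem_insert_self _ _)
      have hq' := (hmem q).1 hqP
      obtain ⟨N, hN, hNc, r'', hr'', hs'⟩ := hG q.1 q.2 hq'
        (U₀ ∪ (M ∪ (P.erase q).biUnion fun q' => R q'.1 q'.2)) subset_union_left
        (by
          refine (card_union_le _ _).trans (Nat.add_le_add_left ((card_union_le _ _).trans ?_) _)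
          have h1 : ((P.erase q).biUnion fun q' => R q'.1 q'.2).card ≤ (P.erase q).card * 2 :=
            card_biUnion_le_card_mul _ _ _ fun q' h => hR _ _ ((hmem q').1 (mem_of_mem_erase h))
          have h2 : (P.erase q).card ≤ k ^ 2 := card_erase_le.trans hPc
          have h3 : Q.card ≤ k ^ 2 := (card_le_card ((subset_insert _ _).trans hQ)).trans hPc
          have h4 := Nat.mul_le_mul_right S h3
          rw [mul_add]
          omega)
        (by
          rw [disjoint_union_left, disjoint_union_left, disjoint_biUnion_left]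
          exact ⟨hR₀ _ _ hq', hMR q hqP hq, fun q' h => hRR _ _ _ _
            ((hmem q').1 (mem_of_mem_erase h)) hq' (ne_of_mem_erase h)⟩)
      rw [disjoint_union_right, disjoint_union_right, disjoint_biUnion_right] at hN
      refine ⟨M ∪ N, fun t => if t ∈ N then r'' t else r' t, ?_, disjoint_union_left.2 ⟨hM0, hN.1⟩,
        fun q' h1 h2 => ?_, fun t ht => ?_, fun a b hab f => ?_⟩
      · rw [card_insert_of_notMem hq, add_mul, one_mul]
        exact (card_union_le _ _).trans (add_le_add hM hNc)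
      · rw [mem_insert, not_or] at h2
        exact disjoint_union_left.2 ⟨hMR q' h1 h2.2, hN.2.2 q' (mem_erase.2 ⟨h2.1, h1⟩)⟩
      · rw [mem_union, not_or] at ht
        simp only [if_neg ht.2, hr' t ht.1]
      · have : (if (a, b) ∈ insert q Q then D a b f else 0) =
            (if (a, b) ∈ Q then D a b f else 0) +
              if a = q.1 ∧ b = q.2 then D q.1 q.2 f else 0 := by
          by_cases h : (a, b) = q
          · subst h
            simp [hq]
          · rw [if_neg fun h' : a = q.1 ∧ b = q.2 => h (Prod.ext h'.1 h'.2)]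
            simp [h]
        rw [this, ← hs a b hab f, ← hs' a b hab f, ← sum_add_distrib]
        refine sum_congr rfl fun t _ => ?_
        by_cases ht : t ∈ N
        · simp only [if_pos ht, hr' t (disjoint_left.1 hN.2.1 ht)]
          ring
        · simp only [if_neg ht, hr'' t ht]
          ring
  obtain ⟨M, r', -, hM0, -, hr', hs⟩ := key P Subset.rfl
  refine ⟨r', fun a b hab f => ?_⟩
  have h := hs a b hab f
  rw [if_pos ((hmem (a, b)).2 hab), ← sum_subset (subset_univ U₀ᶜ), sum_sub_distrib] at h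
  · linarith
  · intro t _ ht
    rw [hr' t (disjoint_right.1 hM0 (by simpa using ht)), sub_self]

omit [AddCommGroup H] in
private lemma gad_uniq [Fintype H] {J : Type} [Fintype J] (d : J → H)
    (h : ∀ f : H → ℤ, ∑ j, f (d j) = ∑ x, f x) : Function.Bijective d := by
  classical
  have hc : ∀ x, (univ.filter fun j => d j = x).card = 1 := fun x => by
    have := h fun u => if u = x then 1 else 0
    rw [sum_boole, sum_ite_eq', if_pos (mem_univ _)] at this
    exact_mod_cast this
  refine ⟨fun j j' e => ?_, fun x => ?_⟩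
  · exact card_le_one.1 (hc (d j')).le j (by simp [e]) j' (by simp)
  · obtain ⟨j, hj⟩ := card_pos.1 ((hc x).symm ▸ one_pos)
    exact ⟨j, by simpa using hj⟩

/-- A difference matrix gives an orthogonal array. -/
theorem good_of_dm [Fintype H] {J : Type} [Fintype J] (y : J → Fin k → H)
    (h : ∀ a b, a < b → ∀ f : H → ℤ, ∑ j, f (y j b - y j a) = ∑ x, f x) :
    Good k (Fintype.card H) := by
  refine good_of_isOA (ρ := J × H) (x := fun q m => y q.1 m + q.2)
    (isOA_of_lt fun a b hab => ?_) (by simp) rfl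
  have hb := gad_uniq _ (h a b hab)
  refine ⟨fun q q' e => ?_, fun u => ?_⟩
  · obtain ⟨e1, e2⟩ := Prod.mk.inj e
    have e3 : q.1 = q'.1 := hb.1 (by
      show y q.1 b - y q.1 a = y q'.1 b - y q'.1 a
      rw [← add_sub_add_right_eq_sub _ _ q.2, e1, e2, add_sub_add_right_eq_sub])
    refine Prod.ext e3 ?_
    rw [e3] at e1
    exact add_left_cancel e1
  · obtain ⟨j, hj⟩ := hb.2 (u.2 - u.1)
    refine ⟨(j, u.1 - y j a), Prod.ext (by simp) ?_⟩
    show y j b + (u.1 - y j a) = u.2
    rw [← sub_add_cancel u.2 u.1, ← hj]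
    simp only []
    abel

/-- A quasi-difference matrix with one hole in each column gives an orthogonal array. -/
theorem good_of_qdm [Fintype H] {J : Type} [Fintype J] (y : J → Fin k → H) (z : Fin k → Fin k → H)
    (h : ∀ a b, a < b → ∀ f : H → ℤ, ∑ j, f (y j b - y j a) +
      ∑ m ∈ (univ.erase a).erase b, f (z m b - z m a) = ∑ x, f x) :
    Good k (Fintype.card H + 1) := by
  refine good_of_isOA (ρ := (J × H) ⊕ (Fin k × H) ⊕ Unit) (α := Option H)
    (x := Sum.elim (fun q m => some (y q.1 m + q.2)) (Sum.elim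
      (fun q m => if m = q.1 then none else some (z q.1 m + q.2)) fun _ _ => none))
    (isOA_of_lt fun a b hab => ?_) (by simp) (by simp)
  have hb := gad_uniq (J := J ⊕ ↥((univ.erase a).erase b))
    (Sum.elim (fun j => y j b - y j a) fun m => z m b - z m a) fun f => by
      rw [← h a b hab f, Fintype.sum_sum_type,
        ← sum_coe_sort ((univ.erase a).erase b) fun m => f (z m b - z m a)]
      rfl
  have hab' := hab.ne
  refine (Fintype.bijective_iff_surjective_and_card _).2 ⟨?_, ?_⟩
  · rintro ⟨_ | u, _ | v⟩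
    · exact ⟨.inr (.inr ()), rfl⟩
    · exact ⟨.inr (.inl (a, v - z a b)), by simp [hab'.symm]⟩
    · exact ⟨.inr (.inl (b, u - z b a)), by simp [hab']⟩
    · obtain ⟨j | ⟨m, hm⟩, hj⟩ := hb.2 (v - u)
      · refine ⟨.inl (j, u - y j a), ?_⟩
        have : y j b + (u - y j a) = v := by
          rw [← sub_add_cancel v u, ← hj]
          simp only [Sum.elim_inl]
          abel
        simp [this]
      · have hm' : m ≠ b ∧ m ≠ a := by simpa using hm
        refine ⟨.inr (.inl (m, u - z m a)), ?_⟩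
        have : z m b + (u - z m a) = v := by
          rw [← sub_add_cancel v u, ← hj]
          simp only [Sum.elim_inr]
          abel
        simp [this, hm'.1.symm, hm'.2.symm]
  · have hc := Fintype.card_of_bijective hb
    have h2 : ((univ.erase a).erase b).card + 2 = k := by
      rw [card_erase_of_mem (by simp [hab'.symm]), card_erase_of_mem (mem_univ _), card_univ,
        Fintype.card_fin]
      have := b.2
      have : (a : ℕ) < b := hab
      omega
    simp only [Fintype.card_sum, Fintype.card_prod, Fintype.card_coe, Fintype.card_fin,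
      Fintype.card_unit, Fintype.card_option] at hc ⊢
    nth_rewrite 1 [← h2]
    rw [← hc]
    ring

end Pool.Agent.Lib.MP_ce212d_co
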