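import Pool.Agent.Lib.MP_ce212d_co.Basic

/-!
A frame on the non-zero vectors of a plane modulo sign, and its fillings.
-/

namespace Pool.Agent.Lib.MP_ce212d_co.Half

open Function

/-- A set of rows in which any two columns show every pair of symbols exactly once. -/
def Blk {ι α : Type} (B : (ι → α) → Prop) : Prop :=
  ∀ i l, i ≠ l → ∀ a b, ∃! r, B r ∧ r i = a ∧ r l = b

theorem blk_of_isOA {ρ ι α : Type} {x : ρ → ι → α} (h : IsOA x) : Blk fun r => ∃ t, r = x t := by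
  intro i l hil a b
  obtain ⟨t, ht⟩ := (h i l hil).2 (a, b)
  obtain ⟨h1, h2⟩ := Prod.mk.inj ht
  refine ⟨x t, ⟨⟨t, rfl⟩, h1, h2⟩, ?_⟩
  rintro _ ⟨⟨t', rfl⟩, h3, h4⟩
  rw [(h i l hil).1 (a₁ := t') (a₂ := t) (Prod.ext (h3.trans h1.symm) (h4.trans h2.symm))]

theorem good_of_blk {k n : ℕ} {α : Type} [Fintype α] {B : (Fin k → α) → Prop} (h : Blk B)
    (hn : Fintype.card α = n) : Good k n := by
  refine good_of_isOA (x := fun (r : {r // B r}) i => r.1 i)
    (fun i l hil => ⟨fun r r' e => ?_, fun p => ?_⟩) (Fintype.card_fin k).ge hn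
  · obtain ⟨h1, h2⟩ := Prod.mk.inj e
    exact Subtype.ext ((h i l hil _ _).unique ⟨r.2, rfl, rfl⟩ ⟨r'.2, h1.symm, h2.symm⟩)
  · obtain ⟨r, ⟨h1, h2, h3⟩, -⟩ := h i l hil p.1 p.2
    exact ⟨⟨r, h1⟩, Prod.ext h2 h3⟩

theorem blk_const {ι α : Type} {B : (ι → α) → Prop} (h : Blk B) (s : α) :
    ∃ B' : (ι → α) → Prop, Blk B' ∧ B' fun _ => s := by
  classical
  by_cases hx : ∃ i l : ι, i ≠ l
  · obtain ⟨i₀, l₀, h₀⟩ := hx
    obtain ⟨r₀, ⟨hr₀, -⟩, -⟩ := h i₀ l₀ h₀ s s
    refine ⟨fun r => B fun i => Equiv.swap (r₀ i) s (r i), fun i l hil a b => ?_, by simpa using hr₀⟩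
    obtain ⟨r₁, ⟨h1, h2, h3⟩, h4⟩ := h i l hil (Equiv.swap (r₀ i) s a) (Equiv.swap (r₀ l) s b)
    refine ⟨fun j => Equiv.swap (r₀ j) s (r₁ j), ⟨by simpa using h1, by simp [h2], by simp [h3]⟩, ?_⟩
    rintro r ⟨h5, h6, h7⟩
    have h8 := h4 _ ⟨h5, by simp [h6], by simp [h7]⟩
    funext j
    rw [← h8]
    simp
  · exact ⟨fun _ => True, fun i l hil => (hx ⟨i, l, hil⟩).elim, trivial⟩

theorem good_of_mols {r n : ℕ} (L : Fin r → Fin n → Fin n → Fin n)
    (h1 : ∀ a i, Bijective (L a i)) (h2 : ∀ a j, Bijective fun i => L a i j)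
    (h3 : ∀ a b, a ≠ b → Injective fun x : Fin n × Fin n => (L a x.1 x.2, L b x.1 x.2)) :
    Good (r + 2) n := by
  let x : Fin n × Fin n → Fin r ⊕ Bool → Fin n := fun p c =>
    match c with
    | .inl a => L a p.1 p.2
    | .inr true => p.1
    | .inr false => p.2
  have hx : IsOA x := by
    intro i l hil
    refine Finite.injective_iff_bijective.1 ?_
    rintro ⟨s, t⟩ ⟨s', t'⟩ e
    obtain ⟨e1, e2⟩ := Prod.mk.inj e
    rcases i with a | _ | _ <;> rcases l with b | _ | _ <;> simp only [x] at e1 e2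
    · exact h3 a b (fun hh => hil (by rw [hh])) (Prod.ext e1 e2)
    · subst e2; exact Prod.ext ((h2 a t).1 e1) rfl
    · subst e2; exact Prod.ext rfl ((h1 a s).1 e1)
    · subst e1; exact Prod.ext ((h2 b t).1 e2) rfl
    · exact (hil rfl).elim
    · exact Prod.ext e2 e1
    · subst e1; exact Prod.ext rfl ((h1 b s).1 e2)
    · exact Prod.ext e1 e2
    · exact (hil rfl).elim
  exact good_of_isOA hx (by simp) (by simp)

/-- Inflating a frame and filling its holes. -/
theorem fill {ι P A M U : Type} [Nonempty P] [Subsingleton U] {B : (ι → P × A) → Prop}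
    (h1 : ∀ r, B r → ∀ i l, i ≠ l → (r i).1 ≠ (r l).1)
    (h2 : ∀ i l, i ≠ l → ∀ σ τ : P × A, σ.1 ≠ τ.1 → ∃! r, B r ∧ r i = σ ∧ r l = τ)
    {Bm : (ι → M) → Prop} (hm : Blk Bm) {Bf : (ι → (A × M) ⊕ U) → Prop} (hf : Blk Bf)
    (hc : ∀ u, Bf fun _ => .inr u) : ∃ B' : (ι → (P × A × M) ⊕ U) → Prop, Blk B' := by
  let emb : P → (A × M) ⊕ U → (P × A × M) ⊕ U := fun p => Sum.map (fun c => (p, c)) id
  have einj : ∀ p, Injective (emb p) := fun p =>
    Sum.map_injective.2 ⟨fun c c' e => (Prod.mk.inj e).2, injective_id⟩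
  have el : ∀ p z p' c, emb p z = .inl (p', c) → p = p' := by
    rintro p (z | z) p' c e
    · exact (Prod.mk.inj (Sum.inl.inj e)).1
    · cases e
  have er : ∀ p z u, emb p z = .inr u → z = .inr u := by
    rintro p (z | z) u e
    · cases e
    · exact congrArg _ (Sum.inr.inj e)
  refine ⟨fun r => (∃ b c, B b ∧ Bm c ∧ r = fun i => .inl ((b i).1, (b i).2, c i)) ∨
    ∃ p f, Bf f ∧ r = fun i => emb p (f i), fun i l hil a b => ?_⟩
  have same : ∀ p a' b', ∃! r : ι → (P × A × M) ⊕ U,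
      ((∃ b c, B b ∧ Bm c ∧ r = fun i => .inl ((b i).1, (b i).2, c i)) ∨
        ∃ p f, Bf f ∧ r = fun i => emb p (f i)) ∧ r i = emb p a' ∧ r l = emb p b' := by
    intro p a' b'
    obtain ⟨f, ⟨f1, f2, f3⟩, f4⟩ := hf i l hil a' b'
    refine ⟨fun j => emb p (f j), ⟨Or.inr ⟨p, f, f1, rfl⟩, congrArg (emb p) f2,
      congrArg (emb p) f3⟩, ?_⟩
    rintro r ⟨⟨b, c, hb, -, rfl⟩ | ⟨p', f', g1, rfl⟩, g2, g3⟩
    · exact (h1 b hb i l hil ((el _ _ _ _ g2.symm).symm.trans (el _ _ _ _ g3.symm))).elim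
    · have key : p' = p → (fun j => emb p' (f' j)) = fun j => emb p (f j) := by
        rintro rfl
        rw [f4 f' ⟨g1, einj _ g2, einj _ g3⟩]
      rcases a' with a' | a'
      · exact key (el _ _ _ _ g2)
      rcases b' with b' | b'
      · exact key (el _ _ _ _ g3)
      have e1 : (fun _ => Sum.inr a') = f := f4 _ ⟨hc a', rfl, by rw [Subsingleton.elim a' b']⟩
      have e2 : f' = f := f4 _ ⟨g1, er _ _ _ g2, er _ _ _ g3⟩
      rw [e2, ← e1]
      rfl
  rcases a with ⟨p, c, d⟩ | a <;> rcases b with ⟨p', c', d'⟩ | b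
  · by_cases hp : p = p'
    · subst hp
      exact same p (.inl (c, d)) (.inl (c', d'))
    · obtain ⟨b, ⟨b1, b2, b3⟩, b4⟩ := h2 i l hil (p, c) (p', c') hp
      obtain ⟨e, ⟨e1, e2, e3⟩, e4⟩ := hm i l hil d d'
      refine ⟨fun j => .inl ((b j).1, (b j).2, e j), ⟨Or.inl ⟨b, e, b1, e1, rfl⟩,
        by simp only [b2, e2], by simp only [b3, e3]⟩, ?_⟩
      rintro r ⟨⟨b', e', g1, g2, rfl⟩ | ⟨p'', f', -, rfl⟩, g3, g4⟩
      · simp only [Sum.inl.injEq, Prod.mk.injEq] at g3 g4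
        rw [b4 b' ⟨g1, Prod.ext g3.1 g3.2.1, Prod.ext g4.1 g4.2.1⟩, e4 e' ⟨g2, g3.2.2, g4.2.2⟩]
      · exact (hp ((el _ _ _ _ g3).symm.trans (el _ _ _ _ g4))).elim
  · exact same p (.inl (c, d)) (.inr b)
  · exact same p' (.inr a) (.inl (c', d'))
  · exact same (Classical.arbitrary P) (.inr a) (.inr b)

section Frame

variable {F : Type} [Field F]

/-- Representatives of the directions of the plane. -/
def w : Option F → F × F
  | none => (0, 1)
  | some c => (1, c)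

/-- The determinant of two vectors. -/
def det (x y : F × F) : F := x.1 * y.2 - x.2 * y.1

/-- The linear map with columns `x`, `y` at the vector `v`. -/
def app (x y v : F × F) : F × F := (v.1 * x.1 + v.2 * y.1, v.1 * x.2 + v.2 * y.2)

/-- A half system: one of `a`, `-a` for every non-zero `a`. -/
structure Hs (H : F → Prop) : Prop where
  tot : ∀ a, a ≠ 0 → H a ∨ H (-a)
  one : ∀ a, H a → ¬H (-a)

/-- The vector `z` has the symbol `σ`. -/
def Rep {H : F → Prop} (σ : Option F × {a // H a}) (z : F × F) : Prop :=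
  ∃ ε : F, (ε = 1 ∨ ε = -1) ∧ z = (ε * σ.2.1) • w σ.1

theorem Hs.ne {H : F → Prop} (h : Hs H) {a : F} (ha : H a) : a ≠ 0 := by
  rintro rfl
  exact h.one 0 ha (by simpa using ha)

theorem Hs.sign {H : F → Prop} (h : Hs H) {a b ε : F} (ha : H a) (hb : H b)
    (hε : ε = 1 ∨ ε = -1) (e : b = ε * a) : ε = 1 := by
  rcases hε with h1 | rfl
  · exact h1
  · exact (h.one a ha (by rwa [e, neg_one_mul] at hb)).elim

theorem sign_mul {ε δ : F} (hε : ε = 1 ∨ ε = -1) (hδ : δ = 1 ∨ δ = -1) :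
    ε * δ = 1 ∨ ε * δ = -1 := by
  rcases hε with rfl | rfl <;> rcases hδ with rfl | rfl <;> simp

theorem sign_sq {ε : F} (hε : ε = 1 ∨ ε = -1) : ε * ε = 1 := by
  rcases hε with rfl | rfl <;> simp

theorem det_app (x y v v' : F × F) : det (app x y v) (app x y v') = det x y * det v v' := by
  simp only [det, app]; ring

theorem det_smul (s t : F) (x y : F × F) : det (s • x) (t • y) = s * t * det x y := by
  simp only [det, Prod.smul_fst, Prod.smul_snd, smul_eq_mul]; ring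

theorem det_self (x : F × F) : det x x = 0 := by simp only [det]; ring

theorem det_w {p p' : Option F} (h : p ≠ p') : det (w p) (w p') ≠ 0 := by
  rcases p with _ | c <;> rcases p' with _ | c'
  · exact (h rfl).elim
  · simp [det, w]
  · simp [det, w]
  · simpa [det, w, sub_eq_zero] using fun e : c' = c => h (by rw [e])

theorem w_cancel {s t : F} {p : Option F} (e : s • w p = t • w p) : s = t := by
  rcases p with _ | c
  · simpa [w] using congrArg Prod.snd e
  · simpa [w] using congrArg Prod.fst e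

theorem app_ne {x y : F × F} (h : det x y ≠ 0) (p : Option F) : app x y (w p) ≠ 0 := by
  intro e
  obtain ⟨p', hp⟩ := exists_ne p
  have h1 := det_app x y (w p') (w p)
  rw [e] at h1
  exact mul_ne_zero h (det_w hp) (by rw [← h1]; simp [det])

theorem rep_ex {H : F → Prop} (h : Hs H) {z : F × F} (hz : z ≠ 0) :
    ∃ σ : Option F × {a // H a}, Rep σ z := by
  obtain ⟨p, t, ht, e⟩ : ∃ (p : Option F) (t : F), t ≠ 0 ∧ z = t • w p := by
    by_cases h1 : z.1 = 0
    · refine ⟨none, z.2, fun h2 => hz (Prod.ext h1 h2), Prod.ext ?_ ?_⟩ <;> simp [w, h1]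
    · refine ⟨some (z.2 / z.1), z.1, h1, Prod.ext (by simp [w]) ?_⟩
      simp only [w, Prod.smul_snd, smul_eq_mul]
      field_simp
  rcases h.tot t ht with h1 | h1
  · exact ⟨(p, ⟨t, h1⟩), 1, Or.inl rfl, by simpa using e⟩
  · exact ⟨(p, ⟨-t, h1⟩), -1, Or.inr rfl, by simpa using e⟩

theorem rep_uniq {H : F → Prop} (h : Hs H) {σ τ : Option F × {a // H a}} {z : F × F} {ε : F}
    (hε : ε = 1 ∨ ε = -1) (h1 : Rep σ z) (h2 : Rep τ (ε • z)) : σ = τ := by
  obtain ⟨p, a, ha⟩ := σ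
  obtain ⟨p', b, hb⟩ := τ
  obtain ⟨s, hs, e1⟩ := h1
  obtain ⟨t, ht, e2⟩ := h2
  simp only at e1 e2
  have s0 : s ≠ 0 := left_ne_zero_of_mul_eq_one (sign_sq hs)
  have t0 : t ≠ 0 := left_ne_zero_of_mul_eq_one (sign_sq ht)
  have hp : p = p' := by
    by_contra hp
    have h3 : det z (ε • z) = 0 := by
      have := det_smul 1 ε z z
      rwa [one_smul, det_self, mul_zero] at this
    rw [e2] at h3
    rw [e1, det_smul] at h3
    exact mul_ne_zero (mul_ne_zero (mul_ne_zero s0 (h.ne ha)) (mul_ne_zero t0 (h.ne hb)))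
      (det_w hp) h3
  subst hp
  rw [e1, smul_smul] at e2
  have e3 := w_cancel e2
  have e4 : b = t * ε * s * a := by linear_combination -t * e3 - b * sign_sq ht
  have e5 := h.sign ha hb (sign_mul (sign_mul ht hε) hs) e4
  rw [e5, one_mul] at e4
  subst e4
  rfl

theorem rep_two {H : F → Prop} {σ : Option F × {a // H a}} {z z' : F × F} (h1 : Rep σ z)
    (h2 : Rep σ z') : ∃ ε : F, (ε = 1 ∨ ε = -1) ∧ z' = ε • z := by
  obtain ⟨s, hs, e1⟩ := h1
  obtain ⟨t, ht, e2⟩ := h2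
  refine ⟨t * s, sign_mul ht hs, ?_⟩
  rw [e1, e2, smul_smul]
  congr 1
  linear_combination -(t * σ.2.1) * sign_sq hs

theorem solve {v v' : F × F} (h : det v v' ≠ 0) (x₀ y₀ : F × F) :
    ∃ x y, app x y v = x₀ ∧ app x y v' = y₀ := by
  refine ⟨((v'.2 * x₀.1 - v.2 * y₀.1) / det v v', (v'.2 * x₀.2 - v.2 * y₀.2) / det v v'),
    ((v.1 * y₀.1 - v'.1 * x₀.1) / det v v', (v.1 * y₀.2 - v'.1 * x₀.2) / det v v'),
    Prod.ext ?_ ?_, Prod.ext ?_ ?_⟩ <;> simp only [app] <;> field_simp <;> simp only [det] <;> ring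

theorem app_ext {x y x' y' v v' : F × F} {ε : F} (h : det v v' ≠ 0)
    (h1 : app x' y' v = ε • app x y v) (h2 : app x' y' v' = ε • app x y v') (u : F × F) :
    app x' y' u = ε • app x y u := by
  have a1 := congrArg Prod.fst h1
  have a2 := congrArg Prod.snd h1
  have b1 := congrArg Prod.fst h2
  have b2 := congrArg Prod.snd h2
  simp only [app, Prod.smul_mk, smul_eq_mul] at a1 a2 b1 b2 ⊢
  refine Prod.ext (mul_left_cancel₀ h ?_) (mul_left_cancel₀ h ?_) <;> simp only [det]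
  · linear_combination (u.1 * v'.2 - u.2 * v'.1) * a1 + (u.2 * v.1 - u.1 * v.2) * b1
  · linear_combination (u.1 * v'.2 - u.2 * v'.1) * a2 + (u.2 * v.1 - u.1 * v.2) * b2

/-- The frame: linear maps whose determinant lies in the half system, modulo sign. -/
theorem frame {H : F → Prop} (h : Hs H) {ι : Type} {j : ι → Option F} (hj : Injective j) :
    ∃ B : (ι → Option F × {a // H a}) → Prop,
      (∀ r, B r → ∀ i l, i ≠ l → (r i).1 ≠ (r l).1) ∧
      ∀ i l, i ≠ l → ∀ σ τ : Option F × {a // H a}, σ.1 ≠ τ.1 →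
        ∃! r, B r ∧ r i = σ ∧ r l = τ := by
  refine ⟨fun r => ∃ x y, H (det x y) ∧ ∀ i, Rep (r i) (app x y (w (j i))), ?_, ?_⟩
  · rintro r ⟨x, y, hd, hr⟩ i l hil e
    obtain ⟨s, -, e1⟩ := hr i
    obtain ⟨t, -, e2⟩ := hr l
    have h1 := det_app x y (w (j i)) (w (j l))
    rw [e1, e2, e, det_smul, det_self, mul_zero] at h1
    exact mul_ne_zero (h.ne hd) (det_w (hj.ne hil)) h1.symm
  · intro i l hil σ τ hne
    have hD := det_w (hj.ne hil)
    obtain ⟨x, y, hd, r1, r2⟩ : ∃ x y, H (det x y) ∧ Rep σ (app x y (w (j i))) ∧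
        Rep τ (app x y (w (j l))) := by
      obtain ⟨x, y, e1, e2⟩ := solve hD ((1 * σ.2.1) • w σ.1) ((1 * τ.2.1) • w τ.1)
      obtain ⟨x', y', e3, e4⟩ := solve hD ((1 * σ.2.1) • w σ.1) ((-1 * τ.2.1) • w τ.1)
      have d1 := det_app x y (w (j i)) (w (j l))
      have d2 := det_app x' y' (w (j i)) (w (j l))
      rw [e1, e2, det_smul] at d1
      rw [e3, e4, det_smul] at d2
      have d3 : det x' y' = -det x y := mul_right_cancel₀ hD (by linear_combination -d1 - d2)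
      have d4 : det x y ≠ 0 := by
        intro e
        rw [e, zero_mul, one_mul, one_mul] at d1
        exact mul_ne_zero (mul_ne_zero (h.ne σ.2.2) (h.ne τ.2.2)) (det_w hne) d1
      rcases h.tot _ d4 with h1 | h1
      · exact ⟨x, y, h1, ⟨1, Or.inl rfl, e1⟩, ⟨1, Or.inl rfl, e2⟩⟩
      · exact ⟨x', y', d3 ▸ h1, ⟨1, Or.inl rfl, e3⟩, ⟨-1, Or.inr rfl, e4⟩⟩
    choose r hr using fun i' => rep_ex h (app_ne (h.ne hd) (j i'))
    refine ⟨r, ⟨⟨x, y, hd, hr⟩, rep_uniq h (Or.inl rfl) (hr i) (by rwa [one_smul]),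
      rep_uniq h (Or.inl rfl) (hr l) (by rwa [one_smul])⟩, ?_⟩
    rintro r' ⟨⟨x', y', hd', hr'⟩, rfl, rfl⟩
    obtain ⟨s, hs, e1⟩ := rep_two r1 (hr' i)
    obtain ⟨t, ht, e2⟩ := rep_two r2 (hr' l)
    have d1 := det_app x' y' (w (j i)) (w (j l))
    rw [e1, e2, det_smul, det_app] at d1
    have d2 : det x' y' = s * t * det x y := mul_right_cancel₀ hD (by linear_combination -d1)
    have d3 := h.sign hd hd' (sign_mul hs ht) d2
    have d4 : t = s := by linear_combination s * d3 - t * sign_sq hs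
    subst d4
    funext i'
    exact (rep_uniq h ht (hr i') (by rw [← app_ext hD e1 e2]; exact hr' i')).symm

theorem hs_ex [Fintype F] {h : ℕ} (hq : Fintype.card F = 2 * h + 1) :
    ∃ H : F → Prop, Hs H ∧ Nat.card {a // H a} = h := by
  classical
  let e := Fintype.equivFin F
  have h2 : ringChar F ≠ 2 := fun hh => by
    have := FiniteField.even_card_iff_char_two.1 hh
    omega
  have hH : Hs fun a : F => e a < e (-a) := by
    refine ⟨fun a ha => ?_, fun a h1 h3 => ?_⟩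
    · rcases lt_trichotomy (e a) (e (-a)) with h1 | h1 | h1
      · exact Or.inl h1
      · exact (ha ((Ring.eq_self_iff_eq_zero_of_char_ne_two h2).1 (e.injective h1).symm)).elim
      · exact Or.inr (by rwa [neg_neg])
    · rw [neg_neg] at h3
      exact lt_asymm h1 h3
  refine ⟨_, hH, ?_⟩
  let f : Option ({a // e a < e (-a)} ⊕ {a // e a < e (-a)}) → F := fun o =>
    match o with
    | none => 0
    | some (.inl a) => a.1
    | some (.inr a) => -a.1
  have hf : Bijective f := by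
    refine ⟨?_, fun a => ?_⟩
    · rintro (_ | a | a) (_ | b | b) hab <;> simp only [f] at hab
      · rfl
      · exact (hH.ne b.2 hab.symm).elim
      · exact (hH.ne b.2 (neg_eq_zero.1 hab.symm)).elim
      · exact (hH.ne a.2 hab).elim
      · rw [Subtype.ext hab]
      · exact (hH.one _ b.2 (hab ▸ a.2)).elim
      · exact (hH.ne a.2 (neg_eq_zero.1 hab)).elim
      · exact (hH.one _ a.2 (hab.symm ▸ b.2)).elim
      · rw [Subtype.ext (neg_injective hab)]
    · by_cases ha : a = 0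
      · exact ⟨none, ha.symm⟩
      rcases hH.tot a ha with h1 | h1
      · exact ⟨some (.inl ⟨a, h1⟩), rfl⟩
      · exact ⟨some (.inr ⟨-a, h1⟩), neg_neg a⟩
  have hc := Fintype.card_of_bijective hf
  rw [Fintype.card_option, Fintype.card_sum] at hc
  rw [Nat.card_eq_fintype_card]
  omega

end Frame

theorem half {q h k m u : ℕ} (hq : IsPrimePow q) (hh : q = 2 * h + 1) (hk : k ≤ q + 1) (hu : u ≤ 1)
    (h1 : Good k m) (h2 : Good k (m * h + u)) : Good k (m * h * (q + 1) + u) := by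
  classical
  obtain ⟨p, n, hp, hn, hpn⟩ := (isPrimePow_nat_iff q).1 hq
  have : Fact p.Prime := ⟨hp⟩
  let F := GaloisField p n
  let _ : Fintype F := Fintype.ofFinite F
  have hF : Fintype.card F = q := by
    rw [← hpn, ← Nat.card_eq_fintype_card]
    exact GaloisField.card p n hn.ne'
  obtain ⟨H, hH, hA⟩ := hs_ex (hF.trans hh)
  rw [Nat.card_eq_fintype_card] at hA
  obtain ⟨j⟩ : Nonempty (Fin k ↪ Option F) :=
    Function.Embedding.nonempty_of_card_le (by simpa [hF] using hk)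
  obtain ⟨B, b1, b2⟩ := frame hH j.injective
  obtain ⟨ρ, x, hx⟩ := h1
  obtain ⟨ρ', x', hx'⟩ := h2.exists_isOA (Fin k) (({a // H a} × Fin m) ⊕ Fin u) (by simp)
    (by simp [hA, mul_comm])
  have : Subsingleton (Fin u) := Fin.subsingleton_iff_le_one.2 hu
  obtain ⟨Bf, f1, f2⟩ : ∃ Bf : (Fin k → ({a // H a} × Fin m) ⊕ Fin u) → Prop,
      Blk Bf ∧ ∀ t, Bf fun _ => .inr t := by
    rcases isEmpty_or_nonempty (Fin u) with he | ⟨⟨t⟩⟩
    · exact ⟨_, blk_of_isOA hx', fun t => he.elim t⟩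
    · obtain ⟨Bf, f1, f2⟩ := blk_const (blk_of_isOA hx') (.inr t)
      exact ⟨Bf, f1, fun t' => Subsingleton.elim t t' ▸ f2⟩
  obtain ⟨B', hB⟩ := fill b1 b2 (blk_of_isOA hx) f1 f2
  refine good_of_blk hB ?_
  simp only [Fintype.card_sum, Fintype.card_prod, Fintype.card_option, Fintype.card_fin, hA, hF]
  ring

end Pool.Agent.Lib.MP_ce212d_co.Half
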