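import Pool.Agent.Lib.MP_ce212d_co.Basic

/-!
An orthogonal array on `p * (p + 1)` symbols with `p + 1` columns, `p = 3 ^ e`, `e` odd.
The symbols are the values and the first order jets of quadratic polynomials.
-/

namespace Pool.Agent.Lib.MP_ce212d_co

section
variable {K : Type} [Field K] {m : ℕ}

private theorem jt_sign (h1 : ∀ c : K, c ≠ 0 → c ^ m * c ^ m = 1) {c : K} (hc : c ≠ 0) :
    c ^ m = 1 ∨ c ^ m = -1 :=
  mul_self_eq_one_iff.1 (h1 c hc)

private theorem jt_chi (h3 : (3 : K) = 0) (hm : Odd m) (h1 : ∀ c : K, c ≠ 0 → c ^ m * c ^ m = 1)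
    (t : K) : ((t + 1) ^ (m + 2) + t ^ (m + 2) + 1) ^ m = -(t + 1) ^ m ∧
      ((t + 1) ^ (m + 2) + t ^ (m + 2) - 1) ^ m = -t ^ m := by
  have hm0 : m ≠ 0 := by rintro rfl; simp at hm
  have hne : (1 : K) ≠ -1 := fun h => one_ne_zero (α := K) (by linear_combination h3 - h)
  have hsq : ∀ c : K, c ≠ 0 → (c * c) ^ m = 1 := fun c hc => by rw [mul_pow, h1 c hc]
  have e0 : ∀ c : K, c ^ (m + 2) = c ^ m * c ^ 2 := fun c => pow_add c m 2
  rw [e0, e0]
  by_cases h0 : t = 0
  · subst h0
    have e1 : (0 + 1 : K) ^ m * (0 + 1) ^ 2 + 0 ^ m * 0 ^ 2 + 1 = -1 := by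
      simp only [zero_add, one_pow]; linear_combination h3
    have e2 : (0 + 1 : K) ^ m * (0 + 1) ^ 2 + 0 ^ m * 0 ^ 2 - 1 = 0 := by
      simp only [zero_add, one_pow]; ring
    rw [e1, e2, hm.neg_one_pow]; simp [hm0]
  by_cases h0' : t + 1 = 0
  · have ht : t = -1 := eq_neg_of_add_eq_zero_left h0'
    have e1 : (t + 1) ^ m * (t + 1) ^ 2 + t ^ m * t ^ 2 + 1 = 0 := by
      rw [h0', ht, hm.neg_one_pow]; ring
    have e2 : (t + 1) ^ m * (t + 1) ^ 2 + t ^ m * t ^ 2 - 1 = 1 := by
      rw [h0', ht, hm.neg_one_pow]; linear_combination -h3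
    rw [e1, e2, h0', ht, hm.neg_one_pow]; simp [hm0]
  rcases jt_sign h1 h0' with ha | ha <;> rcases jt_sign h1 h0 with hb | hb
  · have ht : t - 1 ≠ 0 := by
      intro h
      have h4 : t + 1 = -1 := by linear_combination h + h3
      rw [h4, hm.neg_one_pow] at ha
      exact hne ha.symm
    have e1 : (t + 1) ^ m * (t + 1) ^ 2 + t ^ m * t ^ 2 + 1 = -((t - 1) * (t - 1)) := by
      rw [ha, hb]; linear_combination (t ^ 2 + 1) * h3
    have e2 : (t + 1) ^ m * (t + 1) ^ 2 + t ^ m * t ^ 2 - 1 = -((t + 1) * t) := by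
      rw [ha, hb]; linear_combination (t ^ 2 + t) * h3
    rw [e1, e2, hm.neg_pow, hm.neg_pow, hsq _ ht, mul_pow, ha, hb]; simp
  · have e1 : (t + 1) ^ m * (t + 1) ^ 2 + t ^ m * t ^ 2 + 1 = -(t + 1) := by
      rw [ha, hb]; linear_combination (t + 1) * h3
    have e2 : (t + 1) ^ m * (t + 1) ^ 2 + t ^ m * t ^ 2 - 1 = -t := by
      rw [ha, hb]; linear_combination t * h3
    rw [e1, e2, hm.neg_pow, hm.neg_pow]; simp
  · have e1 : (t + 1) ^ m * (t + 1) ^ 2 + t ^ m * t ^ 2 + 1 = t := by
      rw [ha, hb]; linear_combination -t * h3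
    have e2 : (t + 1) ^ m * (t + 1) ^ 2 + t ^ m * t ^ 2 - 1 = t + 1 := by
      rw [ha, hb]; linear_combination -(t + 1) * h3
    rw [e1, e2, ha, hb]; simp
  · have ht : t - 1 ≠ 0 := by
      intro h
      have h4 : t = 1 := by linear_combination h
      rw [h4, one_pow] at hb
      exact hne hb
    have e1 : (t + 1) ^ m * (t + 1) ^ 2 + t ^ m * t ^ 2 + 1 = (t + 1) * t := by
      rw [ha, hb]; linear_combination -(t ^ 2 + t) * h3
    have e2 : (t + 1) ^ m * (t + 1) ^ 2 + t ^ m * t ^ 2 - 1 = (t - 1) * (t - 1) := by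
      rw [ha, hb]; linear_combination -(t ^ 2 + 1) * h3
    rw [e1, e2, hsq _ ht, mul_pow, ha, hb]; simp

private theorem jt_sum (h3 : (3 : K) = 0) (hm : Odd m) (h1 : ∀ c : K, c ≠ 0 → c ^ m * c ^ m = 1) :
    Function.Injective fun t : K => (t + 1) ^ (m + 2) + t ^ (m + 2) := by
  intro s t hst
  have h : (s + 1) ^ (m + 2) + s ^ (m + 2) = (t + 1) ^ (m + 2) + t ^ (m + 2) := hst
  have hm0 : m ≠ 0 := by rintro rfl; simp at hm
  have hne : (1 : K) ≠ -1 := fun h => one_ne_zero (α := K) (by linear_combination h3 - h)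
  obtain ⟨a1, a2⟩ := jt_chi h3 hm h1 s
  obtain ⟨b1, b2⟩ := jt_chi h3 hm h1 t
  rw [h] at a1 a2
  have ea : (s + 1) ^ m = (t + 1) ^ m := by linear_combination a1 - b1
  have eb : s ^ m = t ^ m := by linear_combination a2 - b2
  by_cases h0 : t = 0
  · rw [h0, zero_pow hm0] at eb
    rw [h0]; exact pow_eq_zero_iff hm0 |>.1 eb
  by_cases h0' : t + 1 = 0
  · rw [h0', zero_pow hm0] at ea
    have := pow_eq_zero_iff hm0 |>.1 ea
    linear_combination this - h0'
  rw [pow_add, pow_add, pow_add, pow_add, ea, eb] at h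
  by_contra hn
  have hd : s - t ≠ 0 := sub_ne_zero.2 hn
  have h5 : (t + 1) ^ m * (s + t + 2) + t ^ m * (s + t) = 0 := by
    apply mul_left_cancel₀ hd
    linear_combination h
  have flip : s = -(t + 1) → t ^ m = -(t + 1) ^ m := fun hs => by rw [← eb, hs, hm.neg_pow]
  rcases jt_sign h1 h0' with ha | ha <;> rcases jt_sign h1 h0 with hb | hb <;>
    rw [ha, hb] at h5
  · have := flip (by linear_combination -h5 + (s + t + 1) * h3)
    rw [ha, hb] at this; exact hne this
  · exact hne (by linear_combination h5)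
  · exact hne (by linear_combination -h5)
  · have := flip (by linear_combination h5 + (s + t + 1) * h3)
    rw [ha, hb, neg_neg] at this; exact hne this.symm

private theorem jt_pow (h3 : (3 : K) = 0) (hm : Odd m) (h1 : ∀ c : K, c ≠ 0 → c ^ m * c ^ m = 1) :
    Function.Injective fun t : K => t ^ (m + 2) := by
  intro s t hst
  have h : s ^ (m + 2) = t ^ (m + 2) := hst
  have hne : (1 : K) ≠ -1 := fun h => one_ne_zero (α := K) (by linear_combination h3 - h)
  by_cases ht : t = 0
  · rw [ht, zero_pow (by omega)] at h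
    rw [ht]; exact pow_eq_zero_iff (by omega) |>.1 h
  have hs : s ≠ 0 := by
    rintro rfl
    rw [zero_pow (by omega)] at h
    exact ht (pow_eq_zero_iff (by omega) |>.1 h.symm)
  have k : ∀ c : K, c ≠ 0 → (c ^ (m + 2)) ^ m = c ^ m := by
    intro c hc
    have e : (c ^ (m + 2)) ^ m = (c ^ m) ^ m * (c ^ m * c ^ m) := by ring
    rw [e, h1 c hc]
    rcases jt_sign h1 hc with ha | ha <;> rw [ha]
    · simp
    · rw [hm.neg_one_pow]; simp
  have e1 : s ^ m = t ^ m := by rw [← k s hs, h, k t ht]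
  rw [pow_add, pow_add, e1] at h
  have h2 : s ^ 2 = t ^ 2 := mul_left_cancel₀ (pow_ne_zero _ ht) h
  rcases sq_eq_sq_iff_eq_or_eq_neg.1 h2 with h4 | h4
  · exact h4
  · rw [h4, hm.neg_pow] at e1
    rcases jt_sign h1 ht with ha | ha <;> rw [ha] at e1
    · exact absurd e1.symm hne
    · exact absurd (by linear_combination e1) hne

private theorem jt_solve (h3 : (3 : K) = 0) {x z A B A' B' : K} (hd : x - z ≠ 0)
    (h : B - B' + (A + A') * (x - z) = 0) : ∃ u v k : K, v + k * x = A ∧
      u + v * x - k * x ^ 2 = B ∧ v + k * z = A' ∧ u + v * z - k * z ^ 2 = B' := by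
  obtain ⟨k, hk⟩ : ∃ k : K, k * (x - z) = A - A' := ⟨(A - A') / (x - z), div_mul_cancel₀ _ hd⟩
  refine ⟨B - (A - k * x) * x + k * x ^ 2, A - k * x, k, by ring, by ring,
    by linear_combination -hk, ?_⟩
  linear_combination h - (x - z) * hk + (x - z) * (k * x - A) * h3

end

/-- The rows of the array. -/
private def jtRow {K : Type} [Field K] [DecidableEq K] (n : ℕ) :
    (K × K × K × K) ⊕ (Bool × K × K × K) ⊕ (K × K) → Option K → (K × K) ⊕ K
  | Sum.inl (a, u, v, k), some x =>
      if x = a then Sum.inr (u + v * x - k * x ^ 2)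
      else Sum.inl (v + k * x + (x - a) ^ n, u + v * x - k * x ^ 2 + (x - a) ^ 3)
  | Sum.inl (_, _, v, k), none => Sum.inl (v, k)
  | Sum.inr (Sum.inl (false, u, v, k)), some x => Sum.inl (v + k * x, u + v * x - k * x ^ 2)
  | Sum.inr (Sum.inl (false, _, v, k)), none => Sum.inl (v, k)
  | Sum.inr (Sum.inl (true, u, v, k)), some x =>
      Sum.inl (v + k * x, u + v * x - k * x ^ 2 - x ^ 3)
  | Sum.inr (Sum.inl (true, _, _, k)), none => Sum.inr k
  | Sum.inr (Sum.inr (u, v)), some x => Sum.inr (u + v * x)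
  | Sum.inr (Sum.inr (_, v)), none => Sum.inr v

theorem good_jet {e : ℕ} (he : Odd e) : Good (3 ^ e + 1) (3 ^ e * (3 ^ e + 1)) := by
  classical
  have : Fact (Nat.Prime 3) := ⟨Nat.prime_three⟩
  have he0 : e ≠ 0 := by rintro rfl; simp at he
  let K := GaloisField 3 e
  let _ : Fintype K := Fintype.ofFinite K
  have hK : Fintype.card K = 3 ^ e := by
    rw [← Nat.card_eq_fintype_card]; exact GaloisField.card 3 e he0
  have h3 : (3 : K) = 0 := by exact_mod_cast CharP.cast_eq_zero K 3
  obtain ⟨m, hm⟩ : Odd (3 ^ e) := Odd.pow (by decide)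
  have hodd : Odd m := by
    obtain ⟨j, hj⟩ := he
    have h9 : 9 ^ j % 4 = 1 := by rw [Nat.pow_mod]; simp
    have h8 : 2 * m + 1 = 3 * 9 ^ j := by
      rw [← hm, hj, show (9 : ℕ) = 3 ^ 2 by norm_num, ← pow_mul]; ring
    rw [Nat.odd_iff]; omega
  have h1 : ∀ c : K, c ≠ 0 → c ^ m * c ^ m = 1 := by
    intro c hc
    have h2 : c ^ 3 ^ e = c := by rw [← hK, FiniteField.pow_card]
    apply mul_left_cancel₀ hc
    rw [hm] at h2
    linear_combination h2
  have hcube : ∀ x z : K, x ^ 3 - z ^ 3 = (x - z) ^ 3 := fun x z => (sub_pow_char x z).symm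
  have fin : ∀ x z : K, x ≠ z → Function.Surjective fun r =>
      (jtRow (K := K) (m + 2) r (some x), jtRow (K := K) (m + 2) r (some z)) := by
    intro x z hxz
    have hd : x - z ≠ 0 := sub_ne_zero.2 hxz
    rintro ⟨⟨V, U⟩ | i, ⟨V', U'⟩ | i'⟩
    · obtain ⟨s, hs⟩ := Finite.injective_iff_surjective.1 (jt_sum h3 hodd h1)
        ((U - U' + (V + V') * (x - z) - (x - z) ^ 3) / (x - z) ^ (m + 3))
      have hs' : ((s + 1) ^ (m + 2) + s ^ (m + 2)) * (x - z) ^ (m + 3) =
          U - U' + (V + V') * (x - z) - (x - z) ^ 3 := by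
        rw [← eq_div_iff (pow_ne_zero _ hd)]; exact hs
      by_cases h0 : s = 0 ∨ s + 1 = 0
      · have h2 : U - U' + (V + V') * (x - z) = 0 ∨
            U - U' + (V + V') * (x - z) + (x - z) ^ 3 = 0 := by
          have h4 : (s + 1) ^ (m + 2) + s ^ (m + 2) = 1 ∨ (s + 1) ^ (m + 2) + s ^ (m + 2) = -1 := by
            rcases h0 with h0 | h0
            · left; rw [h0]; simp
            · right
              rw [h0, eq_neg_of_add_eq_zero_left h0, (hodd.add_even even_two).neg_one_pow]; simp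
          rw [pow_add (x - z)] at hs'
          rcases h4 with h4 | h4 <;> rcases jt_sign h1 hd with h5 | h5 <;> rw [h4, h5] at hs'
          · right; linear_combination -hs' + (x - z) ^ 3 * h3
          · left; linear_combination -hs'
          · left; linear_combination -hs'
          · right; linear_combination -hs' + (x - z) ^ 3 * h3
        rcases h2 with h2 | h2
        · obtain ⟨u, v, k, e1, e2, e3, e4⟩ := jt_solve h3 hd h2
          exact ⟨Sum.inr (Sum.inl (false, u, v, k)), by simp only [jtRow, e1, e2, e3, e4]⟩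
        · obtain ⟨u, v, k, e1, e2, e3, e4⟩ := jt_solve h3 (A := V) (A' := V') (B := U + x ^ 3)
            (B' := U' + z ^ 3) hd (by linear_combination h2 + hcube x z)
          exact ⟨Sum.inr (Sum.inl (true, u, v, k)),
            by simp only [jtRow, e1, e2, e3, e4, add_sub_cancel_right]⟩
      · push Not at h0
        have f1 : x - (z - (x - z) * s) = (x - z) * (s + 1) := by ring
        have f2 : z - (z - (x - z) * s) = (x - z) * s := by ring
        have hx : x ≠ z - (x - z) * s := fun h =>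
          mul_ne_zero hd h0.2 (by rw [← f1]; exact sub_eq_zero.2 h)
        have hz : z ≠ z - (x - z) * s := fun h =>
          mul_ne_zero hd h0.1 (by rw [← f2]; exact sub_eq_zero.2 h)
        obtain ⟨u, v, k, e1, e2, e3, e4⟩ := jt_solve h3
          (A := V - ((x - z) * (s + 1)) ^ (m + 2)) (A' := V' - ((x - z) * s) ^ (m + 2))
          (B := U - ((x - z) * (s + 1)) ^ 3) (B' := U' - ((x - z) * s) ^ 3) hd
          (by simp only [mul_pow]
              linear_combination -hs' - (x - z) ^ 3 * (s ^ 2 + s) * h3)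
        exact ⟨Sum.inl (z - (x - z) * s, u, v, k),
          by simp only [jtRow, if_neg hx, if_neg hz, f1, f2, e1, e2, e3, e4, sub_add_cancel]⟩
    · obtain ⟨u, v, k, e1, e2, -, e4⟩ := jt_solve h3 (A := V - (x - z) ^ (m + 2))
        (B := U - (x - z) ^ 3) (B' := i')
        (A' := (i' - (U - (x - z) ^ 3)) / (x - z) - (V - (x - z) ^ (m + 2))) hd
        (by linear_combination div_mul_cancel₀ (i' - (U - (x - z) ^ 3)) hd)
      exact ⟨Sum.inl (z, u, v, k),
        by simp only [jtRow, if_neg hxz, if_true, e1, e2, e4, sub_add_cancel]⟩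
    · obtain ⟨u, v, k, -, e2, e3, e4⟩ := jt_solve h3 (A' := V' - (z - x) ^ (m + 2))
        (B' := U' - (z - x) ^ 3) (B := i)
        (A := (U' - (z - x) ^ 3 - i) / (x - z) - (V' - (z - x) ^ (m + 2))) hd
        (by linear_combination div_mul_cancel₀ (U' - (z - x) ^ 3 - i) hd)
      exact ⟨Sum.inl (x, u, v, k),
        by simp only [jtRow, if_neg hxz.symm, if_true, e2, e3, e4, sub_add_cancel]⟩
    · refine ⟨Sum.inr (Sum.inr (i - (i - i') / (x - z) * x, (i - i') / (x - z))), ?_⟩
      simp only [jtRow, Prod.mk.injEq, Sum.inr.injEq]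
      refine ⟨by ring, ?_⟩
      linear_combination -(div_mul_cancel₀ (i - i') hd)
  have inf : ∀ x : K, Function.Surjective fun r =>
      (jtRow (K := K) (m + 2) r (some x), jtRow (K := K) (m + 2) r none) := by
    intro x
    rintro ⟨⟨V, U⟩ | i, ⟨v, k⟩ | k⟩
    · obtain ⟨c, hc⟩ := Finite.injective_iff_surjective.1 (jt_pow h3 hodd h1) (V - v - k * x)
      have hc' : c ^ (m + 2) = V - v - k * x := hc
      by_cases h0 : c = 0
      · rw [h0, zero_pow (by omega)] at hc'
        refine ⟨Sum.inr (Sum.inl (false, U - v * x + k * x ^ 2, v, k)), ?_⟩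
        simp only [jtRow, Prod.mk.injEq, Sum.inl.injEq, and_true]
        exact ⟨by linear_combination hc', by ring⟩
      · have hx : x ≠ x - c := fun h => h0 (by linear_combination h)
        refine ⟨Sum.inl (x - c, U - c ^ 3 - v * x + k * x ^ 2, v, k), ?_⟩
        simp only [jtRow, if_neg hx, sub_sub_cancel, Prod.mk.injEq, Sum.inl.injEq, and_true]
        exact ⟨by linear_combination hc', by ring⟩
    · refine ⟨Sum.inr (Sum.inl (true, U + x ^ 3 - (V - k * x) * x + k * x ^ 2, V - k * x, k)), ?_⟩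
      simp only [jtRow, Prod.mk.injEq, Sum.inl.injEq, and_true]
      exact ⟨by ring, by ring⟩
    · refine ⟨Sum.inl (x, i - v * x + k * x ^ 2, v, k), ?_⟩
      simp only [jtRow, if_true, Prod.mk.injEq, Sum.inr.injEq, and_true]
      ring
    · refine ⟨Sum.inr (Sum.inr (i - k * x, k)), ?_⟩
      simp only [jtRow, Prod.mk.injEq, Sum.inr.injEq, and_true]
      ring
  have hOA : IsOA (jtRow (K := K) (m + 2)) := by
    intro i l hil
    rw [Fintype.bijective_iff_surjective_and_card]
    refine ⟨?_, by simp [Fintype.card_sum, Fintype.card_prod]; ring⟩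
    match i, l, hil with
    | some x, some z, h => exact fin x z fun hh => h (congrArg some hh)
    | some x, none, _ => exact inf x
    | none, some x, _ => exact (Equiv.prodComm _ _).surjective.comp (inf x)
    | none, none, h => exact absurd rfl h
  exact good_of_isOA hOA (by simp [hK]) (by simp [Fintype.card_sum, Fintype.card_prod, hK]; ring)

end Pool.Agent.Lib.MP_ce212d_co
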