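import Pool.Agent.Lib.MP_ce212d_co.Wilson
import Pool.Agent.Lib.MP_ce212d_co.Add
import Pool.Agent.Lib.MP_ce212d_co.Del
import Pool.Agent.Lib.MP_ce212d_co.SvF

/-!
Orthogonal arrays for all large orders.
-/

open Finset

namespace Pool.Agent.Lib.MP_ce212d_co

private theorem mainx_gen {K F : Type} [Field K] [Field F] [Algebra K F] [Finite F]
    (h : Module.finrank K F = 4) : ∃ κ : F, Gen K κ := by
  have : Module.Finite K F := Module.Finite.of_finite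
  let pb := Field.powerBasisOfFiniteOfSeparable K F
  have hd : pb.dim = 4 := by rw [← pb.finrank, h]
  refine ⟨pb.gen, fun a b c habc => ?_⟩
  have hli := pb.basis.linearIndependent
  let e : Fin 3 → Fin pb.dim := fun i => ⟨i.1, by have := i.2; omega⟩
  have he : Function.Injective e := by
    intro i j hij
    exact Fin.ext (by simpa [e] using hij)
  have hl3 := hli.comp e he
  rw [Fintype.linearIndependent_iff] at hl3
  have key := hl3 ![a, b, c] (by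
    rw [Fin.sum_univ_three]
    simp only [Function.comp, pb.basis_eq_pow, e, Algebra.smul_def]
    simpa using habc)
  exact ⟨key 0, key 1, key 2⟩

/-- Three consecutive good orders. -/
theorem good_triple {k s : ℕ} (hs : 4 ≤ s) (hk : 16 * k ≤ 2 ^ s) :
    Good k (2 ^ s) ∧ Good k ((2 ^ s) ^ 4 - 1) ∧ Good k ((2 ^ s) ^ 4) ∧
      Good k ((2 ^ s) ^ 4 + 1) := by
  have : Fact (Nat.Prime 2) := ⟨Nat.prime_two⟩
  let K := GaloisField 2 s
  let F := FiniteField.Extension K 2 4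
  let : Fintype K := Fintype.ofFinite K
  let : Fintype F := Fintype.ofFinite F
  have hK : Fintype.card K = 2 ^ s := by
    rw [← Nat.card_eq_fintype_card]
    exact GaloisField.card 2 s (by omega)
  have hF : Fintype.card F = Fintype.card K ^ 4 := by
    rw [← Nat.card_eq_fintype_card, ← Nat.card_eq_fintype_card]
    exact FiniteField.natCard_extension K 2 4
  have : CharP F 2 := charP_of_injective_algebraMap (algebraMap K F).injective 2
  obtain ⟨κ, hκ⟩ := mainx_gen (FiniteField.finrank_extension K 2 4)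
  have h16 : 16 ≤ Fintype.card K := by
    rw [hK]
    calc 16 = 2 ^ 4 := by norm_num
      _ ≤ 2 ^ s := Nat.pow_le_pow_right (by norm_num) hs
  have hk' : 16 * k ≤ Fintype.card K := by rw [hK]; exact hk
  have hkK : k ≤ Fintype.card K := by omega
  have hkF : k ≤ Fintype.card F := by
    rw [hF]
    exact hkK.trans (Nat.le_self_pow (by norm_num) _)
  have a1 := good_field K hkK
  have a2 := good_del hF hκ hk' h16
  have a3 := good_field F hkF
  have a4 := good_add hF hκ hk' h16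
  rw [hF] at a2 a3 a4
  rw [hK] at a1 a2 a3 a4
  exact ⟨a1, a2, a3, a4⟩

private theorem mainx_pow2 (k : ℕ) : ∃ s, 4 ≤ s ∧ 16 * (k + 1) ≤ 2 ^ s ∧ 2 ^ s ≤ 32 * (k + 1) := by
  refine ⟨Nat.log 2 (k + 1) + 5, by omega, ?_, ?_⟩
  · have := Nat.lt_pow_succ_log_self (b := 2) (by norm_num) (k + 1)
    rw [pow_succ] at this
    rw [pow_add]
    omega
  · have := Nat.pow_log_le_self 2 (x := k + 1) (by omega)
    rw [pow_add]
    omega

/-- Splitting a number into two good numbers. -/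
private theorem mainx_split {β₂ : ℝ} {z H u k s : ℕ} (hkz : k ≤ z) (hz : 2 ≤ z) (hs : 1 ≤ s)
    (hp : Good k (2 ^ s))
    (h2 : ∀ Ω : ℕ → Finset ℕ,
      (∀ p, p.Prime → p ≤ z → Ω p ⊆ range p ∧ (Ω p).card ≤ min 2 (p - 1)) →
      ∀ X H : ℕ, (z : ℝ) ^ β₂ ≤ H → ∃ n, X ≤ n ∧ n < X + H ∧ ∀ p, p.Prime → p ≤ z → n % p ∉ Ω p)
    (hH : (z : ℝ) ^ β₂ ≤ H) (hu : 2 ^ s * (H + 1) ≤ u) :
    ∃ u₁ u₂, u₁ + u₂ = u ∧ Good k u₁ ∧ Good k u₂ := by
  classical
  obtain ⟨g, hg1, hgle, hgood, hgodd, hgc⟩ : ∃ g : ℕ, 1 ≤ g ∧ g ≤ 2 ^ s ∧ Good k g ∧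
      (u + g) % 2 = 1 ∧ ∀ l : ℕ, l.Prime → l ≠ 2 → ¬ l ∣ g := by
    rcases Nat.even_or_odd u with he | ho
    · refine ⟨1, le_rfl, Nat.one_le_two_pow, good_rough one_ne_zero fun p hp hd => ?_, ?_, ?_⟩
      · exact absurd (Nat.dvd_one.1 hd) hp.ne_one
      · obtain ⟨c, hc⟩ := he
        omega
      · intro l hl _ hd
        exact hl.ne_one (Nat.dvd_one.1 hd)
    · refine ⟨2 ^ s, Nat.one_le_two_pow, le_rfl, hp, ?_, ?_⟩
      · obtain ⟨c, hc⟩ := ho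
        obtain ⟨t, rfl⟩ : ∃ t, s = t + 1 := ⟨s - 1, by omega⟩
        rw [pow_succ]
        omega
      · intro l hl hne hd
        exact hne ((Nat.prime_dvd_prime_iff_eq hl Nat.prime_two).1 (hl.dvd_of_dvd_pow hd))
  let Ω : ℕ → Finset ℕ := fun l =>
    if l = 2 then {0} else insert 0 ((range l).filter fun x => (l : ℤ) ∣ (u : ℤ) - g * x)
  obtain ⟨r, hr1, hr2, hr⟩ := h2 Ω (by
    intro l hl hlz
    by_cases h : l = 2
    · subst h
      simp [Ω]
    · have hl3 : 3 ≤ l := by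
        have := hl.two_le
        omega
      simp only [Ω, if_neg h]
      refine ⟨?_, ?_⟩
      · intro x hx
        rcases mem_insert.1 hx with rfl | hx
        · exact mem_range.2 (by omega)
        · exact (mem_filter.1 hx).1
      · have hc : ((range l).filter fun x : ℕ => (l : ℤ) ∣ (u : ℤ) - g * x).card ≤ 1 := by
          rw [card_le_one]
          intro x hx y hy
          obtain ⟨hx1, hx2⟩ := mem_filter.1 hx
          obtain ⟨hy1, hy2⟩ := mem_filter.1 hy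
          have hd : (l : ℤ) ∣ (g : ℤ) * ((x : ℤ) - y) := by
            have := dvd_sub hy2 hx2
            have e : (u : ℤ) - g * y - (u - g * x) = g * (x - y) := by ring
            rwa [e] at this
          have hlp : Prime (l : ℤ) := Nat.prime_iff_prime_int.1 hl
          rcases hlp.dvd_or_dvd hd with h' | h'
          · exact absurd (Int.natCast_dvd_natCast.1 h') (hgc l hl h)
          · have hx3 := mem_range.1 hx1
            have hy3 := mem_range.1 hy1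
            have := Int.eq_zero_of_abs_lt_dvd h' (by rw [abs_lt]; constructor <;> omega)
            omega
        have := card_insert_le 0 ((range l).filter fun x : ℕ => (l : ℤ) ∣ (u : ℤ) - g * x)
        omega) 1 H hH
  have hr0 : ∀ l : ℕ, l.Prime → l ≤ z → r % l ≠ 0 := by
    intro l hl hlz h0
    apply hr l hl hlz
    rw [h0]
    by_cases h : l = 2
    · simp [Ω, h]
    · simp [Ω, h]
  have hgr : g * r ≤ 2 ^ s * H := Nat.mul_le_mul hgle (by omega)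
  have hpos : 0 < 2 ^ s := by positivity
  have hlt : g * r < u := by nlinarith
  refine ⟨g * r, u - g * r, by omega, hgood.mul (good_rough (by omega) fun l hl hd => ?_),
    good_rough (by omega) fun l hl hd => ?_⟩
  · by_contra hlk
    exact hr0 l hl (by omega) (Nat.mod_eq_zero_of_dvd hd)
  · by_contra hlk
    have hlz : l ≤ z := by omega
    by_cases h : l = 2
    · subst h
      have hro := hr0 2 Nat.prime_two hz
      have h1 : (g * r) % 2 = g % 2 := by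
        rw [Nat.mul_mod, show r % 2 = 1 by omega]
        simp
      omega
    · apply hr l hl hlz
      simp only [Ω, if_neg h]
      refine mem_insert_of_mem (mem_filter.2 ⟨mem_range.2 (Nat.mod_lt _ hl.pos), ?_⟩)
      have h1 : (l : ℤ) ∣ (u : ℤ) - g * r := by
        have := Int.natCast_dvd_natCast.2 hd
        rwa [Nat.cast_sub hlt.le, Nat.cast_mul] at this
      have h2' : (l : ℤ) ∣ (r : ℤ) - ((r % l : ℕ) : ℤ) := by
        refine ⟨(r / l : ℕ), ?_⟩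
        have := Nat.mod_add_div r l
        have h3 : ((r % l + l * (r / l) : ℕ) : ℤ) = r := by rw [this]
        rw [Nat.cast_add, Nat.cast_mul] at h3
        linarith
      have h3 := dvd_add h1 (Dvd.dvd.mul_left h2' (g : ℤ))
      have e : (u : ℤ) - g * r + g * (r - ((r % l : ℕ) : ℤ)) = u - g * ((r % l : ℕ) : ℤ) := by ring
      rwa [e] at h3

private theorem mainx_size {β₁ β₂ : ℝ} (h0 : 0 ≤ β₁) (h12 : β₂ ≤ β₁ + 3) {k p n : ℕ} (hk : 1 ≤ k)
    (hp : p ≤ 32 * (k + 1))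
    (hn : (64 ^ 4 * (2 * 64 ^ 4 + 64 * 81) * (3 : ℝ) ^ β₁) * (k : ℝ) ^ (8 + β₁) ≤ n) :
    p ^ 4 * (p ^ 4 * ⌈((k + 2 : ℕ) : ℝ) ^ β₁⌉₊ + p * (⌈((k + 2 : ℕ) : ℝ) ^ β₂⌉₊ + 1)) ≤ n := by
  have hk1 : (1 : ℝ) ≤ k := by exact_mod_cast hk
  have hz1 : (1 : ℝ) ≤ ((k + 2 : ℕ) : ℝ) := by push_cast; linarith
  have hz3 : ((k + 2 : ℕ) : ℝ) ≤ 3 * k := by push_cast; linarith
  have hp' : (p : ℝ) ≤ 64 * k := by
    have : (p : ℝ) ≤ 32 * (k + 1) := by exact_mod_cast hp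
    linarith
  set z : ℝ := ((k + 2 : ℕ) : ℝ) with hz
  set A : ℝ := (3 : ℝ) ^ β₁ * (k : ℝ) ^ β₁ with hA
  have hzA : z ^ β₁ ≤ A := by
    rw [hA, ← Real.mul_rpow (by norm_num) (by linarith)]
    exact Real.rpow_le_rpow (by linarith) hz3 h0
  have hz0 : 1 ≤ z ^ β₁ := Real.one_le_rpow hz1 h0
  have hH1 : (⌈z ^ β₁⌉₊ : ℝ) ≤ 2 * A := by
    have := Nat.ceil_lt_add_one (a := z ^ β₁) (by linarith)
    linarith
  have hz2 : z ^ β₂ ≤ A * (27 * (k : ℝ) ^ 3) := by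
    calc z ^ β₂ ≤ z ^ (β₁ + 3) := Real.rpow_le_rpow_of_exponent_le hz1 h12
      _ = z ^ β₁ * z ^ 3 := by
        rw [Real.rpow_add (by linarith)]
        norm_num
      _ ≤ A * (27 * (k : ℝ) ^ 3) := by
        apply mul_le_mul hzA _ (by positivity) (by linarith)
        calc z ^ 3 ≤ (3 * (k : ℝ)) ^ 3 := pow_le_pow_left₀ (by linarith) hz3 3
          _ = 27 * (k : ℝ) ^ 3 := by ring
  have hk3 : (1 : ℝ) ≤ (k : ℝ) ^ 3 := one_le_pow₀ hk1
  have hA1 : 1 ≤ A := hz0.trans hzA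
  have hAk : 1 ≤ A * (27 * (k : ℝ) ^ 3) := by nlinarith
  have hH2 : (⌈z ^ β₂⌉₊ : ℝ) + 1 ≤ 3 * (A * (27 * (k : ℝ) ^ 3)) := by
    have := Nat.ceil_lt_add_one (a := z ^ β₂) (by positivity)
    linarith
  have hp4 : (p : ℝ) ^ 4 ≤ (64 * k) ^ 4 := pow_le_pow_left₀ (by positivity) hp' 4
  have hfin : ((p ^ 4 * (p ^ 4 * ⌈z ^ β₁⌉₊ + p * (⌈z ^ β₂⌉₊ + 1)) : ℕ) : ℝ) ≤ n := by
    push_cast
    calc (p : ℝ) ^ 4 * ((p : ℝ) ^ 4 * (⌈z ^ β₁⌉₊ : ℝ) + p * ((⌈z ^ β₂⌉₊ : ℝ) + 1))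
        ≤ (64 * k) ^ 4 * ((64 * k) ^ 4 * (2 * A) + (64 * k) * (3 * (A * (27 * (k : ℝ) ^ 3)))) := by
          gcongr
      _ = (64 ^ 4 * (2 * 64 ^ 4 + 64 * 81) * (3 : ℝ) ^ β₁) * (k : ℝ) ^ (8 + β₁) := by
          rw [Real.rpow_add (by linarith), hA]
          have : (k : ℝ) ^ (8 : ℝ) = (k : ℝ) ^ 8 := by norm_num
          rw [this]
          ring
      _ ≤ n := hn
  exact_mod_cast hfin

theorem good_large {β₁ β₂ : ℝ} (h1 : SieveOK 1 β₁) (h2 : SieveOK 2 β₂) (h0 : 0 ≤ β₁)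
    (h12 : β₂ ≤ β₁ + 3) : ∃ (C : ℝ) (k₀ : ℕ), ∀ k n : ℕ, k₀ ≤ k →
      C * (k : ℝ) ^ (8 + β₁) ≤ n → Good k n := by
  obtain ⟨z₁, h1⟩ := h1
  obtain ⟨z₂, h2⟩ := h2
  refine ⟨64 ^ 4 * (2 * 64 ^ 4 + 64 * 81) * (3 : ℝ) ^ β₁, z₁ + z₂ + 1, fun k n hk hn => ?_⟩
  obtain ⟨s, hs4, hs1, hs2⟩ := mainx_pow2 k
  obtain ⟨g1, g2, g3, g4⟩ := good_triple hs4 hs1
  have hsize := mainx_size h0 h12 (by omega) hs2 hn
  set H₁ := ⌈((k + 2 : ℕ) : ℝ) ^ β₁⌉₊ with hH₁
  set H₂ := ⌈((k + 2 : ℕ) : ℝ) ^ β₂⌉₊ with hH₂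
  have hM : 0 < (2 ^ s) ^ 4 := by positivity
  obtain ⟨m, hm⟩ : ∃ m, (2 ^ s) ^ 4 = m + 1 := ⟨(2 ^ s) ^ 4 - 1, by omega⟩
  rw [hm] at g2 g3 g4 hsize
  rw [Nat.add_sub_cancel] at g2
  obtain ⟨Q, hQ1, hQ2, hQ⟩ := h1 (k + 2) (by omega) (fun _ => {0}) (by
    intro l hl _
    have := hl.two_le
    refine ⟨?_, ?_⟩
    · simp only [singleton_subset_iff, mem_range]
      omega
    · rw [card_singleton]
      omega) (n / (m + 1) + 1) H₁ (Nat.le_ceil _)
  have hdiv : (m + 1) * H₁ + 2 ^ s * (H₂ + 1) ≤ n / (m + 1) := by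
    rw [Nat.le_div_iff_mul_le (by omega), mul_comm]
    exact hsize
  have hn1 : (m + 1) * (n / (m + 1)) ≤ n := Nat.mul_div_le n (m + 1)
  have hn2 : n < (m + 1) * (n / (m + 1) + 1) := Nat.lt_mul_div_succ n (by omega)
  set D := n / (m + 1) with hD
  have hmQ : m * Q ≤ m * (D + H₁) := Nat.mul_le_mul_left m (by omega)
  have hlow : m * Q + 2 ^ s * (H₂ + 1) ≤ n := by nlinarith
  have hup : n ≤ m * Q + Q := by nlinarith
  obtain ⟨u₁, u₂, hu, hu₁, hu₂⟩ := mainx_split (β₂ := β₂) (z := k + 2) (H := H₂) (u := n - m * Q)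
    (k := k) (s := s) (by omega) (by omega) (by omega) (g1.mono (by omega))
    (h2 (k + 2) (by omega)) (Nat.le_ceil _) (by omega)
  have hgQ : Good (k + 2) Q := by
    refine good_rough (by omega) fun l hl hd => ?_
    by_contra hlk
    apply hQ l hl (by omega)
    rw [Nat.mod_eq_zero_of_dvd hd]
    exact mem_singleton_self 0
  have hw := wilson hgQ (g2.mono (by omega)) g3 g4 hu₁ hu₂ (by omega) (by omega)
  have e : m * Q + u₁ + u₂ = n := by omega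
  rwa [e] at hw

theorem good_pow : ∃ n₀ : ℕ, ∀ n, n₀ ≤ n → ∃ r : ℕ, n ^ 5 ≤ r ^ 53 ∧ Good (r + 2) n := by
  classical
  obtain ⟨C, k₀, h⟩ := good_large sieve_one sieve_two (by norm_num) (by norm_num)
  obtain ⟨c, hc⟩ : ∃ c : ℕ, |C| ≤ c := exists_nat_ge _
  obtain ⟨B, hB⟩ : ∃ B : ℕ, c ^ 20 * 2 ^ 211 = B := ⟨_, rfl⟩
  obtain ⟨r₀, hr₀⟩ : ∃ r₀ : ℕ, r₀ = B + k₀ + 4 := ⟨_, rfl⟩
  refine ⟨r₀ ^ 11, fun n hn => ?_⟩
  have hex : ∃ r : ℕ, n ^ 5 ≤ r ^ 53 := by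
    refine ⟨n, ?_⟩
    rcases Nat.eq_zero_or_pos n with rfl | hpos
    · simp
    · exact Nat.pow_le_pow_right hpos (by norm_num)
  have hr := Nat.find_spec hex
  set r := Nat.find hex with hrdef
  have hr0 : r₀ ≤ r := by
    have h1 : r₀ ^ 53 ≤ r ^ 53 := by
      calc r₀ ^ 53 ≤ r₀ ^ 55 := Nat.pow_le_pow_right (by omega) (by norm_num)
        _ = (r₀ ^ 11) ^ 5 := by rw [← pow_mul]
        _ ≤ n ^ 5 := Nat.pow_le_pow_left hn 5
        _ ≤ r ^ 53 := hr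
    exact (Nat.pow_le_pow_iff_left (by norm_num)).1 h1
  refine ⟨r, hr, h (r + 2) n (by omega) ?_⟩
  obtain ⟨t, ht⟩ : ∃ t, r = t + 1 := ⟨r - 1, by omega⟩
  have hmin : t ^ 53 < n ^ 5 := by
    have := Nat.find_min hex (m := t) (by omega)
    omega
  have hct : c ^ 20 * 2 ^ 211 ≤ t := by
    rw [hB]
    clear hB
    omega
  have hrt : r + 2 ≤ 2 * t := by omega
  have hnat : c ^ 20 * (r + 2) ^ 211 ≤ n ^ 20 := by
    calc c ^ 20 * (r + 2) ^ 211 ≤ c ^ 20 * (2 * t) ^ 211 :=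
          Nat.mul_le_mul_left _ (Nat.pow_le_pow_left hrt 211)
      _ = (c ^ 20 * 2 ^ 211) * t ^ 211 := by rw [mul_pow, mul_assoc]
      _ ≤ t * t ^ 211 := Nat.mul_le_mul_right _ hct
      _ = (t ^ 53) ^ 4 := by ring
      _ ≤ (n ^ 5) ^ 4 := Nat.pow_le_pow_left hmin.le 4
      _ = n ^ 20 := by rw [← pow_mul]
  set A : ℝ := ((r + 2 : ℕ) : ℝ) ^ ((8 : ℝ) + 51 / 20) with hA
  have hA0 : 0 ≤ A := by positivity
  have hA20 : A ^ 20 = ((r + 2 : ℕ) : ℝ) ^ 211 := by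
    rw [hA, ← Real.rpow_mul_natCast (by positivity)]
    have : ((8 : ℝ) + 51 / 20) * ((20 : ℕ) : ℝ) = ((211 : ℕ) : ℝ) := by norm_num
    rw [this, Real.rpow_natCast]
  have hle : ((c : ℝ) * A) ^ 20 ≤ (n : ℝ) ^ 20 := by
    rw [mul_pow, hA20]
    exact_mod_cast hnat
  have hle' : (c : ℝ) * A ≤ n := le_of_pow_le_pow_left₀ (by norm_num) (by positivity) hle
  calc C * A ≤ c * A := mul_le_mul_of_nonneg_right ((le_abs_self C).trans hc) hA0
    _ ≤ n := hle'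

end Pool.Agent.Lib.MP_ce212d_co
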