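import Pool.Agent.Lib.MP_ce212d_co.Basic

/-!
The Coulter-Matthews planar function and an orthogonal array on `p * (p + 1)` symbols with
`p` columns, `p = 3 ^ e`, `e` odd.
-/

namespace Pool.Agent.Lib.MP_ce212d_co

private theorem pl_inv {L : Type} [Field L] {u v : L} (hu : u ≠ 0) (hv : v ≠ 0)
    (h : u + u⁻¹ = v + v⁻¹) : u = v ∨ u = v⁻¹ := by
  have h1 : (u - v) * (u - v⁻¹) = 0 := by
    have h2 : u * u⁻¹ = 1 := mul_inv_cancel₀ hu
    have h3 : v * v⁻¹ = 1 := mul_inv_cancel₀ hv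
    linear_combination u * h - h2 + h3
  rcases mul_eq_zero.1 h1 with h2 | h2
  · exact Or.inl (sub_eq_zero.1 h2)
  · exact Or.inr (sub_eq_zero.1 h2)

private theorem pl_key {L : Type} [Field L] [CharP L 3] {a m : ℕ} (hm : 3 ^ a = 2 * m + 1)
    {ζ : L} (hζ : ζ ≠ 0) :
    (ζ ^ 2 + (ζ ^ 2)⁻¹ - 1) ^ (m + 1) - (ζ ^ 2 + (ζ ^ 2)⁻¹ + 1) ^ (m + 1) =
      2 * ((ζ ^ 2) ^ m + ((ζ ^ 2) ^ m)⁻¹) := by
  have : Fact (Nat.Prime 3) := ⟨Nat.prime_three⟩
  have h3 : (3 : L) = 0 := by exact_mod_cast CharP.cast_eq_zero L 3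
  have hw : ζ * ζ⁻¹ = 1 := mul_inv_cancel₀ hζ
  have e1 : ζ ^ 2 + (ζ ^ 2)⁻¹ - 1 = (ζ + ζ⁻¹) ^ 2 := by
    rw [← inv_pow]; linear_combination (-2 : L) * hw - h3
  have e2 : ζ ^ 2 + (ζ ^ 2)⁻¹ + 1 = (ζ - ζ⁻¹) ^ 2 := by
    rw [← inv_pow]; linear_combination (2 : L) * hw + h3
  have e3 : ∀ t : L, (t ^ 2) ^ (m + 1) = t ^ 3 ^ a * t := by
    intro t; rw [hm]; ring
  have e4 : ∀ t : L, t ^ 3 ^ a = (t ^ 2) ^ m * t := by
    intro t; rw [hm]; ring
  rw [e1, e2, e3, e3, add_pow_char_pow, sub_pow_char_pow, e4, e4, ← inv_pow, ← inv_pow]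
  linear_combination (2 * ((ζ ^ 2) ^ m + (ζ⁻¹ ^ 2) ^ m)) * hw

private theorem pl_one {L : Type} [Field L] {e m : ℕ} (he : Odd e) (hm : 3 ^ (e + 2) = 2 * m + 1)
    {t : L} (ht : t ≠ 0) (h1 : t ^ m = 1) (h2 : t ^ 3 ^ (2 * e) = t) : t = 1 := by
  have p1 : Function.IsPeriodicPt (fun s : L => s ^ 3) (e + 2) t := by
    show (fun s : L => s ^ 3)^[e + 2] t = t
    rw [pow_iterate]
    show t ^ 3 ^ (e + 2) = t
    rw [hm, pow_succ, mul_comm 2 m, pow_mul, h1]; simp
  have p2 : Function.IsPeriodicPt (fun s : L => s ^ 3) (2 * e) t := by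
    show (fun s : L => s ^ 3)^[2 * e] t = t
    rw [pow_iterate]; exact h2
  have hc : Nat.gcd (e + 2) (2 * e) = 1 := by
    have c1 : Nat.Coprime e 2 := he.coprime_two_right
    have c2 : Nat.Coprime (e + 2) 2 := (he.add_even even_two).coprime_two_right
    have c3 : Nat.Coprime (e + 2) e := by simpa using c1.symm
    exact Nat.Coprime.mul_right c2 c3
  have p3 := p1.gcd p2
  rw [hc] at p3
  have p4 : t ^ 3 = t := p3
  have p5 : t ^ 2 = 1 := by
    apply mul_left_cancel₀ ht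
    linear_combination p4
  have hodd : Odd m := by
    obtain ⟨j, rfl⟩ := he
    have h9 : 9 ^ (j + 1) % 4 = 1 := by rw [Nat.pow_mod]; simp
    have h8 : 3 ^ (2 * j + 1 + 2) = 3 * 9 ^ (j + 1) := by
      rw [show (9 : ℕ) = 3 ^ 2 by norm_num, ← pow_mul]; ring
    rw [Nat.odd_iff]; omega
  obtain ⟨j, rfl⟩ := hodd
  rw [pow_succ, pow_mul, p5] at h1
  simpa using h1

private theorem pl_lift {K : Type} [Field K] [Fintype K] [CharP K 3] {e : ℕ}
    (hK : Fintype.card K = 3 ^ e) (x : K) : ∃ ζ : AlgebraicClosure K, ζ ≠ 0 ∧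
      algebraMap K _ x = ζ ^ 2 + (ζ ^ 2)⁻¹ ∧ (ζ ^ 2) ^ 3 ^ (2 * e) = ζ ^ 2 := by
  have : Fact (Nat.Prime 3) := ⟨Nat.prime_three⟩
  obtain ⟨s, hs⟩ := IsAlgClosed.exists_eq_mul_self ((algebraMap K (AlgebraicClosure K) x) ^ 2 - 1)
  have h3 : (3 : AlgebraicClosure K) = 0 := by exact_mod_cast CharP.cast_eq_zero _ 3
  set y := algebraMap K (AlgebraicClosure K) x with hy
  obtain ⟨ζ, hζ⟩ := IsAlgClosed.exists_eq_mul_self (s - y)
  have h1 : ζ ^ 2 * (-s - y) = 1 := by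
    linear_combination (s + y) * hζ + hs
  have h2 : ζ ^ 2 ≠ 0 := left_ne_zero_of_mul_eq_one h1
  have h4 : (ζ ^ 2)⁻¹ = -s - y := (eq_inv_of_mul_eq_one_right h1).symm
  have h5 : y = ζ ^ 2 + (ζ ^ 2)⁻¹ := by
    rw [h4]; linear_combination hζ + y * h3
  refine ⟨ζ, fun h => h2 (by rw [h]; simp), h5, ?_⟩
  have h6 : y ^ 3 ^ e = y := by
    rw [hy, ← map_pow, ← hK, FiniteField.pow_card]
  rw [h5, add_pow_char_pow, inv_pow] at h6
  rw [two_mul, pow_add, pow_mul]
  rcases pl_inv (pow_ne_zero _ h2) h2 h6 with h7 | h7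
  · rw [h7, h7]
  · rw [h7, inv_pow, h7, inv_inv]

/-- The power map `x ^ ((3 ^ (e + 2) + 1) / 2)` is planar on the field with `3 ^ e` elements. -/
theorem planar_cm {K : Type} [Field K] [Fintype K] [CharP K 3] {e m : ℕ} (he : Odd e)
    (hK : Fintype.card K = 3 ^ e) (hm : 3 ^ (e + 2) = 2 * m + 1) {d : K} (hd : d ≠ 0) :
    Function.Injective fun c : K => (c + d) ^ (m + 1) - c ^ (m + 1) := by
  have h3 : (3 : K) = 0 := by exact_mod_cast CharP.cast_eq_zero K 3
  have key : ∀ x y : K, (x - 1) ^ (m + 1) - (x + 1) ^ (m + 1) =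
      (y - 1) ^ (m + 1) - (y + 1) ^ (m + 1) → x = y := by
    intro x y hxy
    obtain ⟨ζ, hζ, hx, hζ'⟩ := pl_lift hK x
    obtain ⟨ξ, hξ, hy, hξ'⟩ := pl_lift hK y
    have h1 := congrArg (algebraMap K (AlgebraicClosure K)) hxy
    simp only [map_sub, map_pow, map_add, map_one] at h1
    rw [hx, hy, pl_key hm hζ, pl_key hm hξ] at h1
    have h2 : (2 : AlgebraicClosure K) ≠ 0 := by
      intro h
      have h4 : (3 : AlgebraicClosure K) = 0 := by exact_mod_cast CharP.cast_eq_zero _ 3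
      exact one_ne_zero (α := AlgebraicClosure K) (by linear_combination h4 - h)
    have h5 := mul_left_cancel₀ h2 h1
    have hz := pow_ne_zero 2 hζ
    have hw := pow_ne_zero 2 hξ
    apply (algebraMap K (AlgebraicClosure K)).injective
    rw [hx, hy]
    rcases pl_inv (pow_ne_zero _ hz) (pow_ne_zero _ hw) h5 with h6 | h6
    · have h7 : ζ ^ 2 * (ξ ^ 2)⁻¹ = 1 := pl_one he hm (mul_ne_zero hz (inv_ne_zero hw))
        (by rw [mul_pow, inv_pow, h6, mul_inv_cancel₀ (pow_ne_zero _ hw)])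
        (by rw [mul_pow, inv_pow, hζ', hξ'])
      rw [(mul_inv_eq_one₀ hw).1 h7]
    · have h7 : ζ ^ 2 * ξ ^ 2 = 1 := pl_one he hm (mul_ne_zero hz hw)
        (by rw [mul_pow, h6, inv_mul_cancel₀ (pow_ne_zero _ hw)])
        (by rw [mul_pow, hζ', hξ'])
      rw [eq_inv_of_mul_eq_one_left h7, inv_inv, add_comm]
  intro c c' hc
  have e1 : ∀ t : K, t + d = d * (t / d - 1 - 1) := by
    intro t; field_simp; linear_combination d * h3
  have e2 : ∀ t : K, t = d * (t / d - 1 + 1) := by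
    intro t; field_simp; ring
  have h1 : (c + d) ^ (m + 1) - c ^ (m + 1) = (c' + d) ^ (m + 1) - c' ^ (m + 1) := hc
  rw [e1 c, e1 c'] at h1
  have h2 : (d * (c / d - 1 - 1)) ^ (m + 1) - (d * (c / d - 1 + 1)) ^ (m + 1) =
      (d * (c' / d - 1 - 1)) ^ (m + 1) - (d * (c' / d - 1 + 1)) ^ (m + 1) := by
    rw [← e2 c, ← e2 c']; exact h1
  simp only [mul_pow, ← mul_sub] at h2
  have h4 := key _ _ (mul_left_cancel₀ (pow_ne_zero _ hd) h2)
  have h5 : c / d = c' / d := by linear_combination h4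
  exact (div_left_inj' hd).1 h5

/-- The rows of the array: punctured rows, additive rows and the rows that fill the hole. -/
private def plRow {K : Type} [Field K] [DecidableEq K] (n : ℕ) :
    (K × K × K × K) ⊕ (Bool × K × K × K) ⊕ (K × K) → K → (K × K) ⊕ K
  | Sum.inl (i, a, g, h), x =>
      if x = a then Sum.inr i else Sum.inl (g + ((x - a) ^ n + i * x ^ 3), h + i * x)
  | Sum.inr (Sum.inl (b, c, g, h)), x =>
      Sum.inl (g + c * x ^ 3, h + ((if b then 1 else -1) * x ^ 3 + c * x))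
  | Sum.inr (Sum.inr (u, v)), x => Sum.inr (u + v * x)

theorem good_cm {e : ℕ} (he : Odd e) : Good (3 ^ e) (3 ^ e * (3 ^ e + 1)) := by
  classical
  have : Fact (Nat.Prime 3) := ⟨Nat.prime_three⟩
  have he0 : e ≠ 0 := by rintro rfl; simp at he
  let K := GaloisField 3 e
  let _ : Fintype K := Fintype.ofFinite K
  have hK : Fintype.card K = 3 ^ e := by
    rw [← Nat.card_eq_fintype_card]; exact GaloisField.card 3 e he0
  obtain ⟨m, hm⟩ : Odd (3 ^ (e + 2)) := Odd.pow (by decide)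
  have hsq : ∀ t : K, (t ^ (m + 1)) ^ 2 = t ^ 10 := by
    intro t
    have h1 : t ^ 3 ^ e = t := by rw [← hK, FiniteField.pow_card]
    have h2 : (t ^ (m + 1)) ^ 2 = t ^ 3 ^ (e + 2) * t := by rw [hm]; ring
    rw [h2, pow_add, pow_mul, h1]; ring
  have hOA : IsOA (plRow (K := K) (m + 1)) := by
    intro x z hxz
    have hd : x - z ≠ 0 := sub_ne_zero.2 hxz
    have hcube : x ^ 3 - z ^ 3 = (x - z) ^ 3 := (sub_pow_char x z).symm
    rw [Fintype.bijective_iff_surjective_and_card]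
    refine ⟨?_, by simp [Fintype.card_sum, Fintype.card_prod]; ring⟩
    rintro ⟨y | i, y' | i'⟩
    · obtain ⟨y1, y2⟩ := y
      obtain ⟨w1, w2⟩ := y'
      obtain ⟨i, hi⟩ : ∃ i : K, i * (x - z) = y2 - w2 :=
        ⟨(y2 - w2) / (x - z), div_mul_cancel₀ _ hd⟩
      obtain ⟨c, hc⟩ := Finite.injective_iff_surjective.1 (planar_cm he hK hm hd)
        (y1 - w1 - i * (x - z) ^ 3)
      have hc' : (c + (x - z)) ^ (m + 1) - c ^ (m + 1) = y1 - w1 - i * (x - z) ^ 3 := hc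
      by_cases h0 : c = 0 ∨ c + (x - z) = 0
      · have h1 : (y1 - w1 - i * (x - z) ^ 3) ^ 2 = ((x - z) ^ 5) ^ 2 := by
          rcases h0 with h0 | h0
          · rw [← hc', h0, zero_add, zero_pow (Nat.succ_ne_zero m), sub_zero, hsq]; ring
          · rw [← hc', h0, zero_pow (Nat.succ_ne_zero m), zero_sub, neg_sq, hsq,
              eq_neg_of_add_eq_zero_left h0]; ring
        rcases sq_eq_sq_iff_eq_or_eq_neg.1 h1 with h2 | h2
        · refine ⟨Sum.inr (Sum.inl (false, i + (x - z) ^ 2, w1 - (i + (x - z) ^ 2) * z ^ 3,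
            w2 - (-1 * z ^ 3 + (i + (x - z) ^ 2) * z))), ?_⟩
          simp only [plRow, Prod.mk.injEq, Sum.inl.injEq, Bool.false_eq_true, if_false]
          refine ⟨⟨?_, ?_⟩, by ring, by ring⟩
          · linear_combination (i + (x - z) ^ 2) * hcube - h2
          · linear_combination hi - hcube
        · refine ⟨Sum.inr (Sum.inl (true, i - (x - z) ^ 2, w1 - (i - (x - z) ^ 2) * z ^ 3,
            w2 - (1 * z ^ 3 + (i - (x - z) ^ 2) * z))), ?_⟩
          simp only [plRow, Prod.mk.injEq, Sum.inl.injEq, if_true]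
          refine ⟨⟨?_, ?_⟩, by ring, by ring⟩
          · linear_combination (i - (x - z) ^ 2) * hcube - h2
          · linear_combination hi + hcube
      · push Not at h0
        have hx : x ≠ z - c := fun h => h0.2 (by rw [h]; ring)
        have hz : z ≠ z - c := fun h => h0.1 (by linear_combination h)
        refine ⟨Sum.inl (i, z - c, w1 - (c ^ (m + 1) + i * z ^ 3), w2 - i * z), ?_⟩
        have e1 : x - (z - c) = c + (x - z) := by ring
        have e2 : z - (z - c) = c := by ring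
        simp only [plRow, if_neg hx, if_neg hz, e1, e2, Prod.mk.injEq, Sum.inl.injEq]
        refine ⟨⟨?_, ?_⟩, by ring, by ring⟩
        · linear_combination hc' + i * hcube
        · linear_combination hi
    · refine ⟨Sum.inl (i', z, y.1 - ((x - z) ^ (m + 1) + i' * x ^ 3), y.2 - i' * x), ?_⟩
      simp [plRow, hxz]
    · refine ⟨Sum.inl (i, x, y'.1 - ((z - x) ^ (m + 1) + i * z ^ 3), y'.2 - i * z), ?_⟩
      simp [plRow, hxz.symm]
    · refine ⟨Sum.inr (Sum.inr (i - (i - i') / (x - z) * x, (i - i') / (x - z))), ?_⟩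
      simp only [plRow, Prod.mk.injEq, Sum.inr.injEq]
      refine ⟨by ring, ?_⟩
      linear_combination -(div_mul_cancel₀ (i - i') hd)
  exact good_of_isOA hOA hK.ge (by simp [Fintype.card_sum, Fintype.card_prod, hK]; ring)

end Pool.Agent.Lib.MP_ce212d_co
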