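import Pool.Agent.Lib.MP_ce212d_co.Defs

/-!
The combinatorial part of the lower bound sieve.
-/

open Finset

namespace Pool.Agent.Lib.MP_ce212d_co

private lemma sva_count (X H d a : ℕ) (hd : 0 < d) :
    |(((Ico X (X + H)).filter (fun n => n ≡ a [MOD d])).card : ℝ) - H / d| ≤ 1 := by
  have h := Nat.Ico_filter_modEq_card X (X + H) hd a
  have hdq : (0 : ℚ) < d := by exact_mod_cast hd
  set u : ℚ := ((X : ℚ) - a) / d with hu
  have hv : (((X + H : ℕ) : ℚ) - a) / d = u + H / d := by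
    rw [hu]; push_cast; ring
  rw [hv] at h
  have hH : (0 : ℚ) ≤ H / d := by positivity
  have hm : ⌈u⌉ ≤ ⌈u + H / d⌉ := Int.ceil_le_ceil (by linarith)
  rw [max_eq_left (by omega)] at h
  have h1 := Int.le_ceil u
  have h2 := Int.ceil_lt_add_one u
  have h3 := Int.le_ceil (u + H / d)
  have h4 := Int.ceil_lt_add_one (u + H / d)
  have hq : |(((Ico X (X + H)).filter (fun n => n ≡ a [MOD d])).card : ℚ) - H / d| ≤ 1 := by
    have h' : (((Ico X (X + H)).filter (fun n => n ≡ a [MOD d])).card : ℚ)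
        = (⌈u + H / d⌉ : ℚ) - (⌈u⌉ : ℚ) := by exact_mod_cast h
    rw [h', abs_le]
    constructor <;> linarith
  have := (Rat.cast_le (K := ℝ)).mpr hq
  push_cast at this
  exact this

/-- The indicator of the sifted classes. -/
private noncomputable def svaChi (Ω : ℕ → Finset ℕ) (p n : ℕ) : ℝ :=
  if n % p ∈ Ω p then 1 else 0

private lemma sva_split (Ω : ℕ → Finset ℕ) (q : ℕ) (hΩ : Ω q ⊆ range q) (S : Finset ℕ)
    (F : ℕ → ℝ) :
    ∑ n ∈ S, svaChi Ω q n * F n = ∑ r ∈ Ω q, ∑ n ∈ S.filter (fun n => n ≡ r [MOD q]), F n := by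
  simp_rw [sum_filter]
  rw [sum_comm]
  refine sum_congr rfl fun n _ => ?_
  have : ∀ r ∈ Ω q, (if n ≡ r [MOD q] then F n else 0) = if n % q = r then F n else 0 := by
    intro r hr
    have hr' : r < q := mem_range.mp (hΩ hr)
    have : (n ≡ r [MOD q]) ↔ n % q = r := by
      unfold Nat.ModEq
      rw [Nat.mod_eq_of_lt hr']
    simp only [this]
  rw [sum_congr rfl this, sum_ite_eq]
  unfold svaChi
  split_ifs <;> simp

private lemma sva_prod (Ω : ℕ → Finset ℕ) (X H : ℕ) (A B : ℕ → ℝ) (T : Finset ℕ)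
    (hT : ∀ p ∈ T, p.Prime ∧ Ω p ⊆ range p) :
    ∀ d a : ℕ, 0 < d → (∀ p ∈ T, d.Coprime p) →
      |∑ n ∈ (Ico X (X + H)).filter (fun n => n ≡ a [MOD d]),
          ∏ p ∈ T, (A p + B p * svaChi Ω p n) -
        H / d * ∏ p ∈ T, (A p + B p * ((Ω p).card / p))| ≤
        ∏ p ∈ T, (|A p| + |B p| * (Ω p).card) := by
  induction T using Finset.induction_on with
  | empty =>
    intro d a hd _
    simpa using sva_count X H d a hd
  | insert q T hq ih =>
    intro d a hd hc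
    have hT' : ∀ p ∈ T, p.Prime ∧ Ω p ⊆ range p := fun p hp => hT p (mem_insert_of_mem hp)
    obtain ⟨hqp, hqΩ⟩ := hT q (mem_insert_self _ _)
    have hdq : d.Coprime q := hc q (mem_insert_self _ _)
    have ih1 := ih hT' d a hd fun p hp => hc p (mem_insert_of_mem hp)
    have hc2 : ∀ p ∈ T, (d * q).Coprime p := by
      intro p hp
      refine Nat.Coprime.mul_left (hc p (mem_insert_of_mem hp)) ?_
      refine (Nat.coprime_primes hqp (hT' p hp).1).mpr ?_
      rintro rfl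
      exact hq hp
    set M : ℝ := ∏ p ∈ T, (A p + B p * ((Ω p).card / p)) with hM
    set E : ℝ := ∏ p ∈ T, (|A p| + |B p| * (Ω p).card) with hE
    set F : ℕ → ℝ := fun n => ∏ p ∈ T, (A p + B p * svaChi Ω p n) with hF
    have ih2 : ∀ r ∈ Ω q, |∑ n ∈ ((Ico X (X + H)).filter (fun n => n ≡ a [MOD d])).filter
        (fun n => n ≡ r [MOD q]), F n - H / (d * q) * M| ≤ E := by
      intro r _
      obtain ⟨c, hc1, hc3⟩ := Nat.chineseRemainder hdq a r
      have := ih hT' (d * q) c (Nat.mul_pos hd hqp.pos) hc2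
      push_cast at this
      have hs : ((Ico X (X + H)).filter (fun n => n ≡ a [MOD d])).filter
          (fun n => n ≡ r [MOD q]) = (Ico X (X + H)).filter (fun n => n ≡ c [MOD d * q]) := by
        rw [filter_filter]
        refine filter_congr fun n _ => ?_
        rw [← Nat.modEq_and_modEq_iff_modEq_mul hdq]
        exact ⟨fun h => ⟨h.1.trans hc1.symm, h.2.trans hc3.symm⟩,
          fun h => ⟨h.1.trans hc1, h.2.trans hc3⟩⟩
      rw [hs]
      exact this
    simp_rw [prod_insert hq]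
    have e1 : ∑ n ∈ (Ico X (X + H)).filter (fun n => n ≡ a [MOD d]),
        (A q + B q * svaChi Ω q n) * F n =
        A q * ∑ n ∈ (Ico X (X + H)).filter (fun n => n ≡ a [MOD d]), F n +
        B q * ∑ r ∈ Ω q, ∑ n ∈ ((Ico X (X + H)).filter (fun n => n ≡ a [MOD d])).filter
          (fun n => n ≡ r [MOD q]), F n := by
      rw [← sva_split Ω q hqΩ, mul_sum, mul_sum, ← sum_add_distrib]
      refine sum_congr rfl fun n _ => by ring
    have e2 : |∑ r ∈ Ω q, ∑ n ∈ ((Ico X (X + H)).filter (fun n => n ≡ a [MOD d])).filter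
          (fun n => n ≡ r [MOD q]), F n - (Ω q).card * (H / (d * q) * M)| ≤ (Ω q).card * E := by
      rw [← nsmul_eq_mul (Ω q).card, ← nsmul_eq_mul (Ω q).card, ← sum_const, ← sum_const,
        ← sum_sub_distrib]
      exact (abs_sum_le_sum_abs _ _).trans (sum_le_sum ih2)
    change |∑ n ∈ (Ico X (X + H)).filter (fun n => n ≡ a [MOD d]),
        (A q + B q * svaChi Ω q n) * F n - H / d * ((A q + B q * ((Ω q).card / q)) * M)| ≤
        (|A q| + |B q| * (Ω q).card) * E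
    rw [e1]
    set S1 := ∑ n ∈ (Ico X (X + H)).filter (fun n => n ≡ a [MOD d]), F n
    set S2 := ∑ r ∈ Ω q, ∑ n ∈ ((Ico X (X + H)).filter (fun n => n ≡ a [MOD d])).filter
          (fun n => n ≡ r [MOD q]), F n
    have e3 : A q * S1 + B q * S2 - H / d * ((A q + B q * ((Ω q).card / q)) * M) =
        A q * (S1 - H / d * M) + B q * (S2 - (Ω q).card * (H / (d * q) * M)) := by
      rw [← div_div]; ring
    rw [e3]
    refine (abs_add_le _ _).trans ?_
    rw [abs_mul, abs_mul]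
    have := mul_le_mul_of_nonneg_left ih1 (abs_nonneg (A q))
    have := mul_le_mul_of_nonneg_left e2 (abs_nonneg (B q))
    linarith

private lemma sva_hh {κ p : ℕ} (hκ : κ ≤ 2) (hp : p.Prime) :
    0 ≤ hh κ p ∧ hh κ p ≤ 2 ∧ (rho κ p : ℝ) ≤ 2 ∧ hh κ p - (1 + hh κ p) * gg κ p = 0 := by
  have h2 := hp.two_le
  have hr1 : rho κ p ≤ 2 := (min_le_left _ _).trans hκ
  have hr2 : rho κ p + 1 ≤ p := by
    have : rho κ p ≤ p - 1 := min_le_right _ _
    omega
  have a1 : (rho κ p : ℝ) ≤ 2 := by exact_mod_cast hr1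
  have a2 : (rho κ p : ℝ) + 1 ≤ p := by exact_mod_cast hr2
  have a3 : (0 : ℝ) ≤ rho κ p := Nat.cast_nonneg _
  have a4 : (0 : ℝ) < (p : ℝ) - rho κ p := by linarith
  have a5 : (0 : ℝ) < p := by linarith
  refine ⟨div_nonneg a3 a4.le, ?_, a1, ?_⟩
  · unfold hh
    rw [div_le_iff₀ a4]
    linarith
  · unfold hh gg
    field_simp
    ring

/-- The mean zero local function. -/
private noncomputable def svaPsi (κ : ℕ) (Ω : ℕ → Finset ℕ) (p n : ℕ) : ℝ :=
  hh κ p - (1 + hh κ p) * svaChi Ω p n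

private lemma sva_pair {κ : ℕ} (hκ : κ ≤ 2) (P : Finset ℕ) (hP : ∀ p ∈ P, p.Prime)
    (Ω : ℕ → Finset ℕ) (hΩ : ∀ p ∈ P, Ω p ⊆ range p ∧ (Ω p).card = rho κ p) (X H d a : ℕ)
    (hd : 0 < d) (hc : ∀ p ∈ P, d.Coprime p) (T1 T2 : Finset ℕ) (h1 : T1 ⊆ P) (h2 : T2 ⊆ P) :
    |∑ n ∈ (Ico X (X + H)).filter (fun n => n ≡ a [MOD d]),
        (∏ p ∈ T1, svaPsi κ Ω p n) * (∏ p ∈ T2, svaPsi κ Ω p n) -
      H / d * (if T1 = T2 then ∏ p ∈ T1, hh κ p else 0)| ≤ 8 ^ T1.card * 8 ^ T2.card := by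
  classical
  let A : ℕ → ℝ := fun p => if p ∈ T1 then (if p ∈ T2 then hh κ p ^ 2 else hh κ p)
    else (if p ∈ T2 then hh κ p else 1)
  let B : ℕ → ℝ := fun p => if p ∈ T1 then (if p ∈ T2 then 1 - hh κ p ^ 2 else -(1 + hh κ p))
    else (if p ∈ T2 then -(1 + hh κ p) else 0)
  have key := sva_prod Ω X H A B P (fun p hp => ⟨hP p hp, (hΩ p hp).1⟩) d a hd hc
  have ext : ∀ (T : Finset ℕ) (f : ℕ → ℝ), T ⊆ P →
      ∏ p ∈ T, f p = ∏ p ∈ P, if p ∈ T then f p else 1 := by
    intro T f hT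
    rw [prod_ite_mem, inter_eq_right.mpr hT]
  have e1 : ∀ n, (∏ p ∈ T1, svaPsi κ Ω p n) * (∏ p ∈ T2, svaPsi κ Ω p n) =
      ∏ p ∈ P, (A p + B p * svaChi Ω p n) := by
    intro n
    rw [ext T1 _ h1, ext T2 _ h2, ← prod_mul_distrib]
    refine prod_congr rfl fun p _ => ?_
    simp only [A, B, svaPsi, svaChi]
    split_ifs <;> ring
  have e2 : (if T1 = T2 then ∏ p ∈ T1, hh κ p else 0) =
      ∏ p ∈ P, (A p + B p * ((Ω p).card / p)) := by
    split_ifs with h
    · subst h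
      rw [ext T1 _ h1]
      refine prod_congr rfl fun p hp => ?_
      have h4 := (sva_hh hκ (hP p hp)).2.2.2
      rw [(hΩ p hp).2]
      change _ = A p + B p * gg κ p
      simp only [A, B]
      split_ifs
      · linear_combination (1 - hh κ p) * h4
      · ring
    · have : ∃ p, ¬ (p ∈ T1 ↔ p ∈ T2) := by
        by_contra hne
        push Not at hne
        exact h (Finset.ext hne)
      obtain ⟨p, hp⟩ := this
      have hpP : p ∈ P := by
        by_cases h' : p ∈ T1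
        · exact h1 h'
        · exact h2 (by tauto)
      refine (prod_eq_zero hpP ?_).symm
      have h4 := (sva_hh hκ (hP p hpP)).2.2.2
      rw [(hΩ p hpP).2]
      change A p + B p * gg κ p = 0
      simp only [A, B]
      split_ifs
      · tauto
      · linarith
      · linarith
      · tauto
  have e3 : ∏ p ∈ P, (|A p| + |B p| * (Ω p).card) ≤ 8 ^ T1.card * 8 ^ T2.card := by
    rw [← prod_const, ← prod_const, ext T1 _ h1, ext T2 _ h2, ← prod_mul_distrib]
    refine prod_le_prod (fun p _ => add_nonneg (abs_nonneg _)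
      (mul_nonneg (abs_nonneg _) (Nat.cast_nonneg _))) fun p hp => ?_
    obtain ⟨a1, a2, a3, -⟩ := sva_hh hκ (hP p hp)
    rw [(hΩ p hp).2]
    have a4 : (0 : ℝ) ≤ rho κ p := Nat.cast_nonneg _
    have b1 : |hh κ p| ≤ 2 := by rw [abs_of_nonneg a1]; exact a2
    have b2 : |-(1 + hh κ p)| ≤ 3 := by rw [abs_neg, abs_of_nonneg (by linarith)]; linarith
    have b3 : |hh κ p ^ 2| ≤ 4 := by rw [abs_of_nonneg (by positivity)]; nlinarith
    have b4 : |1 - hh κ p ^ 2| ≤ 3 := by rw [abs_le]; constructor <;> nlinarith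
    have b5 := mul_le_mul b2 a3 a4 (by norm_num)
    have b6 := mul_le_mul b4 a3 a4 (by norm_num)
    simp only [A, B]
    split_ifs
    · linarith
    · linarith
    · linarith
    · simp
  simp_rw [e1]
  rw [e2]
  exact key.trans e3

private lemma sva_quad {κ : ℕ} (hκ : κ ≤ 2) (P : Finset ℕ) (hP : ∀ p ∈ P, p.Prime)
    (Ω : ℕ → Finset ℕ) (hΩ : ∀ p ∈ P, Ω p ⊆ range p ∧ (Ω p).card = rho κ p) (X H d a : ℕ)
    (hd : 0 < d) (hc : ∀ p ∈ P, d.Coprime p) (z : Finset ℕ → ℝ) :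
    |∑ n ∈ (Ico X (X + H)).filter (fun n => n ≡ a [MOD d]),
        (∑ T ∈ P.powerset, z T * ∏ p ∈ T, svaPsi κ Ω p n) ^ 2 -
      H / d * ∑ T ∈ P.powerset, z T ^ 2 * ∏ p ∈ T, hh κ p| ≤
      (∑ T ∈ P.powerset, |z T| * 8 ^ T.card) ^ 2 := by
  classical
  have e1 : ∑ n ∈ (Ico X (X + H)).filter (fun n => n ≡ a [MOD d]),
        (∑ T ∈ P.powerset, z T * ∏ p ∈ T, svaPsi κ Ω p n) ^ 2 =
      ∑ T1 ∈ P.powerset, ∑ T2 ∈ P.powerset, z T1 * z T2 *
        ∑ n ∈ (Ico X (X + H)).filter (fun n => n ≡ a [MOD d]),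
          (∏ p ∈ T1, svaPsi κ Ω p n) * (∏ p ∈ T2, svaPsi κ Ω p n) := by
    simp_rw [sq, sum_mul_sum]
    rw [sum_comm]
    refine sum_congr rfl fun T1 _ => ?_
    rw [sum_comm]
    refine sum_congr rfl fun T2 _ => ?_
    rw [mul_sum]
    exact sum_congr rfl fun n _ => by ring
  have e2 : (H : ℝ) / d * ∑ T ∈ P.powerset, z T ^ 2 * ∏ p ∈ T, hh κ p =
      ∑ T1 ∈ P.powerset, ∑ T2 ∈ P.powerset, z T1 * z T2 *
        (H / d * (if T1 = T2 then ∏ p ∈ T1, hh κ p else 0)) := by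
    rw [mul_sum]
    refine sum_congr rfl fun T1 h1 => ?_
    rw [sum_eq_single_of_mem T1 h1]
    · simp only [if_true]; ring
    · intro T2 _ hne
      rw [if_neg (Ne.symm hne)]; ring
  rw [e1, e2, ← sum_sub_distrib, sq, sum_mul_sum]
  refine (abs_sum_le_sum_abs _ _).trans (sum_le_sum fun T1 h1 => ?_)
  rw [← sum_sub_distrib]
  refine (abs_sum_le_sum_abs _ _).trans (sum_le_sum fun T2 h2 => ?_)
  rw [← mul_sub, abs_mul, abs_mul]
  have := sva_pair hκ P hP Ω hΩ X H d a hd hc T1 T2 (mem_powerset.mp h1) (mem_powerset.mp h2)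
  have := mul_le_mul_of_nonneg_left this (mul_nonneg (abs_nonneg (z T1)) (abs_nonneg (z T2)))
  linarith

theorem criterion {κ : ℕ} (hκ : κ ≤ 2) (P Q : Finset ℕ) (hP : ∀ p ∈ P, p.Prime) (hQ : Q ⊆ P)
    (Ω : ℕ → Finset ℕ) (hΩ : ∀ p ∈ P, Ω p ⊆ range p ∧ (Ω p).card = rho κ p) (y : Finset ℕ → ℝ)
    (X H : ℕ) (h : (1 + 2 * Q.card) * (∑ T ∈ P.powerset, |y T| * 8 ^ T.card) ^ 2 <
      H * mainT κ P Q y) : ∃ n, X ≤ n ∧ n < X + H ∧ ∀ p ∈ Q, n % p ∉ Ω p := by
  classical
  by_contra hne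
  push Not at hne
  set E : ℝ := ∑ T ∈ P.powerset, |y T| * 8 ^ T.card with hE
  set W : ℕ → ℝ := fun n => ∑ T ∈ P.powerset, y T * ∏ p ∈ T, svaPsi κ Ω p n with hW
  have h0 := sva_quad hκ P hP Ω hΩ X H 1 0 one_pos (fun p _ => Nat.coprime_one_left p) y
  rw [filter_true_of_mem (fun n _ => Nat.modEq_one)] at h0
  simp only [Nat.cast_one, div_one] at h0
  have h1 : ∀ q ∈ Q, ∑ n ∈ Ico X (X + H), svaChi Ω q n * W n ^ 2 ≤
      H * (gg κ q * ∑ T ∈ (P.erase q).powerset,
        (y T - y (insert q T)) ^ 2 * ∏ p ∈ T, hh κ p) + 2 * E ^ 2 := by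
    intro q hq
    have hqP := hQ hq
    have hqp := hP q hqP
    have hPe : P = insert q (P.erase q) := (insert_erase hqP).symm
    have hnq : q ∉ P.erase q := notMem_erase q P
    set E' : ℝ := ∑ T ∈ (P.erase q).powerset, |y T - y (insert q T)| * 8 ^ T.card with hE'
    have hE0 : 0 ≤ E' := sum_nonneg fun T _ => by positivity
    have hEE : E' ≤ E := by
      rw [hE, hPe, sum_powerset_insert hnq, ← sum_add_distrib]
      refine sum_le_sum fun T hT => ?_
      have hqT : q ∉ T := fun h' => hnq (mem_powerset.mp hT h')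
      rw [card_insert_of_notMem hqT, pow_succ]
      have a1 := abs_sub (y T) (y (insert q T))
      have a2 : (0 : ℝ) < 8 ^ T.card := by positivity
      have a3 := abs_nonneg (y (insert q T))
      nlinarith [mul_le_mul_of_nonneg_right a1 a2.le, mul_nonneg a3 a2.le]
    have hEE2 : E' ^ 2 ≤ E ^ 2 := pow_le_pow_left₀ hE0 hEE 2
    set D : ℝ := ∑ T ∈ (P.erase q).powerset, (y T - y (insert q T)) ^ 2 * ∏ p ∈ T, hh κ p
    have h2 : ∀ r ∈ Ω q, ∑ n ∈ (Ico X (X + H)).filter (fun n => n ≡ r [MOD q]), W n ^ 2 ≤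
        H / q * D + E ^ 2 := by
      intro r hr
      have h3 := sva_quad hκ (P.erase q) (fun p hp => hP p (mem_of_mem_erase hp)) Ω
        (fun p hp => hΩ p (mem_of_mem_erase hp)) X H q r hqp.pos
        (fun p hp => (Nat.coprime_primes hqp (hP p (mem_of_mem_erase hp))).mpr
          (ne_of_mem_erase hp).symm) (fun T => y T - y (insert q T))
      have h4 : ∀ n ∈ (Ico X (X + H)).filter (fun n => n ≡ r [MOD q]), W n ^ 2 =
          (∑ T ∈ (P.erase q).powerset, (y T - y (insert q T)) * ∏ p ∈ T, svaPsi κ Ω p n) ^ 2 := by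
        intro n hn
        have hr' : r < q := mem_range.mp ((hΩ q hqP).1 hr)
        have hn' : n % q = r := by
          have := (mem_filter.mp hn).2
          unfold Nat.ModEq at this
          rwa [Nat.mod_eq_of_lt hr'] at this
        have hψ : svaPsi κ Ω q n = -1 := by
          unfold svaPsi svaChi
          rw [hn', if_pos hr]
          ring
        congr 1
        simp only [hW]
        conv_lhs => rw [hPe]
        rw [sum_powerset_insert hnq, ← sum_add_distrib]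
        refine sum_congr rfl fun T hT => ?_
        have hqT : q ∉ T := fun h' => hnq (mem_powerset.mp hT h')
        rw [prod_insert hqT, hψ]
        ring
      rw [sum_congr rfl h4]
      have := (abs_le.mp h3).2
      linarith
    rw [sva_split Ω q (hΩ q hqP).1]
    refine (sum_le_sum h2).trans ?_
    rw [sum_const, nsmul_eq_mul, (hΩ q hqP).2]
    have a3 := (sva_hh hκ hqp).2.2.1
    have a4 := mul_le_mul_of_nonneg_right a3 (sq_nonneg E)
    have a5 : (rho κ q : ℝ) * (H / q * D + E ^ 2) = H * (gg κ q * D) + rho κ q * E ^ 2 := by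
      unfold gg; ring
    linarith
  have h5 : ∑ n ∈ Ico X (X + H), W n ^ 2 ≤
      ∑ q ∈ Q, ∑ n ∈ Ico X (X + H), svaChi Ω q n * W n ^ 2 := by
    rw [sum_comm]
    refine sum_le_sum fun n hn => ?_
    obtain ⟨q, hq, hq'⟩ := hne n (mem_Ico.mp hn).1 (mem_Ico.mp hn).2
    have := single_le_sum (f := fun q => svaChi Ω q n * W n ^ 2) (fun q _ => mul_nonneg
      (by unfold svaChi; split_ifs <;> norm_num) (sq_nonneg _)) hq
    simp only [svaChi, if_pos hq', one_mul] at this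
    exact this
  have h6 := h5.trans (sum_le_sum h1)
  rw [sum_add_distrib, ← mul_sum, sum_const, nsmul_eq_mul] at h6
  have h7 := (abs_le.mp h0).1
  unfold mainT at h
  rw [mul_sub] at h
  change _ ≤ ∑ n ∈ Ico X (X + H), W n ^ 2 - _ at h7
  linarith

end Pool.Agent.Lib.MP_ce212d_co
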