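import Pool.Agent.Lib.MP_ce212d_co.Defs

/-!
Asymptotics of the truncated moments.
-/

open Finset

namespace Pool.Agent.Lib.MP_ce212d_co

private lemma svo_ins (P : Finset ℕ) {p : ℕ} (hp : p ∈ P) (F : Finset ℕ → ℝ) :
    ∑ T ∈ P.powerset, (if p ∈ T then F T else 0)
      = ∑ T ∈ P.powerset, if p ∈ T then 0 else F (insert p T) := by
  rw [← sum_filter, ← sum_filter_add_sum_filter_not P.powerset (fun T => p ∈ T)
    (fun T => if p ∈ T then 0 else F (insert p T)),
    sum_eq_zero (s := P.powerset.filter fun T => p ∈ T) (f := fun T =>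
      if p ∈ T then 0 else F (insert p T)) (fun T hT => if_pos (mem_filter.1 hT).2), zero_add]
  refine sum_nbij' (fun T => T.erase p) (fun T => insert p T) ?_ ?_ ?_ ?_ ?_
  · intro T hT
    simp only [mem_filter, mem_powerset] at hT ⊢
    exact ⟨(erase_subset _ _).trans hT.1, notMem_erase _ _⟩
  · intro T hT
    simp only [mem_filter, mem_powerset] at hT ⊢
    exact ⟨insert_subset hp hT.1, mem_insert_self _ _⟩
  · intro T hT
    exact insert_erase (mem_filter.1 hT).2
  · intro T hT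
    exact erase_insert (mem_filter.1 hT).2
  · intro T hT
    rw [if_neg (notMem_erase _ _), insert_erase (mem_filter.1 hT).2]

private lemma svo_m0 (P : Finset ℕ) (h t : ℕ → ℝ) (u : ℝ) : mom P h t 0 u
    = ∑ T ∈ P.powerset, (∏ p ∈ T, h p) * if ∑ p ∈ T, t p ≤ u then 1 else 0 := by
  rw [mom, sum_filter]
  exact sum_congr rfl fun T _ => by split_ifs <;> simp

private lemma svo_m1 (P : Finset ℕ) (h t : ℕ → ℝ) (j : ℕ) (u : ℝ) : mom P h t (j + 1) u
    = ∑ T ∈ P.powerset, (∏ p ∈ T, h p) * max (u - ∑ p ∈ T, t p) 0 ^ (j + 1) := by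
  rw [mom, sum_filter]
  refine sum_congr rfl fun T _ => ?_
  split_ifs with h1
  · rw [max_eq_left (by linarith)]
  · rw [max_eq_right (by linarith)]; simp

private lemma svo_max (l x : ℝ) : HasDerivWithinAt (fun u => max (u - l) 0)
    (if l ≤ x then 1 else 0) (Set.Ici x) x := by
  split_ifs with h1
  · refine ((hasDerivAt_id x).sub_const l).hasDerivWithinAt.congr (fun y hy => ?_) ?_
    · exact max_eq_left (sub_nonneg.2 (h1.trans (Set.mem_Ici.1 hy)))
    · exact max_eq_left (sub_nonneg.2 h1)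
  · refine ((hasDerivAt_const x (0 : ℝ)).congr_of_eventuallyEq ?_).hasDerivWithinAt
    filter_upwards [Iio_mem_nhds (not_le.1 h1)] with y hy
    exact max_eq_right (by have := Set.mem_Iio.1 hy; linarith)

private lemma svo_d1 (P : Finset ℕ) (h t : ℕ → ℝ) (x : ℝ) :
    HasDerivWithinAt (mom P h t 1) (mom P h t 0 x) (Set.Ici x) x := by
  have h1 : mom P h t 1 = fun u => ∑ T ∈ P.powerset, (∏ p ∈ T, h p) * max (u - ∑ p ∈ T, t p) 0 :=
    funext fun u => by simpa using svo_m1 P h t 0 u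
  rw [h1, svo_m0]
  exact HasDerivWithinAt.fun_sum fun T _ => (svo_max _ x).const_mul _

private lemma svo_d2 (P : Finset ℕ) (h t : ℕ → ℝ) (x : ℝ) :
    HasDerivWithinAt (mom P h t 2) (2 * mom P h t 1 x) (Set.Ici x) x := by
  have h1 : mom P h t 2
      = fun u => ∑ T ∈ P.powerset, (∏ p ∈ T, h p) * max (u - ∑ p ∈ T, t p) 0 ^ 2 :=
    funext fun u => svo_m1 P h t 1 u
  rw [h1, svo_m1 P h t 0 x, mul_sum]
  refine HasDerivWithinAt.fun_sum fun T _ => ?_
  refine (((svo_max (∑ p ∈ T, t p) x).fun_pow 2).const_mul (∏ p ∈ T, h p)).congr_deriv ?_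
  split_ifs with h2
  · norm_num; ring
  · rw [max_eq_right (by linarith)]; simp

private lemma svo_cont (P : Finset ℕ) (h t : ℕ → ℝ) (j : ℕ) : Continuous (mom P h t (j + 1)) := by
  rw [funext (svo_m1 P h t j)]
  fun_prop

private lemma svo_mono {f f' : ℝ → ℝ} {a b : ℝ} (hab : a ≤ b) (hf : ContinuousOn f (Set.Icc a b))
    (hf' : ∀ x ∈ Set.Ico a b, HasDerivWithinAt f (f' x) (Set.Ici x) x)
    (h0 : ∀ x ∈ Set.Ico a b, 0 ≤ f' x) : f a ≤ f b :=
  image_le_of_deriv_right_le_deriv_boundary (f := fun _ => f a) (f' := fun _ => 0)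
    continuousOn_const (fun _ _ => hasDerivWithinAt_const _ _ _) le_rfl hf hf' h0 ⟨hab, le_rfl⟩

private lemma svo_nonneg (P : Finset ℕ) (h t : ℕ → ℝ) (hh : ∀ p ∈ P, 0 ≤ h p) (j : ℕ) (u : ℝ) :
    0 ≤ mom P h t j u :=
  sum_nonneg fun _ hT => mul_nonneg
    (prod_nonneg fun p hp => hh p (mem_powerset.1 (mem_filter.1 hT).1 hp))
    (pow_nonneg (sub_nonneg.2 (mem_filter.1 hT).2) _)

private lemma svo_step (κ : ℕ) (C : ℝ) (P : Finset ℕ) (h t : ℕ → ℝ) (L : ℝ)
    (hh : ∀ p ∈ P, 0 ≤ h p) (ht : ∀ p ∈ P, 0 < t p)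
    (hA : ∀ u, 0 ≤ u → u ≤ L → |∑ p ∈ P with t p ≤ u, h p * t p - κ * u| ≤ C)
    (hB : ∑ p ∈ P, h p ^ 2 * t p ≤ C) {u : ℝ} (hu : u ≤ L) :
    |u * mom P h t 0 u - (κ + 1) * mom P h t 1 u| ≤ 2 * C * mom P h t 0 u := by
  set w : Finset ℕ → ℝ := fun T => ∏ p ∈ T, h p with hw
  set l : Finset ℕ → ℝ := fun T => ∑ p ∈ T, t p with hl
  have hw0 : ∀ T ∈ P.powerset, 0 ≤ w T := fun T hT =>
    prod_nonneg fun p hp => hh p (mem_powerset.1 hT hp)
  have hl0 : ∀ T ∈ P.powerset, 0 ≤ l T := fun T hT =>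
    sum_nonneg fun p hp => (ht p (mem_powerset.1 hT hp)).le
  have hG : mom P h t 0 u = ∑ T ∈ P.powerset, if l T ≤ u then w T else 0 := by
    rw [svo_m0]
    exact sum_congr rfl fun T _ => by simp only [hw, hl]; split_ifs <;> simp
  have hT : mom P h t 1 u = ∑ T ∈ P.powerset, if l T ≤ u then w T * (u - l T) else 0 := by
    rw [mom, sum_filter]
    exact sum_congr rfl fun T _ => by simp only [hw, hl, pow_one]
  set z : ℕ → Finset ℕ → ℝ := fun p T => if l T + t p ≤ u then w T * (h p * t p) else 0 with hz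
  have h1 : u * mom P h t 0 u - mom P h t 1 u
      = ∑ p ∈ P, ∑ T ∈ P.powerset, if p ∈ T then 0 else z p T := by
    have h2 : ∀ p ∈ P, ∑ T ∈ P.powerset, (if p ∈ T then 0 else z p T)
        = ∑ T ∈ P.powerset, if p ∈ T then (if l T ≤ u then w T * t p else 0) else 0 := by
      intro p hp
      rw [svo_ins P hp]
      refine sum_congr rfl fun T _ => ?_
      split_ifs with h3 h4
      · rfl
      · simp only [hz, hl, hw, sum_insert h3, prod_insert h3] at h4 ⊢
        rw [if_pos (by linarith)]; ring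
      · simp only [hz, hl, hw, sum_insert h3] at h4 ⊢
        rw [if_neg (by intro h5; apply h4; linarith)]
    rw [sum_congr rfl h2, sum_comm, hG, hT, mul_sum, ← sum_sub_distrib]
    refine sum_congr rfl fun T hT => ?_
    rw [← sum_filter, filter_mem_eq_inter, inter_eq_right.2 (mem_powerset.1 hT)]
    split_ifs with h3
    · rw [← mul_sum]; simp only [hl]; ring
    · simp
  have h2 : |∑ p ∈ P, ∑ T ∈ P.powerset, z p T - κ * mom P h t 1 u| ≤ C * mom P h t 0 u := by
    rw [sum_comm, hG, hT, mul_sum, mul_sum, ← sum_sub_distrib]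
    refine (abs_sum_le_sum_abs _ _).trans (sum_le_sum fun T hT => ?_)
    split_ifs with h3
    · have h4 := hA (u - l T) (by linarith) (by linarith [hl0 T hT])
      have h5 : ∑ p ∈ P, z p T = w T * ∑ p ∈ P with t p ≤ u - l T, h p * t p := by
        rw [sum_filter, mul_sum]
        refine sum_congr rfl fun p _ => ?_
        simp only [hz]
        split_ifs with h6 h7 h7
        · rfl
        · exact absurd (by linarith) h7
        · exact absurd (by linarith) h6
        · simp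
      rw [h5, mul_left_comm, ← mul_sub, abs_mul, abs_of_nonneg (hw0 T hT), mul_comm C]
      exact mul_le_mul_of_nonneg_left h4 (hw0 T hT)
    · rw [sum_eq_zero fun p hp => if_neg (by have := ht p hp; intro h5; apply h3; linarith)]
      simp
  have hz0 : ∀ p ∈ P, ∀ T ∈ P.powerset, 0 ≤ z p T := fun p hp T hT => by
    simp only [hz]
    split_ifs
    · exact mul_nonneg (hw0 T hT) (mul_nonneg (hh p hp) (ht p hp).le)
    · exact le_rfl
  have h3 : ∑ p ∈ P, ∑ T ∈ P.powerset, (if p ∈ T then z p T else 0) ≤ C * mom P h t 0 u := by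
    refine le_trans ?_ (mul_le_mul_of_nonneg_right hB (svo_nonneg P h t hh 0 u))
    rw [sum_mul]
    refine sum_le_sum fun p hp => ?_
    rw [svo_ins P hp, hG, mul_sum]
    refine sum_le_sum fun T hT => ?_
    have h4 : 0 ≤ h p ^ 2 * t p * w T :=
      mul_nonneg (mul_nonneg (sq_nonneg _) (ht p hp).le) (hw0 T hT)
    have h5 := ht p hp
    by_cases h6 : p ∈ T
    · rw [if_pos h6]; split_ifs <;> simp [h4]
    · rw [if_neg h6]
      simp only [hz, hl, hw, sum_insert h6, prod_insert h6] at h4 ⊢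
      split_ifs with h7 h8 h8
      · exact le_of_eq (by ring)
      · exact absurd (by linarith) h8
      · exact h4
      · simp
  have h4 : 0 ≤ ∑ p ∈ P, ∑ T ∈ P.powerset, (if p ∈ T then z p T else 0) :=
    sum_nonneg fun p hp => sum_nonneg fun T hT => by
      split_ifs
      · exact hz0 p hp T hT
      · exact le_rfl
  have h5 : ∑ p ∈ P, ∑ T ∈ P.powerset, z p T
      = ∑ p ∈ P, ∑ T ∈ P.powerset, (if p ∈ T then 0 else z p T)
        + ∑ p ∈ P, ∑ T ∈ P.powerset, (if p ∈ T then z p T else 0) := by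
    rw [← sum_add_distrib]
    refine sum_congr rfl fun p _ => ?_
    rw [← sum_add_distrib]
    exact sum_congr rfl fun T _ => by split_ifs <;> simp
  rw [abs_le] at h2 ⊢
  constructor <;> linarith [h2.1, h2.2]

private lemma svo_up {κ : ℕ} {f g : ℝ → ℝ} {D L u : ℝ} (hD : 0 < D) (hu : 0 ≤ u) (huL : u ≤ L)
    (hf : Continuous f) (hd : ∀ x, HasDerivWithinAt f (g x) (Set.Ici x) x)
    (h1 : ∀ x, x ≤ L → (κ + 1) * f x ≤ (x + D) * g x) :
    f u / (u + D) ^ (κ + 1) ≤ f L / (L + D) ^ (κ + 1) := by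
  refine svo_mono (f := fun x => f x / (x + D) ^ (κ + 1)) huL
    (hf.continuousOn.div (by fun_prop) fun x hx => (pow_pos (by linarith [hx.1]) _).ne')
    (fun x hx => (hd x).fun_div (((hasDerivAt_id x).add_const D).fun_pow (κ + 1)).hasDerivWithinAt
      (pow_pos (by linarith [hx.1]) _).ne') fun x hx => div_nonneg ?_ (sq_nonneg _)
  have h2 := mul_le_mul_of_nonneg_right (h1 x hx.2.le) (pow_pos (by linarith [hx.1] : 0 < x + D) κ).le
  simp only [id, Nat.add_sub_cancel, pow_succ]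
  push_cast
  nlinarith

private lemma svo_low {κ : ℕ} {f g : ℝ → ℝ} {D L u : ℝ} (hu : D < u) (huL : u ≤ L)
    (hf : Continuous f) (hd : ∀ x, HasDerivWithinAt f (g x) (Set.Ici x) x)
    (h1 : ∀ x, x ≤ L → (x - D) * g x ≤ (κ + 1) * f x) :
    f L / (L - D) ^ (κ + 1) ≤ f u / (u - D) ^ (κ + 1) := by
  refine neg_le_neg_iff.1 (svo_mono (f := fun x => -(f x / (x - D) ^ (κ + 1))) huL
    (hf.continuousOn.div (by fun_prop) fun x hx => (pow_pos (by linarith [hx.1]) _).ne').neg
    (fun x hx => ((hd x).fun_div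
      (((hasDerivAt_id x).sub_const D).fun_pow (κ + 1)).hasDerivWithinAt
      (pow_pos (show 0 < x - D by linarith [hx.1]) _).ne').fun_neg) fun x hx =>
    neg_nonneg.2 (div_nonpos_of_nonpos_of_nonneg ?_ (sq_nonneg _)))
  have h2 := mul_le_mul_of_nonneg_right (h1 x hx.2.le) (pow_pos (by linarith [hx.1] : 0 < x - D) κ).le
  simp only [id, Nat.add_sub_cancel, pow_succ]
  push_cast
  nlinarith

private lemma svo_pa {κ : ℕ} (h1 : 1 ≤ κ) (h2 : κ ≤ 2) {D L u : ℝ} (hD : 0 < D) (hL : 2 * D ≤ L)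
    (hu : 0 ≤ u) (huL : u ≤ L) :
    (u + D) ^ (κ + 1) ≤ u ^ (κ + 1) + 12 * D * L ^ κ ∧
    (D < u → u ^ (κ + 1) ≤ (u - D) ^ (κ + 1) + 12 * D * L ^ κ) ∧
    (u ≤ D → u ^ (κ + 1) ≤ 12 * D * L ^ κ) ∧
    (D < u → u ^ κ * (u + D) ≤ (u - D) ^ (κ + 1) + 4 * D * L ^ (κ - 1) * (u + D)) ∧
    (u ≤ 2 * D → u ^ κ ≤ 2 * D * L ^ (κ - 1)) ∧
    (2 * D ≤ u → (u + D) ^ (κ + 1) ≤ u ^ κ * (u - D) + 12 * D * L ^ (κ - 1) * (u - D)) := by
  have e1 : u * u ≤ L * L := mul_le_mul huL huL hu (by linarith)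
  have e2 : u * D ≤ L * L := mul_le_mul huL (by linarith) hD.le (by linarith)
  have e3 : D * D ≤ L * L := mul_le_mul (by linarith) (by linarith) hD.le (by linarith)
  have e4 : u * u ≤ L * u := mul_le_mul_of_nonneg_right huL hu
  have e5 : D * D ≤ L * D := mul_le_mul_of_nonneg_right (by linarith) hD.le
  have e6 : 0 ≤ u * D := mul_nonneg hu hD.le
  have f1 := mul_le_mul_of_nonneg_left e1 hD.le
  have f2 := mul_le_mul_of_nonneg_left e2 hD.le
  have f3 := mul_le_mul_of_nonneg_left e3 hD.le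
  have f4 := mul_le_mul_of_nonneg_left e4 hD.le
  have f5 := mul_le_mul_of_nonneg_left e5 hD.le
  have f6 := mul_nonneg hD.le e6
  have f7 : D * u ≤ D * L := mul_le_mul_of_nonneg_left huL hD.le
  have f8 : 0 ≤ D * (L * L) := mul_nonneg hD.le (mul_self_nonneg L)
  obtain rfl | rfl : κ = 1 ∨ κ = 2 := by omega
  · norm_num
    refine ⟨by nlinarith, fun h => by nlinarith, fun h => by nlinarith, fun h => by nlinarith,
      fun h => by nlinarith⟩
  · norm_num
    refine ⟨by nlinarith, fun h => by nlinarith, fun h => ?_, fun h => by nlinarith,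
      fun h => by nlinarith, fun h => ?_⟩
    · have := mul_le_mul_of_nonneg_right h (mul_nonneg hu hu)
      nlinarith
    · have g1 : D * (L * u) ≤ D * (L * (2 * (u - D))) := by gcongr <;> linarith
      have g2 : D * (L * D) ≤ D * (L * (u - D)) := by gcongr <;> linarith
      have g3 : D * (u * D) ≤ D * (L * D) := by gcongr
      nlinarith

theorem mom_asymp {κ : ℕ} (h1 : 1 ≤ κ) (h2 : κ ≤ 2) (C : ℝ) (hC : 1 ≤ C) : ∃ C' : ℝ, 1 ≤ C' ∧
    ∀ (P : Finset ℕ) (h t : ℕ → ℝ) (L : ℝ), (∀ p ∈ P, 0 ≤ h p) → (∀ p ∈ P, 0 < t p) → 4 * C ≤ L →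
      (∀ u, 0 ≤ u → u ≤ L → |∑ p ∈ P with t p ≤ u, h p * t p - κ * u| ≤ C) →
      ∑ p ∈ P, h p ^ 2 * t p ≤ C → ∃ c : ℝ, 1 ≤ c * L ^ κ ∧ ∀ u, 0 ≤ u → u ≤ L →
        |mom P h t 0 u - (κ + 1) * c * u ^ κ| ≤ C' * c * L ^ (κ - 1) ∧
        |mom P h t 1 u - c * u ^ (κ + 1)| ≤ C' * c * L ^ κ ∧
        |mom P h t 2 u - 2 * c * u ^ (κ + 2) / (κ + 2)| ≤ C' * c * L ^ (κ + 1) := by
  obtain ⟨D, hD⟩ : ∃ D, D = 2 * C := ⟨_, rfl⟩
  have hD0 : 0 < D := by linarith
  refine ⟨50 * D, by linarith, fun P h t L hh ht hL hA hB => ?_⟩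
  have hL2 : 2 * D ≤ L := by linarith
  have hL0 : 0 < L := by linarith
  have hs := fun u hu => abs_le.1 (svo_step κ C P h t L hh ht hA hB (u := u) hu)
  rw [← hD] at hs
  have hs1 : ∀ x, x ≤ L → (κ + 1) * mom P h t 1 x ≤ (x + D) * mom P h t 0 x := fun x hx => by
    linarith [(hs x hx).1]
  have hs2 : ∀ x, x ≤ L → (x - D) * mom P h t 0 x ≤ (κ + 1) * mom P h t 1 x := fun x hx => by
    linarith [(hs x hx).2]
  have hT0 := svo_nonneg P h t hh 1
  have hG0 := svo_nonneg P h t hh 0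
  obtain ⟨c, hc⟩ : ∃ c, c = mom P h t 1 L / L ^ (κ + 1) := ⟨_, rfl⟩
  have hc0 : 0 ≤ c := hc ▸ div_nonneg (hT0 L) (by positivity)
  have hk1 : (0 : ℝ) < κ + 1 := by positivity
  have hk3 : (κ + 1 : ℝ) ≤ 3 := by
    have : (κ : ℝ) ≤ 2 := by exact_mod_cast h2
    linarith
  have hup : ∀ u, 0 ≤ u → u ≤ L → mom P h t 1 u ≤ c * (u + D) ^ (κ + 1) := fun u hu huL => by
    rw [← div_le_iff₀ (by positivity), hc]
    refine (svo_up hD0 hu huL (svo_cont P h t 0) (svo_d1 P h t) hs1).trans ?_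
    exact div_le_div_of_nonneg_left (hT0 L) (by positivity)
      (pow_le_pow_left₀ hL0.le (by linarith) _)
  have hlow : ∀ u, D < u → u ≤ L → c * (u - D) ^ (κ + 1) ≤ mom P h t 1 u := fun u hu huL => by
    rw [← le_div_iff₀ (pow_pos (by linarith) _), hc]
    refine le_trans ?_ (svo_low hu huL (svo_cont P h t 0) (svo_d1 P h t) hs2)
    exact div_le_div_of_nonneg_left (hT0 L) (pow_pos (by linarith) _)
      (pow_le_pow_left₀ (by linarith) (by linarith) _)
  have hE1 : ∀ u, 0 ≤ u → u ≤ L → |mom P h t 1 u - c * u ^ (κ + 1)| ≤ c * (12 * D * L ^ κ) := by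
    intro u hu huL
    obtain ⟨a1, a2, a3, -⟩ := svo_pa h1 h2 hD0 hL2 hu huL
    rw [abs_le]
    constructor
    · rcases lt_or_ge D u with h3 | h3
      · linarith [hlow u h3 huL, mul_le_mul_of_nonneg_left (a2 h3) hc0]
      · linarith [hT0 u, mul_le_mul_of_nonneg_left (a3 h3) hc0]
    · linarith [hup u hu huL, mul_le_mul_of_nonneg_left a1 hc0]
  have hX : 0 ≤ c * (D * L ^ (κ - 1)) := by positivity
  have hG2 : ∀ u, 2 * D ≤ u → u ≤ L →
      mom P h t 0 u ≤ (κ + 1) * c * u ^ κ + 36 * (c * (D * L ^ (κ - 1))) := by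
    intro u hu huL
    obtain ⟨-, -, -, -, -, a6⟩ := svo_pa h1 h2 hD0 hL2 (by linarith) huL
    have h3 : 0 < u - D := by linarith
    refine le_of_mul_le_mul_left ((hs2 u huL).trans ?_) h3
    have h4 := mul_le_mul_of_nonneg_left ((hup u (by linarith) huL).trans
      (mul_le_mul_of_nonneg_left (a6 hu) hc0)) hk1.le
    have h5 := mul_le_mul_of_nonneg_right hk3 (mul_nonneg hX h3.le)
    linarith
  refine ⟨c, ?_, fun u hu huL => ⟨?_, ?_, ?_⟩⟩
  · have h3 : L ≤ mom P h t 1 L := by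
      rw [svo_m1 P h t 0 L]
      refine le_trans ?_ (single_le_sum (f := fun T => (∏ p ∈ T, h p) *
        max (L - ∑ p ∈ T, t p) 0 ^ (0 + 1)) (fun T hT => mul_nonneg
        (prod_nonneg fun p hp => hh p (mem_powerset.1 hT hp)) (pow_nonneg (le_max_right _ _) _))
        (empty_mem_powerset P))
      simp
    rw [hc, div_mul_eq_mul_div, le_div_iff₀ (by positivity), one_mul, pow_succ']
    exact mul_le_mul_of_nonneg_right h3 (by positivity)
  · obtain ⟨-, -, -, a4, a5, -⟩ := svo_pa h1 h2 hD0 hL2 hu huL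
    have h3 : 0 ≤ (κ + 1) * c * u ^ κ := by positivity
    have h7 : ∀ x, 0 ≤ x → x ≤ 2 * D → (κ + 1) * c * x ^ κ ≤ 6 * (c * (D * L ^ (κ - 1))) := by
      intro x hx hx2
      obtain ⟨-, -, -, -, b5, -⟩ := svo_pa h1 h2 hD0 hL2 hx (hx2.trans hL2)
      have h4 := mul_le_mul_of_nonneg_left (mul_le_mul_of_nonneg_left (b5 hx2) hc0) hk1.le
      have h5 := mul_le_mul_of_nonneg_right hk3 hX
      linarith
    rw [abs_le]
    constructor
    · rcases lt_or_ge D u with h4 | h4
      · have h5 : 0 < u + D := by linarith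
        have h6 : (κ + 1) * c * u ^ κ - 12 * (c * (D * L ^ (κ - 1))) ≤ mom P h t 0 u := by
          refine le_of_mul_le_mul_left (le_trans ?_ (hs1 u huL)) h5
          have h8 := mul_le_mul_of_nonneg_left (hlow u h4 huL) hk1.le
          have h9 := mul_le_mul_of_nonneg_left (mul_le_mul_of_nonneg_left (a4 h4) hc0) hk1.le
          have h10 := mul_le_mul_of_nonneg_right hk3 (mul_nonneg hX h5.le)
          linarith
        linarith
      · linarith [hG0 u, h7 u hu (by linarith)]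
    · rcases le_total (2 * D) u with h4 | h4
      · linarith [hG2 u h4 huL]
      · have h5 : mom P h t 0 u ≤ mom P h t 0 (2 * D) := by
          rw [svo_m0, svo_m0]
          refine sum_le_sum fun T hT => mul_le_mul_of_nonneg_left ?_
            (prod_nonneg fun p hp => hh p (mem_powerset.1 hT hp))
          split_ifs with h6 h8
          · exact le_rfl
          · exact absurd (h6.trans h4) h8
          · exact zero_le_one
          · exact le_rfl
        linarith [hG2 (2 * D) le_rfl hL2, h7 (2 * D) (by linarith) le_rfl]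
  · refine (hE1 u hu huL).trans ?_
    have : 0 ≤ c * (D * L ^ κ) := by positivity
    linarith
  · obtain ⟨E, hE⟩ : ∃ E, E = c * (12 * D * L ^ κ) := ⟨_, rfl⟩
    have hE0 : 0 ≤ E := by rw [hE]; positivity
    rw [← hE] at hE1
    have h0 : mom P h t 2 0 = 0 := by
      rw [svo_m1 P h t 1 0]
      refine sum_eq_zero fun T hT => ?_
      rw [max_eq_right (by
        linarith [sum_nonneg fun p hp => (ht p (mem_powerset.1 hT hp)).le])]
      simp
    have hd : ∀ x, HasDerivWithinAt (fun x => mom P h t 2 x - 2 * c * x ^ (κ + 2) / (κ + 2))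
        (2 * (mom P h t 1 x - c * x ^ (κ + 1))) (Set.Ici x) x := fun x => by
      refine ((svo_d2 P h t x).fun_sub (((hasDerivAt_pow (κ + 2) x).const_mul
        (2 * c)).div_const (κ + 2)).hasDerivWithinAt).congr_deriv ?_
      have : (κ + 2 : ℝ) ≠ 0 := by positivity
      rw [show κ + 2 - 1 = κ + 1 from rfl]
      push_cast
      field_simp
    have hcont : Continuous fun x => mom P h t 2 x - 2 * c * x ^ (κ + 2) / (κ + 2) :=
      (svo_cont P h t 1).sub (by fun_prop)
    have hlin : ∀ x, HasDerivWithinAt (fun x : ℝ => 2 * E * x) (2 * E) (Set.Ici x) x := fun x => by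
      simpa using ((hasDerivAt_id x).const_mul (2 * E)).hasDerivWithinAt
    have h3 := svo_mono (f := fun x => 2 * E * x + (mom P h t 2 x - 2 * c * x ^ (κ + 2) / (κ + 2)))
      hu (Continuous.continuousOn (by fun_prop)) (fun x _ => (hlin x).fun_add (hd x))
      fun x hx => by linarith [(abs_le.1 (hE1 x hx.1 (hx.2.le.trans huL))).1]
    have h4 := svo_mono (f := fun x => 2 * E * x - (mom P h t 2 x - 2 * c * x ^ (κ + 2) / (κ + 2)))
      hu (Continuous.continuousOn (by fun_prop)) (fun x _ => (hlin x).fun_sub (hd x))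
      fun x hx => by linarith [(abs_le.1 (hE1 x hx.1 (hx.2.le.trans huL))).2]
    simp only [h0, mul_zero, zero_pow (Nat.succ_ne_zero _), zero_div, sub_zero, add_zero] at h3 h4
    have h5 : 2 * E * u ≤ 50 * D * c * L ^ (κ + 1) := by
      have h6 := mul_le_mul_of_nonneg_left huL hE0
      have h7 : 0 ≤ c * (D * L ^ κ) * L := by positivity
      rw [pow_succ]
      rw [hE] at h6 ⊢
      linarith
    rw [abs_le]
    constructor <;> linarith

end Pool.Agent.Lib.MP_ce212d_co
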