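import Pool.Agent.Lib.MP_ce212d_co.Defs
import Pool.Agent.Lib.MP_a3366f_nt.An5
import Pool.Agent.Lib.MP_458f0b_nt.Mertens

/-!
Sums over primes.
-/

set_option linter.unusedVariables false

open Finset

namespace Pool.Agent.Lib.MP_ce212d_co

theorem hh_nonneg (κ : ℕ) {p : ℕ} (hp : p.Prime) : 0 ≤ hh κ p := by
  have h1 : rho κ p ≤ p := (min_le_right _ _).trans (Nat.sub_le _ _)
  have h2 : (rho κ p : ℝ) ≤ p := by exact_mod_cast h1
  exact div_nonneg (Nat.cast_nonneg _) (sub_nonneg.2 h2)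

theorem gg_nonneg (κ p : ℕ) : 0 ≤ gg κ p :=
  div_nonneg (Nat.cast_nonneg _) (Nat.cast_nonneg _)

private lemma svp_int (s : ℝ) (i : ℕ) (x y : ℝ) :
    IntervalIntegrable (fun v : ℝ => (if s ≤ v then (1 : ℝ) else 0) * ((i + 1) * v ^ i))
      MeasureTheory.volume x y := by
  have hm : Monotone fun v : ℝ => if s ≤ v then (1 : ℝ) else 0 := fun v w hvw => by
    dsimp only
    split_ifs with h1 h2
    · exact le_rfl
    · exact absurd (h1.trans hvw) h2
    · exact zero_le_one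
    · exact le_rfl
  exact hm.intervalIntegrable.mul_continuousOn (by fun_prop)

private lemma svp_pow (i : ℕ) (x y : ℝ) :
    ∫ v in x..y, ((i : ℝ) + 1) * v ^ i = y ^ (i + 1) - x ^ (i + 1) := by
  rw [intervalIntegral.integral_const_mul, integral_pow]
  field_simp

private lemma svp_step {s u : ℝ} (i : ℕ) :
    ∫ v in (0 : ℝ)..u, (if s ≤ v then (1 : ℝ) else 0) * ((i + 1) * v ^ i) =
      (∫ v in (0 : ℝ)..s, (if s ≤ v then (1 : ℝ) else 0) * ((i + 1) * v ^ i)) +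
        ∫ v in s..u, (if s ≤ v then (1 : ℝ) else 0) * ((i + 1) * v ^ i) :=
  (intervalIntegral.integral_add_adjacent_intervals (svp_int s i _ _) (svp_int s i _ _)).symm

private lemma svp_ind {s u : ℝ} (h0 : 0 ≤ s) (hs : s ≤ u) (i : ℕ) :
    ∫ v in (0 : ℝ)..u, (if s ≤ v then (1 : ℝ) else 0) * ((i + 1) * v ^ i) =
      u ^ (i + 1) - s ^ (i + 1) := by
  have e1 : ∫ v in (0 : ℝ)..s, (if s ≤ v then (1 : ℝ) else 0) * ((i + 1) * v ^ i) = 0 := by
    rw [intervalIntegral.integral_of_le h0, MeasureTheory.integral_Ioc_eq_integral_Ioo]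
    refine MeasureTheory.setIntegral_eq_zero_of_forall_eq_zero fun v hv => ?_
    rw [if_neg (not_le.2 hv.2), zero_mul]
  have e2 : ∫ v in s..u, (if s ≤ v then (1 : ℝ) else 0) * ((i + 1) * v ^ i) =
      ∫ v in s..u, ((i : ℝ) + 1) * v ^ i := by
    refine intervalIntegral.integral_congr fun v hv => ?_
    rw [Set.uIcc_of_le hs] at hv
    simp only [if_pos hv.1, one_mul]
  rw [svp_step, e1, e2, zero_add, svp_pow]

/-- Summation by parts. -/
theorem abel_pow {ι : Type} (P : Finset ι) (a t : ι → ℝ) (ha : ∀ p ∈ P, 0 ≤ a p)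
    (ht : ∀ p ∈ P, 0 ≤ t p) {κ C u : ℝ} (hu : 0 ≤ u)
    (h : ∀ v, 0 ≤ v → v ≤ u → |∑ p ∈ P with t p ≤ v, a p - κ * v| ≤ C) (j : ℕ) :
    |∑ p ∈ P with t p ≤ u, a p * t p ^ j - κ * u ^ (j + 1) / (j + 1)| ≤ 2 * C * u ^ j := by
  have hC : 0 ≤ C := (abs_nonneg _).trans (h u hu le_rfl)
  have hU := h u hu le_rfl
  rcases j with _ | i
  · simp only [pow_zero, mul_one, zero_add, pow_one, Nat.cast_zero, div_one]
    linarith
  have hI : IntervalIntegrable (fun v : ℝ => ∑ p ∈ P with t p ≤ u,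
      a p * ((if t p ≤ v then (1 : ℝ) else 0) * ((i + 1) * v ^ i))) MeasureTheory.volume 0 u := by
    have := IntervalIntegrable.sum (P.filter fun p => t p ≤ u)
      (fun p _ => (svp_int (t p) i 0 u).const_mul (a p))
    rwa [Finset.sum_fn] at this
  have e1 : ∫ v in (0 : ℝ)..u, ∑ p ∈ P with t p ≤ u,
      a p * ((if t p ≤ v then (1 : ℝ) else 0) * ((i + 1) * v ^ i)) =
      (∑ p ∈ P with t p ≤ u, a p) * u ^ (i + 1) - ∑ p ∈ P with t p ≤ u, a p * t p ^ (i + 1) := by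
    rw [intervalIntegral.integral_finsetSum fun p _ => (svp_int (t p) i 0 u).const_mul (a p),
      sum_mul, ← sum_sub_distrib]
    refine sum_congr rfl fun p hp => ?_
    rw [mem_filter] at hp
    rw [intervalIntegral.integral_const_mul, svp_ind (ht p hp.1) hp.2]
    ring
  have e2 : ∫ v in (0 : ℝ)..u, κ * (i + 1) * v ^ (i + 1) =
      κ * (i + 1) * u ^ (i + 2) / (i + 2) := by
    rw [intervalIntegral.integral_const_mul, integral_pow]
    push_cast
    rw [zero_pow (by omega), sub_zero, mul_div_assoc]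
    congr 2
    ring
  have e3 : ‖∫ v in (0 : ℝ)..u, (∑ p ∈ P with t p ≤ u,
      a p * ((if t p ≤ v then (1 : ℝ) else 0) * ((i + 1) * v ^ i)) -
        κ * (i + 1) * v ^ (i + 1))‖ ≤ ∫ v in (0 : ℝ)..u, C * ((i + 1) * v ^ i) := by
    refine intervalIntegral.norm_integral_le_of_norm_le hu
      (Filter.Eventually.of_forall fun v hv => ?_) (Continuous.intervalIntegrable (by fun_prop) _ _)
    have e : ∑ p ∈ P with t p ≤ u, a p * ((if t p ≤ v then (1 : ℝ) else 0) * ((i + 1) * v ^ i)) =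
        (∑ p ∈ P with t p ≤ v, a p) * ((i + 1) * v ^ i) := by
      rw [sum_mul, sum_filter, sum_filter]
      refine sum_congr rfl fun p _ => ?_
      by_cases h1 : t p ≤ v
      · rw [if_pos h1, if_pos h1, if_pos (h1.trans hv.2), one_mul]
      · simp [h1]
    have hv0 : 0 ≤ ((i : ℝ) + 1) * v ^ i := mul_nonneg (by positivity) (pow_nonneg hv.1.le _)
    rw [e, Real.norm_eq_abs, show (∑ p ∈ P with t p ≤ v, a p) * ((i + 1) * v ^ i) -
      κ * (i + 1) * v ^ (i + 1) = (∑ p ∈ P with t p ≤ v, a p - κ * v) * ((i + 1) * v ^ i) by ring,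
      abs_mul, abs_of_nonneg hv0]
    exact mul_le_mul_of_nonneg_right (h v hv.1.le hv.2) hv0
  rw [intervalIntegral.integral_sub hI (Continuous.intervalIntegrable (by fun_prop) _ _), e1, e2,
    intervalIntegral.integral_const_mul, svp_pow, zero_pow (by omega), sub_zero,
    Real.norm_eq_abs] at e3
  have hp : 0 ≤ u ^ (i + 1) := pow_nonneg hu _
  have e4 : |(∑ p ∈ P with t p ≤ u, a p - κ * u) * u ^ (i + 1)| ≤ C * u ^ (i + 1) := by
    rw [abs_mul, abs_of_nonneg hp]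
    exact mul_le_mul_of_nonneg_right hU hp
  have e5 : κ * u ^ (i + 1 + 1) / ((i + 1 : ℕ) + 1 : ℝ) =
      κ * u * u ^ (i + 1) - κ * (i + 1) * u ^ (i + 2) / (i + 2) := by
    push_cast
    field_simp
    ring
  rw [e5]
  rw [abs_le] at e3 e4 ⊢
  constructor <;> nlinarith [e3.1, e3.2, e4.1, e4.2]

private lemma svp_sum : ∃ S : ℝ, 0 ≤ S ∧ ∀ s : Finset ℕ, ∑ p ∈ s, lg p / (p : ℝ) ^ 2 ≤ S := by
  have hs : Summable fun n : ℕ => 2 * (n : ℝ) ^ (-(3 / 2) : ℝ) :=
    (Real.summable_nat_rpow.2 (by norm_num)).mul_left 2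
  refine ⟨∑' n : ℕ, 2 * (n : ℝ) ^ (-(3 / 2) : ℝ), tsum_nonneg fun n => by positivity, fun s => ?_⟩
  refine le_trans (sum_le_sum fun p _ => ?_) (hs.sum_le_tsum s fun n _ => by positivity)
  rcases Nat.eq_zero_or_pos p with rfl | hp
  · simp
  have hp' : (0 : ℝ) < p := by exact_mod_cast hp
  have h1 := Real.log_le_rpow_div hp'.le (show (0 : ℝ) < 1 / 2 by norm_num)
  have h2 : (p : ℝ) ^ (-(3 / 2) : ℝ) * (p : ℝ) ^ 2 = (p : ℝ) ^ (1 / 2 : ℝ) := by
    rw [← Real.rpow_natCast, ← Real.rpow_add hp']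
    norm_num
  rw [div_le_iff₀ (by positivity), mul_assoc, h2]
  unfold lg
  linarith

private lemma svp_lg_nonneg (p : ℕ) : 0 ≤ lg p := Real.log_natCast_nonneg p

private lemma svp_le_floor {p : ℕ} (hp : p.Prime) {u : ℝ} : lg p ≤ u ↔ p ≤ ⌊Real.exp u⌋₊ := by
  have hp' : (0 : ℝ) < p := by exact_mod_cast hp.pos
  rw [Nat.le_floor_iff (Real.exp_pos u).le, lg, Real.log_le_iff_le_exp hp']

private lemma svp_main : ∃ C₀ S : ℝ, 0 ≤ C₀ ∧ 0 ≤ S ∧
    (∀ s : Finset ℕ, ∑ p ∈ s, lg p / (p : ℝ) ^ 2 ≤ S) ∧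
    ∀ (κ : ℝ) (f : ℕ → ℝ), 0 ≤ κ → κ ≤ 2 → (∀ p : ℕ, p.Prime → |f p - κ / p| ≤ 12 / (p : ℝ) ^ 2) →
      ∀ (N : ℕ) (u : ℝ), 0 ≤ u → u ≤ lg N →
        |∑ p ∈ N.primesLE with lg p ≤ u, f p * lg p - κ * u| ≤ C₀ + 12 * S := by
  obtain ⟨C, hC⟩ := MP_a3366f_nt.mertens_primes
  obtain ⟨S, hS0, hS⟩ := svp_sum
  have hC0 : 0 ≤ C := (abs_nonneg _).trans (hC 1 le_rfl)
  refine ⟨2 * (C + 1), S, by positivity, hS0, hS, fun κ f k0 k2 hf N u u0 uN => ?_⟩
  obtain ⟨n, hn⟩ : ∃ n, n = ⌊Real.exp u⌋₊ := ⟨_, rfl⟩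
  have h1 : (1 : ℝ) ≤ Real.exp u := Real.one_le_exp u0
  have hn1 : 1 ≤ n := hn ▸ Nat.le_floor (by exact_mod_cast h1)
  have hn1' : (1 : ℝ) ≤ n := by exact_mod_cast hn1
  have e : N.primesLE.filter (fun p => lg p ≤ u) = (Ioc 0 n).filter Nat.Prime := by
    ext p
    simp only [mem_filter, Nat.mem_primesLE, mem_Ioc]
    constructor
    · rintro ⟨⟨-, hp⟩, h⟩
      exact ⟨⟨hp.pos, hn ▸ (svp_le_floor hp).1 h⟩, hp⟩
    · rintro ⟨⟨-, h⟩, hp⟩
      have h2 : lg p ≤ u := (svp_le_floor hp).2 (hn ▸ h)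
      refine ⟨⟨?_, hp⟩, h2⟩
      have hp1 : (1 : ℝ) < p := by exact_mod_cast hp.one_lt
      have h3 : 0 < lg p := Real.log_pos hp1
      rcases Nat.eq_zero_or_pos N with rfl | hN
      · have : lg 0 = 0 := by simp [lg]
        linarith
      · have hN' : (0 : ℝ) < N := by exact_mod_cast hN
        exact_mod_cast (Real.log_le_log_iff (by linarith) hN').1 (h2.trans uN)
  have l1 : Real.log n ≤ u := by
    rw [Real.log_le_iff_le_exp (by linarith), hn]
    exact Nat.floor_le (Real.exp_pos u).le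
  have l2 : u ≤ Real.log n + 1 := by
    have h2 : Real.exp u ≤ 2 * n := by
      have := Nat.lt_floor_add_one (Real.exp u)
      rw [← hn] at this
      linarith
    have h3 := Real.log_le_log (Real.exp_pos u) h2
    rw [Real.log_exp, Real.log_mul two_ne_zero (by linarith)] at h3
    have := Real.log_two_lt_d9
    linarith
  have m := hC n hn1
  rw [e]
  have d : |∑ p ∈ (Ioc 0 n).filter Nat.Prime, f p * lg p -
      κ * ∑ p ∈ (Ioc 0 n).filter Nat.Prime, Real.log p / p| ≤ 12 * S := by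
    rw [mul_sum, ← sum_sub_distrib]
    refine (abs_sum_le_sum_abs _ _).trans (le_trans ?_
      (mul_le_mul_of_nonneg_left (hS ((Ioc 0 n).filter Nat.Prime)) (by norm_num)))
    rw [mul_sum]
    refine sum_le_sum fun p hp => ?_
    have h2 := hf p (mem_filter.1 hp).2
    rw [show f p * lg p - κ * (Real.log p / p) = (f p - κ / p) * lg p by unfold lg; ring, abs_mul,
      abs_of_nonneg (svp_lg_nonneg p)]
    calc _ ≤ 12 / (p : ℝ) ^ 2 * lg p := mul_le_mul_of_nonneg_right h2 (svp_lg_nonneg p)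
      _ = _ := by ring
  rw [abs_le] at m d ⊢
  generalize ∑ p ∈ (Ioc 0 n).filter Nat.Prime, Real.log p / p = A at *
  generalize ∑ p ∈ (Ioc 0 n).filter Nat.Prime, f p * lg p = B at *
  have g1 : κ * (A - u) ≤ 2 * (C + 1) := by nlinarith [m.2]
  have g2 : κ * (u - A) ≤ 2 * (C + 1) := by nlinarith [m.1]
  constructor <;> nlinarith [d.1, d.2]

private lemma svp_rho {κ p : ℕ} (h2 : κ ≤ 2) (hp : 3 ≤ p) : rho κ p = κ :=
  min_eq_left (by omega)

private lemma svp_hh {κ : ℕ} (h1 : 1 ≤ κ) (h2 : κ ≤ 2) (p : ℕ) (hp : p.Prime) :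
    |hh κ p - κ / p| ≤ 12 / (p : ℝ) ^ 2 := by
  have k1 : (1 : ℝ) ≤ κ := by exact_mod_cast h1
  have k2 : (κ : ℝ) ≤ 2 := by exact_mod_cast h2
  rcases hp.two_le.eq_or_lt with rfl | h3
  · have : rho κ 2 = 1 := min_eq_right h1
    rw [hh, this, abs_le]
    push_cast
    constructor <;> linarith
  · have h3' : (3 : ℝ) ≤ p := by exact_mod_cast h3
    have h4 : (0 : ℝ) < p - κ := by linarith
    have e : (κ : ℝ) / (p - κ) - κ / p = κ ^ 2 / (p * (p - κ)) := by
      field_simp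
      ring
    rw [hh, svp_rho h2 h3, e, abs_of_nonneg (by positivity),
      div_le_div_iff₀ (by positivity) (by positivity)]
    have h5 : (κ : ℝ) ^ 2 ≤ 4 := by nlinarith
    have h6 : (p : ℝ) ^ 2 ≤ 3 * (p * (p - κ)) := by nlinarith
    nlinarith [mul_le_mul h5 h6 (by positivity) (by norm_num)]

private lemma svp_gg {κ : ℕ} (h1 : 1 ≤ κ) (h2 : κ ≤ 2) (p : ℕ) (hp : p.Prime) :
    |gg κ p - κ / p| ≤ 12 / (p : ℝ) ^ 2 := by
  have k1 : (1 : ℝ) ≤ κ := by exact_mod_cast h1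
  have k2 : (κ : ℝ) ≤ 2 := by exact_mod_cast h2
  rcases hp.two_le.eq_or_lt with rfl | h3
  · have : rho κ 2 = 1 := min_eq_right h1
    rw [gg, this, abs_le]
    push_cast
    constructor <;> linarith
  · rw [gg, svp_rho h2 h3, sub_self, abs_zero]
    positivity

theorem prime_sums {κ : ℕ} (h1 : 1 ≤ κ) (h2 : κ ≤ 2) : ∃ C : ℝ, 1 ≤ C ∧ ∀ N : ℕ,
    (∀ u, 0 ≤ u → u ≤ lg N →
      |∑ p ∈ N.primesLE with lg p ≤ u, hh κ p * lg p - κ * u| ≤ C) ∧
    (∀ u, 0 ≤ u → u ≤ lg N →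
      |∑ p ∈ N.primesLE with lg p ≤ u, gg κ p * lg p - κ * u| ≤ C) ∧
    ∑ p ∈ N.primesLE, hh κ p ^ 2 * lg p ≤ C ∧
    ∀ u, 1 ≤ u → ∑ p ∈ N.primesLE with lg p ≤ u, gg κ p ≤ C * √u := by
  obtain ⟨C₀, S, hC, hS0, hS, H⟩ := svp_main
  have k2 : (κ : ℝ) ≤ 2 := by exact_mod_cast h2
  refine ⟨C₀ + 64 * S + 10, by linarith, fun N => ⟨fun u u0 uN => ?_, fun u u0 uN => ?_, ?_,
    fun u hu => ?_⟩⟩
  · have := H κ (hh κ) (Nat.cast_nonneg _) k2 (svp_hh h1 h2) N u u0 uN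
    linarith
  · have := H κ (gg κ) (Nat.cast_nonneg _) k2 (svp_gg h1 h2) N u u0 uN
    linarith
  · have e : ∑ p ∈ N.primesLE, hh κ p ^ 2 * lg p ≤ 64 * ∑ p ∈ N.primesLE, lg p / (p : ℝ) ^ 2 := by
      rw [mul_sum]
      refine sum_le_sum fun p hp => ?_
      have hp' := (Nat.mem_primesLE.1 hp).2
      have p2 : (2 : ℝ) ≤ p := by exact_mod_cast hp'.two_le
      have g1 := (abs_le.1 (svp_hh h1 h2 p hp')).2
      have g2 : (κ : ℝ) / p ≤ 2 / p := by gcongr
      have g3 : 12 / (p : ℝ) ^ 2 ≤ 6 / p := by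
        rw [div_le_div_iff₀ (by positivity) (by positivity)]
        nlinarith
      have g4 : hh κ p ≤ 8 / p := by
        have : (8 : ℝ) / p = 2 / p + 6 / p := by ring
        linarith
      calc hh κ p ^ 2 * lg p ≤ (8 / p) ^ 2 * lg p :=
            mul_le_mul_of_nonneg_right (pow_le_pow_left₀ (hh_nonneg κ hp') g4 2) (svp_lg_nonneg p)
        _ = _ := by ring
    have := hS N.primesLE
    linarith
  · obtain ⟨n, hn⟩ : ∃ n, n = ⌊Real.exp u⌋₊ := ⟨_, rfl⟩
    have hn2 : 2 ≤ n := by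
      rw [hn]
      refine Nat.le_floor ?_
      have := Real.add_one_le_exp u
      push_cast
      linarith
    have hn2' : (2 : ℝ) ≤ n := by exact_mod_cast hn2
    have l1 : Real.log n ≤ u := by
      rw [Real.log_le_iff_le_exp (by linarith), hn]
      exact Nat.floor_le (Real.exp_pos u).le
    have l0 : 0 ≤ Real.log n := Real.log_natCast_nonneg n
    have s1 : 1 ≤ √u := Real.one_le_sqrt.2 hu
    have s2 : √u ^ 2 = u := Real.sq_sqrt (by linarith)
    have l2 : Real.log (1 + Real.log n) ≤ 2 * √u := by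
      have g1 : 1 + Real.log n ≤ (1 + √u) ^ 2 := by nlinarith
      have g2 := Real.log_le_log (by linarith) g1
      have g3 := Real.log_le_sub_one_of_pos (show 0 < 1 + √u by linarith)
      rw [Real.log_pow] at g2
      push_cast at g2
      linarith
    have m := MP_458f0b_nt.sum_inv_primesLE_le hn2
    have e : ∑ p ∈ N.primesLE with lg p ≤ u, gg κ p ≤ 2 * ∑ p ∈ n.primesLE, (p : ℝ)⁻¹ := by
      rw [mul_sum]
      refine le_trans (sum_le_sum fun p _ => ?_)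
        (sum_le_sum_of_subset_of_nonneg (fun p hp => ?_) fun p _ _ => by positivity)
      · have g1 : (rho κ p : ℝ) ≤ 2 := by exact_mod_cast (min_le_left _ _).trans h2
        rw [gg, div_eq_mul_inv]
        gcongr
      · rw [mem_filter, Nat.mem_primesLE] at hp
        exact Nat.mem_primesLE.2 ⟨hn ▸ (svp_le_floor hp.1.2).1 hp.2, hp.1.2⟩
    nlinarith [mul_nonneg hC (zero_le_one.trans s1), mul_nonneg hS0 (zero_le_one.trans s1)]

/-- The size of the sieve weights. -/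
theorem weight_le : ∃ C : ℝ, ∀ (N : ℕ) (a L : ℝ), 2 ≤ N → 0 ≤ a → a ≤ 1 → 0 ≤ L →
    ∑ T ∈ N.primesLE.powerset, |yy a L T| * 8 ^ T.card ≤
      C * L * Real.exp L * (1 + lg N) ^ 8 := by
  refine ⟨2 * Real.exp 24, fun N a L hN a0 a1 hL => ?_⟩
  have e1 : ∀ T ∈ N.primesLE.powerset,
      |yy a L T| * 8 ^ T.card ≤ 2 * L * Real.exp L * ∏ p ∈ T, 8 * (p : ℝ)⁻¹ := by
    intro T hT
    have hT' : ∀ p ∈ T, (0 : ℝ) < p := fun p hp => by
      exact_mod_cast (Nat.mem_primesLE.1 (mem_powerset.1 hT hp)).2.pos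
    unfold yy
    split_ifs with h
    · have s0 : 0 ≤ ∑ p ∈ T, lg p := sum_nonneg fun p _ => svp_lg_nonneg p
      have g1 : |a * L + L - ∑ p ∈ T, lg p| ≤ 2 * L := by
        rw [abs_le]
        constructor <;> nlinarith
      have g2 : ∏ p ∈ T, (p : ℝ)⁻¹ = Real.exp (-∑ p ∈ T, lg p) := by
        rw [← sum_neg_distrib, Real.exp_sum]
        refine prod_congr rfl fun p hp => ?_
        rw [Real.exp_neg, lg, Real.exp_log (hT' p hp)]
      have g3 : 1 ≤ Real.exp L * ∏ p ∈ T, (p : ℝ)⁻¹ := by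
        rw [g2, ← Real.exp_add]
        exact Real.one_le_exp (by linarith)
      rw [prod_mul_distrib, prod_const]
      calc _ ≤ 2 * L * 8 ^ T.card := by gcongr
        _ = 2 * L * 8 ^ T.card * 1 := (mul_one _).symm
        _ ≤ 2 * L * 8 ^ T.card * (Real.exp L * ∏ p ∈ T, (p : ℝ)⁻¹) := by gcongr
        _ = _ := by ring
    · rw [abs_zero, zero_mul]
      exact mul_nonneg (by positivity) (prod_nonneg fun p _ => by positivity)
  have e2 : ∏ p ∈ N.primesLE, (1 + 8 * (p : ℝ)⁻¹) ≤ Real.exp 24 * (1 + lg N) ^ 8 := by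
    have l0 : 0 < 1 + lg N := by linarith [svp_lg_nonneg N]
    have m := MP_458f0b_nt.sum_inv_primesLE_le hN
    calc _ ≤ ∏ p ∈ N.primesLE, Real.exp (8 * (p : ℝ)⁻¹) :=
          prod_le_prod (fun p _ => by positivity) fun p _ => by
            linarith [Real.add_one_le_exp (8 * (p : ℝ)⁻¹)]
      _ = Real.exp (8 * ∑ p ∈ N.primesLE, (p : ℝ)⁻¹) := by rw [← Real.exp_sum, mul_sum]
      _ ≤ Real.exp (24 + (8 : ℕ) * Real.log (1 + lg N)) := by
          refine Real.exp_le_exp.2 ?_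
          unfold lg
          push_cast
          linarith
      _ = _ := by rw [Real.exp_add, ← Real.log_pow, Real.exp_log (by positivity)]
  refine (sum_le_sum e1).trans ?_
  rw [← mul_sum, ← prod_one_add]
  calc _ ≤ 2 * L * Real.exp L * (Real.exp 24 * (1 + lg N) ^ 8) := by gcongr
    _ = _ := by ring

end Pool.Agent.Lib.MP_ce212d_co
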