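import Pool.Agent.Lib.MP_ce212d_co.SvP
import Pool.Agent.Lib.MP_ce212d_co.SvO

/-!
The main term in terms of the truncated moments.
-/

open Finset

namespace Pool.Agent.Lib.MP_ce212d_co

variable {κ : ℕ} {P : Finset ℕ} {a L : ℝ}

private theorem svq_hh_nonneg (κ : ℕ) {p : ℕ} (_hp : p.Prime) : 0 ≤ hh κ p := by
  unfold hh
  have h1 : rho κ p ≤ p := le_trans (min_le_right _ _) (Nat.sub_le _ _)
  have h2 : (rho κ p : ℝ) ≤ p := by exact_mod_cast h1
  exact div_nonneg (Nat.cast_nonneg _) (sub_nonneg.2 h2)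

private theorem svq_lg_nonneg (p : ℕ) : 0 ≤ lg p := Real.log_natCast_nonneg p

private theorem svq_prod_nonneg (hP : ∀ p ∈ P, p.Prime) {T : Finset ℕ} (hT : T ∈ P.powerset) :
    0 ≤ ∏ p ∈ T, hh κ p :=
  prod_nonneg fun p hp => svq_hh_nonneg κ (hP p (mem_powerset.1 hT hp))

theorem diag_eq (κ : ℕ) (P : Finset ℕ) (a L : ℝ) :
    ∑ T ∈ P.powerset, yy a L T ^ 2 * ∏ p ∈ T, hh κ p = (a * L) ^ 2 * mom P (hh κ) lg 0 L +
      2 * (a * L) * mom P (hh κ) lg 1 L + mom P (hh κ) lg 2 L := by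
  unfold mom
  simp only [sum_filter, mul_sum, ← sum_add_distrib]
  refine sum_congr rfl fun T _ => ?_
  unfold yy
  split_ifs
  · ring
  · ring

theorem inner_le (hP : ∀ p ∈ P, p.Prime) {q : ℕ} (hq : q ∈ P) :
    ∑ T ∈ (P.erase q).powerset, (yy a L T - yy a L (insert q T)) ^ 2 * ∏ p ∈ T, hh κ p ≤
      ∑ T ∈ P.powerset, yy a L T ^ 2 * ∏ p ∈ T, hh κ p -
        (((a * L) ^ 2 + 2 * (a * L) * lg q) * mom P (hh κ) lg 0 (L - lg q) +
          2 * (a * L + lg q) * mom P (hh κ) lg 1 (L - lg q) + mom P (hh κ) lg 2 (L - lg q)) := by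
  have ht : 0 ≤ lg q := svq_lg_nonneg q
  have _hq := hq
  set w : Finset ℕ → ℝ := fun T =>
    if ∑ p ∈ T, lg p ≤ L - lg q then lg q ^ 2 else yy a L T ^ 2 with hw
  have hw0 : ∀ T, 0 ≤ w T := by
    intro T
    simp only [hw]
    split_ifs <;> positivity
  have h1 : ∑ T ∈ (P.erase q).powerset, (yy a L T - yy a L (insert q T)) ^ 2 * ∏ p ∈ T, hh κ p =
      ∑ T ∈ (P.erase q).powerset, w T * ∏ p ∈ T, hh κ p := by
    refine sum_congr rfl fun T hT => ?_
    have hqT : q ∉ T := fun h => notMem_erase q P (mem_powerset.1 hT h)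
    congr 1
    simp only [hw, yy, sum_insert hqT]
    by_cases h : ∑ p ∈ T, lg p ≤ L - lg q
    · rw [if_pos h, if_pos (by linarith), if_pos (by linarith)]
      ring
    · rw [if_neg h, if_neg (show ¬ lg q + ∑ p ∈ T, lg p ≤ L from fun h' => h (by linarith))]
      ring
  have h2 : ∑ T ∈ P.powerset, yy a L T ^ 2 * ∏ p ∈ T, hh κ p -
        (((a * L) ^ 2 + 2 * (a * L) * lg q) * mom P (hh κ) lg 0 (L - lg q) +
          2 * (a * L + lg q) * mom P (hh κ) lg 1 (L - lg q) + mom P (hh κ) lg 2 (L - lg q)) =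
      ∑ T ∈ P.powerset, w T * ∏ p ∈ T, hh κ p := by
    unfold mom
    simp only [sum_filter, mul_sum, ← sum_add_distrib, ← sum_sub_distrib]
    refine sum_congr rfl fun T _ => ?_
    simp only [hw]
    by_cases h : ∑ p ∈ T, lg p ≤ L - lg q
    · simp only [if_pos h, yy]
      rw [if_pos (by linarith)]
      ring
    · simp only [if_neg h]
      ring
  rw [h1, h2]
  refine sum_le_sum_of_subset_of_nonneg (powerset_mono.2 (erase_subset q P)) fun T hT _ => ?_
  exact mul_nonneg (hw0 T) (svq_prod_nonneg hP hT)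

theorem mom_nonneg (hP : ∀ p ∈ P, p.Prime) (j : ℕ) (u : ℝ) : 0 ≤ mom P (hh κ) lg j u := by
  unfold mom
  refine sum_nonneg fun T hT => ?_
  rw [mem_filter] at hT
  exact mul_nonneg (svq_prod_nonneg hP hT.1) (pow_nonneg (sub_nonneg.2 hT.2) j)

theorem mom_of_neg (hP : ∀ p ∈ P, p.Prime) (j : ℕ) {u : ℝ} (hu : u < 0) :
    mom P (hh κ) lg j u = 0 := by
  have _hP := hP
  unfold mom
  refine sum_eq_zero fun T hT => ?_
  rw [mem_filter] at hT
  have h0 : 0 ≤ ∑ p ∈ T, lg p := sum_nonneg fun p _ => svq_lg_nonneg p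
  exact absurd hT.2 (by linarith)

end Pool.Agent.Lib.MP_ce212d_co
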