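import Pool.Agent.Lib.MP_ce212d_co.Basic

/-!
The construction of Wilson with two truncated columns.
-/

open Finset

namespace Pool.Agent.Lib.MP_ce212d_co

/-- A set of rows that is an orthogonal array on the symbols in `A`. -/
private def WBlk {ι α : Type} (A : α → Prop) (B : (ι → α) → Prop) : Prop :=
  (∀ r, B r → ∀ i, A (r i)) ∧
    ∀ i l, i ≠ l → ∀ a b, A a → A b → ∃! r, B r ∧ r i = a ∧ r l = b

private theorem wblk_of_isOA {ρ ι α : Type} {A : α → Prop} {x : ρ → ι → {a // A a}}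
    (h : IsOA x) : WBlk A fun r => ∃ t, r = fun i => (x t i).1 := by
  refine ⟨?_, fun i l hil a b ha hb => ?_⟩
  · rintro _ ⟨t, rfl⟩ i
    exact (x t i).2
  · obtain ⟨t, ht⟩ := (h i l hil).2 (⟨a, ha⟩, ⟨b, hb⟩)
    obtain ⟨h1, h2⟩ := Prod.mk.inj ht
    refine ⟨_, ⟨⟨t, rfl⟩, congrArg Subtype.val h1, congrArg Subtype.val h2⟩, ?_⟩
    rintro _ ⟨⟨t', rfl⟩, h3, h4⟩
    rw [(h i l hil).1 (a₁ := t') (a₂ := t)
      (Prod.ext (Subtype.ext (h3.trans (congrArg Subtype.val h1).symm))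
        (Subtype.ext (h4.trans (congrArg Subtype.val h2).symm)))]

private theorem wblk_of_good {k n : ℕ} (h : Good k n) (ι : Type) [Fintype ι] {α : Type} [Finite α]
    (A : α → Prop) (hk : Fintype.card ι ≤ k) (hn : Nat.card {a // A a} = n) :
    ∃ B : (ι → α) → Prop, WBlk A B := by
  let _ := Fintype.ofFinite {a // A a}
  obtain ⟨ρ, x, hx⟩ := h.exists_isOA ι {a // A a} hk (by rw [← hn, Nat.card_eq_fintype_card])
  exact ⟨_, wblk_of_isOA hx⟩

private theorem good_of_wblk {k : ℕ} {α : Type} [Finite α] {A : α → Prop}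
    {B : (Fin k → α) → Prop} (h : WBlk A B) : Good k (Nat.card {a // A a}) := by
  let _ := Fintype.ofFinite {a // A a}
  refine good_of_isOA (x := fun (r : {r // B r}) i => (⟨r.1 i, h.1 _ r.2 i⟩ : {a // A a}))
    (fun i l hil => ⟨fun r r' e => ?_, fun p => ?_⟩) (Fintype.card_fin k).ge
    Nat.card_eq_fintype_card.symm
  · obtain ⟨h1, h2⟩ := Prod.mk.inj e
    exact Subtype.ext ((h.2 i l hil _ _ (h.1 _ r.2 i) (h.1 _ r.2 l)).unique ⟨r.2, rfl, rfl⟩
      ⟨r'.2, (Subtype.mk.inj h1).symm, (Subtype.mk.inj h2).symm⟩)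
  · obtain ⟨r, ⟨h1, h2, h3⟩, -⟩ := h.2 i l hil _ _ p.1.2 p.2.2
    exact ⟨⟨r, h1⟩, Prod.ext (Subtype.ext h2) (Subtype.ext h3)⟩

/-- One more column gives an array that contains the constant rows. -/
private theorem wblk_idem {k n : ℕ} (h : Good (k + 1) n) {α : Type} [Finite α]
    (A : α → Prop) (hn : Nat.card {a // A a} = n) (s : {a // A a}) :
    ∃ B : (Fin k → α) → Prop, WBlk A B ∧ ∀ a, A a → B fun _ => a := by
  rcases Nat.eq_zero_or_pos k with rfl | hk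
  · exact ⟨fun _ => True, ⟨fun _ _ i => i.elim0, fun i => i.elim0⟩, fun _ _ => trivial⟩
  let _ := Fintype.ofFinite {a // A a}
  obtain ⟨ρ, x, hx⟩ := h.exists_isOA (Option (Fin k)) {a // A a} (by simp)
    (by rw [← hn, Nat.card_eq_fintype_card])
  choose t ht using fun a => (hx none (some ⟨0, hk⟩) (by simp)).2 (s, a)
  have h1 : ∀ i, Function.Bijective fun a => x (t a) (some i) := by
    intro i
    refine Finite.injective_iff_bijective.1 fun a b e => ?_
    have h2 : t a = t b := (hx none (some i) (by simp)).1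
      (Prod.ext ((Prod.mk.inj (ht a)).1.trans (Prod.mk.inj (ht b)).1.symm) e)
    rw [← (Prod.mk.inj (ht a)).2, h2, (Prod.mk.inj (ht b)).2]
  have h3 : IsOA fun r i => (Equiv.ofBijective _ (h1 i)).symm (x r (some i)) := fun i l hil =>
    (Equiv.prodCongr (Equiv.ofBijective _ (h1 i)).symm
      (Equiv.ofBijective _ (h1 l)).symm).bijective.comp
      (hx (some i) (some l) fun e => hil (Option.some.inj e))
  refine ⟨_, wblk_of_isOA h3, fun a ha => ⟨t ⟨a, ha⟩, funext fun i => ?_⟩⟩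
  exact (congrArg Subtype.val ((Equiv.ofBijective _ (h1 i)).symm_apply_apply ⟨a, ha⟩)).symm

/-- The ingredients. -/
private theorem wblk_ingr {k m : ℕ} (h0 : Good k m) (h1 : Good (k + 1) (m + 1))
    (h2 : Good (k + 1) (m + 2)) (W : Bool → Prop) : ∃ B : (Fin k → Fin m ⊕ Bool) → Prop,
      WBlk (fun c => ∀ e, c = Sum.inr e → W e) B ∧ ∀ e, W e → B fun _ => Sum.inr e := by
  have hc : Nat.card {c : Fin m ⊕ Bool // ∀ e, c = Sum.inr e → W e} = m + Nat.card {e // W e} := by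
    rw [Nat.card_congr Equiv.subtypeSum, Nat.card_sum]
    congr 1
    · rw [Nat.card_congr (Equiv.subtypeUnivEquiv fun _ _ h => by cases h), Nat.card_fin]
    · exact Nat.card_congr (Equiv.subtypeEquivRight fun e => by simp)
  have hA : ∀ e, W e → ∀ e', (Sum.inr e : Fin m ⊕ Bool) = Sum.inr e' → W e' :=
    fun e he e' h => Sum.inr.inj h ▸ he
  by_cases hW : ∃ e, W e
  · obtain ⟨e, he⟩ := hW
    have : Nonempty {e // W e} := ⟨⟨e, he⟩⟩
    have h3 : 0 < Nat.card {e // W e} := Nat.card_pos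
    have h4 : Nat.card {e // W e} ≤ 2 := (Finite.card_subtype_le W).trans (by simp)
    have h5 : Good (k + 1) (m + Nat.card {e // W e}) := by
      interval_cases Nat.card {e // W e}
      exacts [h1, h2]
    obtain ⟨B, h6, h7⟩ := wblk_idem h5 _ hc ⟨_, hA e he⟩
    exact ⟨B, h6, fun e he => h7 _ (hA e he)⟩
  · have : IsEmpty {e // W e} := ⟨fun e => hW ⟨e.1, e.2⟩⟩
    obtain ⟨B, hB⟩ := wblk_of_good h0 (Fin k) _ (Fintype.card_fin k).le
      (hc.trans (by rw [Nat.card_of_isEmpty, add_zero]))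
    exact ⟨B, hB, fun e he => absurd ⟨e, he⟩ hW⟩

/-- The column of the master array that belongs to a label. -/
private def wcol {k m : ℕ} (i : Fin k) : Fin m ⊕ Bool → Fin k ⊕ Bool :=
  Sum.map (fun _ => i) id

private theorem wblk_main {k m : ℕ} {S : Type} {U : Bool → S → Prop}
    {M : (Fin k ⊕ Bool → S) → Prop} (hM : WBlk (fun _ => True) M)
    {I : (Bool → Prop) → (Fin k → Fin m ⊕ Bool) → Prop}
    (hI : ∀ W, WBlk (fun c => ∀ e, c = Sum.inr e → W e) (I W))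
    (hc : ∀ W e, W e → I W fun _ => Sum.inr e)
    {F : Bool → (Fin k → S) → Prop} (hF : ∀ e, WBlk (U e) (F e)) :
    WBlk (fun p : (Fin m ⊕ Bool) × S => ∀ e, p.1 = Sum.inr e → U e p.2) fun r =>
      (∃ b c, M b ∧ I (fun e => U e (b (Sum.inr e))) c ∧ (∀ e, c ≠ fun _ => Sum.inr e) ∧
        r = fun i => (c i, b (wcol i (c i)))) ∨
      ∃ e f, F e f ∧ r = fun i => (Sum.inr e, f i) := by
  refine ⟨?_, fun i l hil p q hp hq => ?_⟩
  · rintro _ (⟨b, c, -, h1, -, rfl⟩ | ⟨e, f, h1, rfl⟩) i e' h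
    · have h2 : c i = Sum.inr e' := h
      have h3 := (hI _).1 c h1 i e' h2
      simp only [h2]
      exact h3
    · exact Sum.inr.inj h ▸ (hF e).1 f h1 i
  obtain ⟨p, s⟩ := p
  obtain ⟨q, t⟩ := q
  by_cases h : ∃ e, p = Sum.inr e ∧ q = Sum.inr e
  · obtain ⟨e, rfl, rfl⟩ := h
    obtain ⟨f, ⟨h1, h2, h3⟩, h4⟩ := (hF e).2 i l hil s t (hp e rfl) (hq e rfl)
    refine ⟨fun j => (Sum.inr e, f j), ⟨Or.inr ⟨e, f, h1, rfl⟩, Prod.ext rfl h2, Prod.ext rfl h3⟩,
      ?_⟩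
    rintro _ ⟨⟨b, c, -, h5, h6, rfl⟩ | ⟨e', f', h5, rfl⟩, h7, h8⟩
    · have h9 := (Prod.mk.inj h7).1
      have h10 := (Prod.mk.inj h8).1
      have h11 := (hI _).1 c h5 i
      rw [h9] at h11
      exact absurd (((hI _).2 i l hil _ _ h11 h11).unique ⟨h5, h9, h10⟩
        ⟨hc _ e (h11 e rfl), rfl, rfl⟩) (h6 e)
    · obtain rfl : e' = e := Sum.inr.inj (Prod.mk.inj h7).1
      rw [h4 f' ⟨h5, (Prod.mk.inj h7).2, (Prod.mk.inj h8).2⟩]
  · have h0 : wcol i p ≠ wcol l q := by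
      rcases p with p | p <;> rcases q with q | q <;> simp_all [wcol]
      exact fun e => h e.symm
    obtain ⟨b, ⟨h1, h2, h3⟩, h4⟩ := hM.2 _ _ h0 s t trivial trivial
    obtain ⟨c, ⟨h5, h6, h7⟩, h8⟩ := (hI fun e => U e (b (Sum.inr e))).2 i l hil p q
      (by rintro e rfl; exact h2 ▸ hp e rfl) (by rintro e rfl; exact h3 ▸ hq e rfl)
    refine ⟨fun j => (c j, b (wcol j (c j))), ⟨Or.inl ⟨b, c, h1, h5, ?_, rfl⟩,
      by simp only [h6, h2], by simp only [h7, h3]⟩, ?_⟩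
    · rintro e rfl
      exact h ⟨e, h6.symm, h7.symm⟩
    · rintro _ ⟨⟨b', c', h9, h10, -, rfl⟩ | ⟨e, f, -, rfl⟩, h11, h12⟩
      · obtain ⟨h13, h14⟩ := Prod.mk.inj h11
        obtain ⟨h15, h16⟩ := Prod.mk.inj h12
        obtain rfl : b' = b := h4 b' ⟨h9, h13 ▸ h14, h15 ▸ h16⟩
        rw [h8 c' ⟨h10, h13, h15⟩]
      · exact absurd ⟨e, (Prod.mk.inj h11).1.symm, (Prod.mk.inj h12).1.symm⟩ h

theorem wilson {k m Q u₁ u₂ : ℕ} (hQ : Good (k + 2) Q) (h0 : Good k m) (h1 : Good (k + 1) (m + 1))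
    (h2 : Good (k + 1) (m + 2)) (hu₁ : Good k u₁) (hu₂ : Good k u₂) (l1 : u₁ ≤ Q) (l2 : u₂ ≤ Q) :
    Good k (m * Q + u₁ + u₂) := by
  let u : Bool → ℕ := fun e => cond e u₁ u₂
  have hu : ∀ e, Nat.card {s : Fin Q // s.1 < u e} = u e := fun e => by
    rw [Nat.card_eq_fintype_card, Fintype.card_fin_lt_of_le (by cases e <;> assumption)]
  obtain ⟨M, hM⟩ := wblk_of_good hQ (Fin k ⊕ Bool) (fun _ : Fin Q => True) (by simp) (by simp)
  choose I hI hc using wblk_ingr h0 h1 h2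
  choose F hF using fun e => wblk_of_good (show Good k (u e) by cases e <;> assumption) (Fin k)
    (fun s : Fin Q => s.1 < u e) (Fintype.card_fin k).le (hu e)
  have h := good_of_wblk (wblk_main hM hI hc hF)
  rw [Nat.card_congr (Equiv.subtypeProdEquivSigmaSubtype
    fun (c : Fin m ⊕ Bool) (s : Fin Q) => ∀ e, c = Sum.inr e → s.1 < u e), Nat.card_sigma,
    Fintype.sum_sum_type, Fintype.sum_bool] at h
  have h3 : ∀ e, Nat.card {s : Fin Q // ∀ e', (Sum.inr e : Fin m ⊕ Bool) = Sum.inr e' →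
      s.1 < u e'} = u e := fun e =>
    (Nat.card_congr (Equiv.subtypeEquivRight fun s => by simp)).trans (hu e)
  have h4 : ∀ a, Nat.card {s : Fin Q // ∀ e', (Sum.inl a : Fin m ⊕ Bool) = Sum.inr e' →
      s.1 < u e'} = Q := fun a => by
    rw [Nat.card_congr (Equiv.subtypeUnivEquiv fun _ _ h => by cases h), Nat.card_fin]
  simp only [h3, h4, sum_const, card_univ, Fintype.card_fin, smul_eq_mul] at h
  rw [add_assoc]
  exact h

end Pool.Agent.Lib.MP_ce212d_co
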